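import Mathlib
import Pool.Agent.Helper829.AFDefs

set_option autoImplicit false

namespace Pool.Agent.H215.SM

open Matrix Pool.Agent.Helper829.AF

variable {V : Type}

/-- the product of the matrix algebras of size `d v + 1`, `v : V` -/
abbrev T (d : V → ℕ) : Type := (v : V) → Matrix (Fin (d v + 1)) (Fin (d v + 1)) ℂ

/-- `S`: the families whose component at the vertex `z` is zero; this is the product of the
matrix algebras of size `d v + 1` over the vertices `v ≠ z`. -/
def S (d : V → ℕ) (z : V) : Submodule ℂ (T d) where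
  carrier := {t | t z = 0}
  add_mem' := by
    intro a b ha hb
    show a z + b z = 0
    rw [show a z = 0 from ha, show b z = 0 from hb, add_zero]
  zero_mem' := rfl
  smul_mem' := by
    intro c a ha
    show c • a z = 0
    rw [show a z = 0 from ha, smul_zero]

lemma S_mul {d : V → ℕ} {z : V} (s t : S d z) : (s.1 * t.1 : T d) ∈ S d z := by
  show s.1 z * t.1 z = 0
  rw [show s.1 z = 0 from s.2, zero_mul]

/-- a unital bimodule over the full product -/
structure UB (d : V → ℕ) (M : Type) [AddCommGroup M] [Module ℂ M] where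
  L : T d →ₗ[ℂ] (M →ₗ[ℂ] M)
  R : T d →ₗ[ℂ] (M →ₗ[ℂ] M)
  L_mul : ∀ s t x, L (s * t) x = L s (L t x)
  R_mul : ∀ s t x, R (s * t) x = R t (R s x)
  comm : ∀ s t x, L s (R t x) = R t (L s x)
  L_one : ∀ x, L 1 x = x
  R_one : ∀ x, R 1 x = x

/-- the product of `S ⊕ M` -/
def UB.mul {d : V → ℕ} {M : Type} [AddCommGroup M] [Module ℂ M] (B : UB d M) (z : V)
    (X Y : S d z × M) : S d z × M :=
  (⟨X.1.1 * Y.1.1, S_mul X.1 Y.1⟩, B.L X.1.1 Y.2 + B.R Y.1.1 X.2)

/-- The algebra with product `mul` is Frobenius by an exact form: there is a linear form `l` such that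
`l (xy - yx)` is nondegenerate. -/
def Exact {A : Type} [AddCommGroup A] [Module ℂ A] (mul : A → A → A) : Prop :=
  ∃ l : A →ₗ[ℂ] ℂ, ∀ x, (∀ y, l (mul x y - mul y x) = 0) → x = 0

/-- the standard bimodule -/
abbrev Mod (d : V → ℕ) (m : V → V → ℕ) : Type :=
  (v w : V) → Fin (m v w) → Matrix (Fin (d v + 1)) (Fin (d w + 1)) ℂ

def std (d : V → ℕ) (m : V → V → ℕ) : UB d (Mod d m) where
  L := LinearMap.mk₂ ℂ (fun t y v w a => t v * y v w a)
    (by intro a b c; funext v w i; exact Matrix.add_mul _ _ _) (by intro a b c; funext v w i; simp)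
    (by intro a b c; funext v w i; exact Matrix.mul_add _ _ _) (by intro a b c; funext v w i; simp)
  R := LinearMap.mk₂ ℂ (fun t y v w a => y v w a * t w)
    (by intro a b c; funext v w i; exact Matrix.mul_add _ _ _) (by intro a b c; funext v w i; simp)
    (by intro a b c; funext v w i; exact Matrix.add_mul _ _ _) (by intro a b c; funext v w i; simp)
  L_mul := by intro s t x; funext v w a; simp [Matrix.mul_assoc]
  R_mul := by intro s t x; funext v w a; simp [Matrix.mul_assoc]
  comm := by intro s t x; funext v w a; simp [Matrix.mul_assoc]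
  L_one := by intro x; funext v w a; simp
  R_one := by intro x; funext v w a; simp

@[simp] lemma std_L (d : V → ℕ) (m : V → V → ℕ) (t : T d) (y : Mod d m) (v w : V)
    (a : Fin (m v w)) : (std d m).L t y v w a = t v * y v w a := rfl

@[simp] lemma std_R (d : V → ℕ) (m : V → V → ℕ) (t : T d) (y : Mod d m) (v w : V)
    (a : Fin (m v w)) : (std d m).R t y v w a = y v w a * t w := rfl

section units
variable [DecidableEq V] {d : V → ℕ}

/-- matrix units -/
def E (v : V) (c e : Fin (d v + 1)) : T d := Pi.single v (Matrix.single c e 1)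

lemma E_mul_same (v : V) (c e e' g : Fin (d v + 1)) :
    (E v c e * E v e' g : T d) = if e = e' then E v c g else 0 := by
  unfold E
  rw [← Pi.single_mul]
  split_ifs with h
  · subst h
    rw [Matrix.single_mul_single_same]; simp
  · rw [Matrix.single_mul_single_of_ne (h := h)]; simp

lemma E_mul_ne {v w : V} (h : v ≠ w) (c e : Fin (d v + 1)) (f g : Fin (d w + 1)) :
    (E v c e * E w f g : T d) = 0 := by
  funext u
  show (Pi.single v (Matrix.single c e 1) : T d) u * (Pi.single w (Matrix.single f g 1) : T d) u = 0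
  by_cases hu : u = v
  · subst hu
    rw [show (Pi.single w (Matrix.single f g 1) : T d) u = 0 from Pi.single_eq_of_ne h _, mul_zero]
  · rw [Pi.single_eq_of_ne hu, zero_mul]

lemma mul_E (t : T d) (v : V) (c e : Fin (d v + 1)) :
    (t * E v c e : T d) = ∑ b, t v b c • E v b e := by
  funext u
  rw [Finset.sum_apply]
  show t u * (Pi.single v (Matrix.single c e 1) : T d) u = ∑ b, t v b c • (Pi.single v (Matrix.single b e 1) : T d) u
  by_cases hu : u = v
  · subst hu
    simp only [Pi.single_eq_same]
    ext i j
    rw [Matrix.sum_apply]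
    simp only [Matrix.smul_apply, Matrix.single_apply, smul_eq_mul, Matrix.mul_apply]
    by_cases hj : e = j
    · subst hj
      simp
    · simp [hj]
  · simp [Pi.single_eq_of_ne hu]

lemma E_mul (t : T d) (v : V) (c e : Fin (d v + 1)) :
    (E v c e * t : T d) = ∑ b, t v e b • E v c b := by
  funext u
  rw [Finset.sum_apply]
  show (Pi.single v (Matrix.single c e 1) : T d) u * t u = ∑ b, t v e b • (Pi.single v (Matrix.single c b 1) : T d) u
  by_cases hu : u = v
  · subst hu
    simp only [Pi.single_eq_same]
    ext i j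
    rw [Matrix.sum_apply]
    simp only [Matrix.smul_apply, Matrix.single_apply, smul_eq_mul, Matrix.mul_apply]
    by_cases hj : c = i
    · subst hj
      simp
    · simp [hj]
  · simp [Pi.single_eq_of_ne hu]

lemma sum_E [Fintype V] : (∑ v, ∑ c, E v c c : T d) = 1 := by
  funext u
  rw [Finset.sum_apply, Finset.sum_eq_single u]
  · rw [Finset.sum_apply]
    ext i j
    rw [Matrix.sum_apply]
    have : ∀ c : Fin (d u + 1), (E u c c : T d) u i j = if c = i then (if c = j then 1 else 0) else 0 := by
      intro c
      simp only [E, Pi.single_eq_same, Matrix.single_apply]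
      by_cases h1 : c = i <;> by_cases h2 : c = j <;> simp [h1, h2]
    rw [Finset.sum_congr rfl (fun c _ => this c), Finset.sum_ite_eq' Finset.univ i]
    simp [Matrix.one_apply]
  · intro b _ hb
    rw [Finset.sum_apply]
    apply Finset.sum_eq_zero
    intro c _
    exact Pi.single_eq_of_ne hb.symm _
  · intro h; exact absurd (Finset.mem_univ u) h

/-- the separability identity -/
lemma sep [Fintype V] {W : Type} [AddCommGroup W] [Module ℂ W] (G : T d →ₗ[ℂ] T d →ₗ[ℂ] W)
    (s : T d) :
    ∑ v, ∑ c, G (s * E v c 0) (E v 0 c) = ∑ v, ∑ c, G (E v c 0) (E v 0 c * s) := by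
  apply Finset.sum_congr rfl
  intro v _
  simp only [mul_E, E_mul, map_sum, map_smul, LinearMap.sum_apply, LinearMap.smul_apply]
  rw [Finset.sum_comm]

end units

end Pool.Agent.H215.SM
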