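import Pool.Agent.H215.SM.A

set_option autoImplicit false
set_option linter.unusedSectionVars false

namespace Pool.Agent.H215.SM

open Matrix Pool.Agent.Helper829.AF

variable {V : Type}

section classify
variable [Fintype V] [DecidableEq V] {d : V → ℕ} {M : Type} [AddCommGroup M] [Module ℂ M]

/-- the multiplicity space of `V_v ⊗ V_w^*` -/
def UB.Q (B : UB d M) (v w : V) : Submodule ℂ M where
  carrier := {x | B.L (E v 0 0) x = x ∧ B.R (E w 0 0) x = x}
  add_mem' := by
    rintro x y ⟨hx, hx'⟩ ⟨hy, hy'⟩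
    exact ⟨by rw [map_add, hx, hy], by rw [map_add, hx', hy']⟩
  zero_mem' := ⟨by simp, by simp⟩
  smul_mem' := by
    rintro c x ⟨hx, hx'⟩
    exact ⟨by rw [map_smul, hx], by rw [map_smul, hx']⟩

noncomputable def UB.mult (B : UB d M) (v w : V) : ℕ := Module.finrank ℂ (B.Q v w)

/-- extraction of a coefficient -/
def UB.X (B : UB d M) (v w : V) (c : Fin (d v + 1)) (e : Fin (d w + 1)) : M →ₗ[ℂ] M :=
  B.L (E v 0 c) ∘ₗ B.R (E w e 0)

/-- placing a coefficient -/
def UB.P (B : UB d M) (v w : V) (c : Fin (d v + 1)) (e : Fin (d w + 1)) : M →ₗ[ℂ] M :=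
  B.L (E v c 0) ∘ₗ B.R (E w 0 e)

lemma UB.X_mem (B : UB d M) (v w : V) (c : Fin (d v + 1)) (e : Fin (d w + 1)) (x : M) :
    B.X v w c e x ∈ B.Q v w := by
  constructor
  · show B.L (E v 0 0) (B.L (E v 0 c) (B.R (E w e 0) x)) = B.L (E v 0 c) (B.R (E w e 0) x)
    rw [← B.L_mul, E_mul_same, if_pos rfl]
  · show B.R (E w 0 0) (B.L (E v 0 c) (B.R (E w e 0) x)) = B.L (E v 0 c) (B.R (E w e 0) x)
    rw [← B.comm, ← B.R_mul, E_mul_same, if_pos rfl]

lemma UB.X_P_same (B : UB d M) (v w : V) (c c' : Fin (d v + 1)) (e e' : Fin (d w + 1)) (x : M)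
    (hx : x ∈ B.Q v w) :
    B.X v w c e (B.P v w c' e' x) = if c = c' then (if e' = e then x else 0) else 0 := by
  show B.L (E v 0 c) (B.R (E w e 0) (B.L (E v c' 0) (B.R (E w 0 e') x))) = _
  rw [← B.comm, ← B.L_mul, ← B.R_mul, E_mul_same, E_mul_same]
  split_ifs with h1 h2 h2
  · rw [hx.2, hx.1]
  · rw [show B.R (0 : T d) = 0 from map_zero _]; simp
  · rw [show B.L (0 : T d) = 0 from map_zero _]; rfl
  · rw [show B.L (0 : T d) = 0 from map_zero _]; rfl

lemma UB.X_P_ne (B : UB d M) {v w v' w' : V} (h : v ≠ v' ∨ w' ≠ w) (c : Fin (d v + 1))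
    (c' : Fin (d v' + 1)) (e : Fin (d w + 1)) (e' : Fin (d w' + 1)) (x : M) :
    B.X v w c e (B.P v' w' c' e' x) = 0 := by
  show B.L (E v 0 c) (B.R (E w e 0) (B.L (E v' c' 0) (B.R (E w' 0 e') x))) = _
  rw [← B.comm, ← B.L_mul, ← B.R_mul]
  rcases h with h | h
  · rw [E_mul_ne h]; simp
  · rw [E_mul_ne h]; simp

lemma UB.sum_PX (B : UB d M) (x : M) :
    ∑ v, ∑ w, ∑ c, ∑ e, B.P v w c e (B.X v w c e x) = x := by
  have h1 : ∀ v w (c : Fin (d v + 1)) (e : Fin (d w + 1)), B.P v w c e (B.X v w c e x) =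
      B.L (E v c c) (B.R (E w e e) x) := by
    intro v w c e
    show B.L (E v c 0) (B.R (E w 0 e) (B.L (E v 0 c) (B.R (E w e 0) x))) = _
    rw [← B.comm, ← B.L_mul, ← B.R_mul, E_mul_same, E_mul_same, if_pos rfl, if_pos rfl]
  simp only [h1]
  have h2 : ∀ v : V, ∑ w, ∑ c : Fin (d v + 1), ∑ e : Fin (d w + 1), B.L (E v c c) (B.R (E w e e) x) =
      ∑ c, B.L (E v c c) x := by
    intro v
    rw [Finset.sum_comm]
    apply Finset.sum_congr rfl
    intro c _
    have h3 : B.R (∑ w, ∑ e, E w e e) x = x := by rw [sum_E]; exact B.R_one x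
    conv_rhs => rw [← h3]
    simp only [map_sum, LinearMap.sum_apply]
  simp only [h2]
  have h4 : B.L (∑ w, ∑ e, E w e e) x = x := by rw [sum_E]; exact B.L_one x
  conv_rhs => rw [← h4]
  simp only [map_sum, LinearMap.sum_apply]

lemma UB.X_inj (B : UB d M) {x y : M} (h : ∀ v w c e, B.X v w c e x = B.X v w c e y) : x = y := by
  rw [← B.sum_PX x, ← B.sum_PX y]
  simp only [h]

lemma UB.X_L (B : UB d M) (t : T d) (v w : V) (c : Fin (d v + 1)) (e : Fin (d w + 1)) (x : M) :
    B.X v w c e (B.L t x) = ∑ b, t v c b • B.X v w b e x := by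
  show B.L (E v 0 c) (B.R (E w e 0) (B.L t x)) = _
  rw [← B.comm, ← B.L_mul, E_mul]
  simp only [map_sum, map_smul, LinearMap.sum_apply, LinearMap.smul_apply]
  rfl

lemma UB.X_R (B : UB d M) (t : T d) (v w : V) (c : Fin (d v + 1)) (e : Fin (d w + 1)) (x : M) :
    B.X v w c e (B.R t x) = ∑ b, t w b e • B.X v w c b x := by
  show B.L (E v 0 c) (B.R (E w e 0) (B.R t x)) = _
  rw [← B.R_mul, mul_E]
  simp only [map_sum, map_smul, LinearMap.sum_apply, LinearMap.smul_apply]
  rfl

/-- isomorphism of bimodules -/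
def Iso {M₁ M₂ : Type} [AddCommGroup M₁] [Module ℂ M₁] [AddCommGroup M₂] [Module ℂ M₂]
    (B₁ : UB d M₁) (B₂ : UB d M₂) : Prop :=
  ∃ φ : M₁ ≃ₗ[ℂ] M₂, (∀ t x, φ (B₁.L t x) = B₂.L t (φ x)) ∧ (∀ t x, φ (B₁.R t x) = B₂.R t (φ x))

lemma Iso.symm {M₁ M₂ : Type} [AddCommGroup M₁] [Module ℂ M₁] [AddCommGroup M₂] [Module ℂ M₂]
    {B₁ : UB d M₁} {B₂ : UB d M₂} (h : Iso B₁ B₂) : Iso B₂ B₁ := by
  obtain ⟨φ, hL, hR⟩ := h
  refine ⟨φ.symm, ?_, ?_⟩
  · intro t x
    apply φ.injective
    rw [hL]; simp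
  · intro t x
    apply φ.injective
    rw [hR]; simp

lemma Iso.trans {M₁ M₂ M₃ : Type} [AddCommGroup M₁] [Module ℂ M₁] [AddCommGroup M₂] [Module ℂ M₂]
    [AddCommGroup M₃] [Module ℂ M₃]
    {B₁ : UB d M₁} {B₂ : UB d M₂} {B₃ : UB d M₃} (h : Iso B₁ B₂) (h' : Iso B₂ B₃) : Iso B₁ B₃ := by
  obtain ⟨φ, hL, hR⟩ := h
  obtain ⟨ψ, hL', hR'⟩ := h'
  refine ⟨φ.trans ψ, ?_, ?_⟩
  · intro t x; simp [hL, hL']
  · intro t x; simp [hR, hR']

/-- classification of bimodules by multiplicities -/
theorem classify (B : UB d M) [FiniteDimensional ℂ M] : Iso (std d B.mult) B := by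
  let β : ∀ v w, Module.Basis (Fin (B.mult v w)) ℂ (B.Q v w) := fun v w => Module.finBasis ℂ (B.Q v w)
  let comb : ∀ v w, (Fin (B.mult v w) → ℂ) →ₗ[ℂ] M := fun v w =>
    (B.Q v w).subtype ∘ₗ ((β v w).equivFun.symm : (Fin (B.mult v w) → ℂ) →ₗ[ℂ] (B.Q v w))
  have comb_mem : ∀ v w f, comb v w f ∈ B.Q v w := fun v w f => ((β v w).equivFun.symm f).2
  have comb_inj : ∀ v w, Function.Injective (comb v w) := fun v w =>
    (Subtype.val_injective).comp (β v w).equivFun.symm.injective
  have comb_surj : ∀ v w x, x ∈ B.Q v w → ∃ f, comb v w f = x := by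
    intro v w x hx
    refine ⟨(β v w).equivFun ⟨x, hx⟩, ?_⟩
    show (((β v w).equivFun.symm ((β v w).equivFun ⟨x, hx⟩) : B.Q v w) : M) = x
    rw [LinearEquiv.symm_apply_apply]
  let φ : Mod d B.mult →ₗ[ℂ] M :=
    { toFun := fun y => ∑ v, ∑ w, ∑ c, ∑ e, B.P v w c e (comb v w (fun a => y v w a c e))
      map_add' := by
        intro x y
        simp only [← Finset.sum_add_distrib]
        refine Finset.sum_congr rfl fun v _ => Finset.sum_congr rfl fun w _ =>
          Finset.sum_congr rfl fun c _ => Finset.sum_congr rfl fun e _ => ?_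
        rw [← map_add, ← map_add]; rfl
      map_smul' := by
        intro r x
        simp only [Finset.smul_sum, RingHom.id_apply]
        refine Finset.sum_congr rfl fun v _ => Finset.sum_congr rfl fun w _ =>
          Finset.sum_congr rfl fun c _ => Finset.sum_congr rfl fun e _ => ?_
        rw [← map_smul, ← map_smul]; rfl }
  have Xφ : ∀ v w c e y, B.X v w c e (φ y) = comb v w (fun a => y v w a c e) := by
    intro v w c e y
    show B.X v w c e (∑ v, ∑ w, ∑ c, ∑ e, B.P v w c e (comb v w (fun a => y v w a c e))) = _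
    simp only [map_sum]
    rw [Finset.sum_eq_single v, Finset.sum_eq_single w, Finset.sum_eq_single c,
      Finset.sum_eq_single e]
    · rw [B.X_P_same _ _ _ _ _ _ _ (comb_mem _ _ _), if_pos rfl, if_pos rfl]
    · intro e' _ he
      rw [B.X_P_same _ _ _ _ _ _ _ (comb_mem _ _ _), if_pos rfl, if_neg he]
    · intro h; exact absurd (Finset.mem_univ _) h
    · intro c' _ hc
      apply Finset.sum_eq_zero
      intro e' _
      rw [B.X_P_same _ _ _ _ _ _ _ (comb_mem _ _ _), if_neg (Ne.symm hc)]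
    · intro h; exact absurd (Finset.mem_univ _) h
    · intro w' _ hw
      exact Finset.sum_eq_zero fun c' _ => Finset.sum_eq_zero fun e' _ =>
        B.X_P_ne (Or.inr hw) _ _ _ _ _
    · intro h; exact absurd (Finset.mem_univ _) h
    · intro v' _ hv
      exact Finset.sum_eq_zero fun w' _ => Finset.sum_eq_zero fun c' _ =>
        Finset.sum_eq_zero fun e' _ => B.X_P_ne (Or.inl (Ne.symm hv)) _ _ _ _ _
    · intro h; exact absurd (Finset.mem_univ _) h
  have hinj : Function.Injective φ := by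
    rw [injective_iff_map_eq_zero]
    intro y hy
    funext v w a
    ext c e
    have h1 := Xφ v w c e y
    rw [hy, map_zero] at h1
    have h2 := comb_inj v w (h1.symm.trans (map_zero _).symm)
    exact congrFun h2 a
  have hsurj : Function.Surjective φ := by
    intro x
    choose f hf using fun v w c e => comb_surj v w _ (B.X_mem v w c e x)
    refine ⟨fun v w a => Matrix.of fun c e => f v w c e a, ?_⟩
    apply B.X_inj
    intro v w c e
    rw [Xφ, ← hf v w c e]
    rfl
  refine ⟨LinearEquiv.ofBijective φ ⟨hinj, hsurj⟩, ?_, ?_⟩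
  · intro t y
    show φ _ = B.L t (φ y)
    apply B.X_inj
    intro v w c e
    rw [Xφ, B.X_L]
    simp only [Xφ]
    rw [← Finset.sum_congr rfl (fun b _ => map_smul (comb v w) (t v c b) (fun a => y v w a b e)),
      ← map_sum]
    congr 1
    funext a
    rw [std_L, Matrix.mul_apply, Finset.sum_apply]
    rfl
  · intro t y
    show φ _ = B.R t (φ y)
    apply B.X_inj
    intro v w c e
    rw [Xφ, B.X_R]
    simp only [Xφ]
    rw [← Finset.sum_congr rfl (fun b _ => map_smul (comb v w) (t w b e) (fun a => y v w a c b)),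
      ← map_sum]
    congr 1
    funext a
    rw [std_R, Matrix.mul_apply, Finset.sum_apply]
    refine Finset.sum_congr rfl fun b _ => ?_
    show y v w a c b * t w b e = t w b e * y v w a c b
    ring

theorem iso_of_mult {M₁ M₂ : Type} [AddCommGroup M₁] [Module ℂ M₁] [AddCommGroup M₂]
    [Module ℂ M₂] [FiniteDimensional ℂ M₁] [FiniteDimensional ℂ M₂] (B₁ : UB d M₁) (B₂ : UB d M₂)
    (h : ∀ v w, B₁.mult v w = B₂.mult v w) : Iso B₁ B₂ := by
  have h1 := classify B₁
  have h2 := classify B₂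
  have h3 : B₁.mult = B₂.mult := funext fun v => funext fun w => h v w
  rw [h3] at h1
  exact h1.symm.trans h2

theorem mult_std (m : V → V → ℕ) (v w : V) : (std d m).mult v w = m v w := by
  let g : (std d m).Q v w →ₗ[ℂ] (Fin (m v w) → ℂ) :=
    { toFun := fun q a => q.1 v w a 0 0
      map_add' := by intro x y; rfl
      map_smul' := by intro r x; rfl }
  have hq : ∀ q ∈ (std d m).Q v w, ∀ v' w' a c e, q v' w' a c e ≠ 0 →
      ∃ (hv : v' = v) (hw : w' = w), c = 0 ∧ e = 0 := by
    rintro q ⟨h1, h2⟩ v' w' a c e hne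
    have e1 : q v' w' a = (E v 0 0 : T d) v' * q v' w' a := (congrFun (congrFun (congrFun h1 v') w') a).symm
    have e2 : q v' w' a = q v' w' a * (E w 0 0 : T d) w' := (congrFun (congrFun (congrFun h2 v') w') a).symm
    have hv : v' = v := by
      by_contra hv
      apply hne
      rw [e1, show (E v 0 0 : T d) v' = 0 from Pi.single_eq_of_ne hv _, Matrix.zero_mul]; rfl
    have hw : w' = w := by
      by_contra hw
      apply hne
      rw [e2, show (E w 0 0 : T d) w' = 0 from Pi.single_eq_of_ne hw _, Matrix.mul_zero]; rfl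
    subst hv
    subst hw
    refine ⟨rfl, rfl, ?_, ?_⟩
    · by_contra hc
      apply hne
      rw [e1, show (E v' 0 0 : T d) v' = Matrix.single 0 0 1 from Pi.single_eq_same _ _]
      rw [Matrix.mul_apply]
      exact Finset.sum_eq_zero fun b _ => by rw [Matrix.single_apply, if_neg (fun h => hc h.1.symm), zero_mul]
    · by_contra he
      apply hne
      rw [e2, show (E w' 0 0 : T d) w' = Matrix.single 0 0 1 from Pi.single_eq_same _ _]
      rw [Matrix.mul_apply]
      exact Finset.sum_eq_zero fun b _ => by rw [Matrix.single_apply, if_neg (fun h => he h.2.symm), mul_zero]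
  have hinj : Function.Injective g := by
    rw [injective_iff_map_eq_zero]
    intro q h0
    apply Subtype.ext
    funext v' w' a
    ext c e
    by_contra hne
    obtain ⟨hv, hw, hc, he⟩ := hq q.1 q.2 v' w' a c e hne
    subst hv; subst hw; subst hc; subst he
    exact hne (congrFun h0 a)
  have hsurj : Function.Surjective g := by
    intro f
    let q : Mod d m := Pi.single v (Pi.single w (fun a => Matrix.single 0 0 (f a)))
    have q0 : ∀ v' w', v' ≠ v ∨ w' ≠ w → ∀ a, q v' w' a = 0 := by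
      intro v' w' h a
      rcases h with h | h
      · show (Pi.single v (Pi.single w (fun a => Matrix.single 0 0 (f a))) : Mod d m) v' w' a = 0
        rw [Pi.single_eq_of_ne h]; rfl
      · show (Pi.single v (Pi.single w (fun a => Matrix.single 0 0 (f a))) : Mod d m) v' w' a = 0
        by_cases hv : v' = v
        · subst hv
          rw [Pi.single_eq_same, Pi.single_eq_of_ne h]; rfl
        · rw [Pi.single_eq_of_ne hv]; rfl
    have q1 : ∀ a, q v w a = Matrix.single 0 0 (f a) := by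
      intro a
      show (Pi.single v (Pi.single w (fun a => Matrix.single 0 0 (f a))) : Mod d m) v w a = _
      rw [Pi.single_eq_same, Pi.single_eq_same]
    refine ⟨⟨q, ?_, ?_⟩, ?_⟩
    · funext v' w' a
      rw [std_L]
      by_cases h : v' = v ∧ w' = w
      · obtain ⟨rfl, rfl⟩ := h
        rw [q1, show (E v' 0 0 : T d) v' = Matrix.single 0 0 1 from Pi.single_eq_same _ _,
          Matrix.single_mul_single_same, one_mul]
      · rw [q0 _ _ (by tauto), Matrix.mul_zero]
    · funext v' w' a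
      rw [std_R]
      by_cases h : v' = v ∧ w' = w
      · obtain ⟨rfl, rfl⟩ := h
        rw [q1, show (E w' 0 0 : T d) w' = Matrix.single 0 0 1 from Pi.single_eq_same _ _,
          Matrix.single_mul_single_same, mul_one]
      · rw [q0 _ _ (by tauto), Matrix.zero_mul]
    · funext a
      show q v w a 0 0 = f a
      rw [q1]; simp
  rw [UB.mult, LinearEquiv.finrank_eq (LinearEquiv.ofBijective g ⟨hinj, hsurj⟩)]
  simp

end classify

end Pool.Agent.H215.SM
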