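import Pool.Agent.H215.SM.B

set_option autoImplicit false
set_option linter.unusedSectionVars false

namespace Pool.Agent.H215.SM

open Matrix Pool.Agent.Helper829.AF

variable {V : Type}
variable [Fintype V] [DecidableEq V] {d : V → ℕ} {M : Type} [AddCommGroup M] [Module ℂ M]

/-- the data describing a nondegenerate form -/
def Data (B : UB d M) (z : V) (lS : T d →ₗ[ℂ] ℂ) (lM : M →ₗ[ℂ] ℂ) (β : M →ₗ[ℂ] M →ₗ[ℂ] ℂ) : Prop :=
  (∀ x y, β x y = - β y x) ∧ (∀ t x y, β (B.L t x) y = β x (B.R t y)) ∧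
  (∀ s ∈ S d z, ∀ x, (∀ t ∈ S d z, lS (s * t - t * s) - lM (B.L t x - B.R t x) = 0) →
    (∀ y, lM (B.L s y - B.R s y) + β x y = 0) → s = 0 ∧ x = 0)

lemma Data.bal' {B : UB d M} {z : V} {lS : T d →ₗ[ℂ] ℂ} {lM : M →ₗ[ℂ] ℂ} {β : M →ₗ[ℂ] M →ₗ[ℂ] ℂ}
    (h : Data B z lS lM β) (t x y) : β (B.R t x) y = β x (B.L t y) := by
  rw [h.1, ← h.2.1, h.1, neg_neg]

/-- from data to an exact form -/
theorem exact_of_data {B : UB d M} {z : V} {lS : T d →ₗ[ℂ] ℂ} {lM : M →ₗ[ℂ] ℂ}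
    (h : Data B z lS lM 0) : Exact (B.mul z) := by
  refine ⟨(lS ∘ₗ (S d z).subtype).coprod lM, ?_⟩
  rintro ⟨s, x⟩ hk
  have h1 : ∀ t ∈ S d z, lS (s.1 * t - t * s.1) - lM (B.L t x - B.R t x) = 0 := by
    intro t ht
    have := hk (⟨t, ht⟩, 0)
    simp only [UB.mul, map_zero, zero_add, add_zero, LinearMap.coprod_apply, Prod.fst_sub, Prod.snd_sub,
      LinearMap.comp_apply, Submodule.subtype_apply, Submodule.coe_sub] at this
    rw [← this]
    simp only [map_sub]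
    ring
  have h2 : ∀ y, lM (B.L s.1 y - B.R s.1 y) + (0 : M →ₗ[ℂ] M →ₗ[ℂ] ℂ) x y = 0 := by
    intro y
    have := hk (0, y)
    simp only [UB.mul, map_zero, zero_add, add_zero, LinearMap.coprod_apply, Prod.fst_sub, Prod.snd_sub,
      LinearMap.comp_apply, Submodule.subtype_apply, Submodule.coe_sub, Submodule.coe_zero, mul_zero, zero_mul,
      sub_self, LinearMap.zero_apply] at this
    simpa using this
  obtain ⟨h3, h4⟩ := h.2.2 s.1 s.2 x h1 h2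
  exact Prod.ext (Subtype.ext h3) h4

theorem data_of_exact {B : UB d M} {z : V} (h : Exact (B.mul z)) :
    ∃ (lS : T d →ₗ[ℂ] ℂ) (lM : M →ₗ[ℂ] ℂ), Data B z lS lM 0 := by
  obtain ⟨l, hl⟩ := h
  obtain ⟨g, hg⟩ := LinearMap.exists_leftInverse_of_injective (S d z).subtype
    (LinearMap.ker_eq_bot.2 Subtype.val_injective)
  have hg' : ∀ s : S d z, g s.1 = s := fun s => LinearMap.congr_fun hg s
  refine ⟨l ∘ₗ LinearMap.inl ℂ _ _ ∘ₗ g, l ∘ₗ LinearMap.inr ℂ _ _, ?_, ?_, ?_⟩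
  · intro x y; simp
  · intro t x y; simp
  · intro s hs x h1 h2
    have h3 := hl (⟨s, hs⟩, x) (by
      rintro ⟨t, y⟩
      have e1 := h1 t.1 t.2
      have e2 := h2 y
      have e3 : g (s * t.1 - t.1 * s) = ⟨s * t.1, S_mul ⟨s, hs⟩ t⟩ - ⟨t.1 * s, S_mul t ⟨s, hs⟩⟩ :=
        hg' (⟨s * t.1, S_mul ⟨s, hs⟩ t⟩ - ⟨t.1 * s, S_mul t ⟨s, hs⟩⟩)
      simp only [LinearMap.comp_apply, e3, LinearMap.zero_apply, add_zero] at e1 e2
      have e4 : B.mul z (⟨s, hs⟩, x) (t, y) - B.mul z (t, y) (⟨s, hs⟩, x) =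
          LinearMap.inl ℂ (S d z) M (⟨s * t.1, S_mul ⟨s, hs⟩ t⟩ - ⟨t.1 * s, S_mul t ⟨s, hs⟩⟩) -
          LinearMap.inr ℂ (S d z) M (B.L t.1 x - B.R t.1 x) +
          LinearMap.inr ℂ (S d z) M (B.L s y - B.R s y) := by
        refine Prod.ext ?_ ?_
        · simp [UB.mul]
        · simp [UB.mul]; abel
      rw [e4, map_add, map_sub, e2, e1, add_zero])
    exact ⟨congrArg (fun p : S d z × M => (p.1 : T d)) h3, congrArg Prod.snd h3⟩

/-- from data to a form -/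
theorem af_of_data {B : UB d M} {z : V} {lS : T d →ₗ[ℂ] ℂ} {lM : M →ₗ[ℂ] ℂ}
    {β : M →ₗ[ℂ] M →ₗ[ℂ] ℂ} (h : Data B z lS lM β) : AntiFrobenius (B.mul z) := by
  let ω : (S d z × M) →ₗ[ℂ] (S d z × M) →ₗ[ℂ] ℂ := LinearMap.mk₂ ℂ
    (fun X Y => lS (X.1.1 * Y.1.1 - Y.1.1 * X.1.1) - lM (B.L Y.1.1 X.2 - B.R Y.1.1 X.2) +
      (lM (B.L X.1.1 Y.2 - B.R X.1.1 Y.2) + β X.2 Y.2))
    (by
      intro a b c
      simp only [Prod.fst_add, Prod.snd_add, Submodule.coe_add, add_mul, mul_add, map_add, map_sub,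
        LinearMap.add_apply]
      ring)
    (by
      intro r a c
      simp only [Prod.smul_fst, Prod.smul_snd, Submodule.coe_smul, smul_mul_assoc, mul_smul_comm,
        map_smul, map_sub, LinearMap.smul_apply, smul_eq_mul]
      ring)
    (by
      intro a b c
      simp only [Prod.fst_add, Prod.snd_add, Submodule.coe_add, add_mul, mul_add, map_add, map_sub,
        LinearMap.add_apply]
      ring)
    (by
      intro r a c
      simp only [Prod.smul_fst, Prod.smul_snd, Submodule.coe_smul, smul_mul_assoc, mul_smul_comm,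
        map_smul, map_sub, LinearMap.smul_apply, smul_eq_mul]
      ring)
  have hω : ∀ X Y, ω X Y = lS (X.1.1 * Y.1.1 - Y.1.1 * X.1.1) - lM (B.L Y.1.1 X.2 - B.R Y.1.1 X.2) +
      (lM (B.L X.1.1 Y.2 - B.R X.1.1 Y.2) + β X.2 Y.2) := fun X Y => rfl
  refine ⟨ω, ?_, ?_, ?_⟩
  · rintro ⟨s, x⟩ hk
    have h1 : ∀ t ∈ S d z, lS (s.1 * t - t * s.1) - lM (B.L t x - B.R t x) = 0 := by
      intro t ht
      have := hk (⟨t, ht⟩, 0)
      rw [hω] at this
      simpa using this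
    have h2 : ∀ y, lM (B.L s.1 y - B.R s.1 y) + β x y = 0 := by
      intro y
      have := hk (0, y)
      rw [hω] at this
      simpa using this
    obtain ⟨h3, h4⟩ := h.2.2 s.1 s.2 x h1 h2
    exact Prod.ext (Subtype.ext h3) h4
  · intro X Y
    rw [hω, hω, h.1 X.2 Y.2]
    simp only [map_sub]
    ring
  · rintro ⟨s, x⟩ ⟨t, y⟩ ⟨u, w⟩
    simp only [hω, UB.mul, map_sub, map_add, B.L_mul, B.R_mul]
    have a1 := h.1 x (B.L t.1 w)
    have a2 := h.1 y (B.L u.1 x)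
    have a3 := h.1 w (B.L s.1 y)
    rw [a1, a2, a3, h.2.1, h.2.1, h.2.1]
    simp only [B.comm, mul_assoc]
    ring

end Pool.Agent.H215.SM
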