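import Pool.Agent.H215.SM.Mv

set_option autoImplicit false
set_option linter.unusedSectionVars false

namespace Pool.Agent.H215.SM

open Matrix

variable {H : Type} [AddCommGroup H] [Module ℂ H]
variable {ι κ κ' : Type} [Fintype ι] [DecidableEq ι] [Fintype κ] [DecidableEq κ] [Fintype κ']
  [DecidableEq κ']

/-- the second standard inclusion -/
def Qm (κ κ' : Type) [DecidableEq κ'] : Matrix (κ ⊕ κ') κ' ℂ := fun p j => Sum.elim (fun _ => 0) (fun i => if i = j then 1 else 0) p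

/-- the second standard projection -/
def Qp (κ κ' : Type) [DecidableEq κ'] : Matrix κ' (κ ⊕ κ') ℂ := fun j p => Sum.elim (fun _ => 0) (fun i => if j = i then 1 else 0) p

lemma Qp_Qm : Qp κ κ' * Qm κ κ' = 1 := by
  ext i j
  rw [Matrix.mul_apply, Fintype.sum_sum_type]
  simp [Qp, Qm, Matrix.one_apply]

lemma Jp_Qm : Jp κ κ' * Qm κ κ' = 0 := by
  ext i j
  rw [Matrix.mul_apply, Fintype.sum_sum_type]
  simp [Jp, Qm]

lemma sum_one : Jm κ κ' * Jp κ κ' + Qm κ κ' * Qp κ κ' = 1 := by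
  ext p q
  rw [Matrix.add_apply, Matrix.mul_apply, Matrix.mul_apply]
  cases p <;> cases q <;> simp [Jm, Jp, Qm, Qp, Matrix.one_apply]

theorem castle_std (μ : H →ₗ[ℂ] H →ₗ[ℂ] H) (ρ : H →ₗ[ℂ] Matrix (κ ⊕ κ') (κ ⊕ κ') ℂ)
    (hρ : ∀ a b, ρ (μ a b) = ρ a * ρ b)
    (l : (H × Matrix κ κ ℂ × Matrix (κ ⊕ κ') κ ℂ) →ₗ[ℂ] ℂ)
    (hl : ∀ x, (∀ y, l (extMul μ ρ κ x y - extMul μ ρ κ y x) = 0) → x = 0)
    (htr : ∀ y, l (0, 0, y) = trace (y * Jp κ κ')) : Exact (coextMul μ ρ κ') := by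
  let i1 : H →ₗ[ℂ] (H × Matrix κ κ ℂ × Matrix (κ ⊕ κ') κ ℂ) :=
    { toFun := fun h => (h, Jp κ κ' * ρ h * Jm κ κ', 0)
      map_add' := fun a b => by
        refine Prod.ext rfl (Prod.ext ?_ (add_zero _).symm)
        show Jp κ κ' * ρ (a + b) * Jm κ κ' = _ + _
        rw [map_add, Matrix.mul_add, Matrix.add_mul]
      map_smul' := fun r a => by
        refine Prod.ext rfl (Prod.ext ?_ (smul_zero _).symm)
        show Jp κ κ' * ρ (r • a) * Jm κ κ' = r • _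
        rw [map_smul, Matrix.mul_smul, Matrix.smul_mul] }
  let tr : Matrix κ' (κ ⊕ κ') ℂ →ₗ[ℂ] ℂ :=
    { toFun := fun y => trace (y * Qm κ κ')
      map_add' := fun X Y => by rw [Matrix.add_mul, trace_add]
      map_smul' := fun r X => by rw [Matrix.smul_mul, trace_smul]; rfl }
  refine ⟨(l ∘ₗ i1) ∘ₗ LinearMap.fst ℂ H (Matrix κ' κ' ℂ × Matrix κ' (κ ⊕ κ') ℂ) +
    tr ∘ₗ LinearMap.snd ℂ (Matrix κ' κ' ℂ) (Matrix κ' (κ ⊕ κ') ℂ) ∘ₗ
      LinearMap.snd ℂ H (Matrix κ' κ' ℂ × Matrix κ' (κ ⊕ κ') ℂ), ?_⟩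
  rintro ⟨h, k', y'⟩ hk
  have hform : ∀ X : H × Matrix κ' κ' ℂ × Matrix κ' (κ ⊕ κ') ℂ,
      ((l ∘ₗ i1) ∘ₗ LinearMap.fst ℂ H (Matrix κ' κ' ℂ × Matrix κ' (κ ⊕ κ') ℂ) +
    tr ∘ₗ LinearMap.snd ℂ (Matrix κ' κ' ℂ) (Matrix κ' (κ ⊕ κ') ℂ) ∘ₗ
      LinearMap.snd ℂ H (Matrix κ' κ' ℂ × Matrix κ' (κ ⊕ κ') ℂ)) X =
      l (X.1, Jp κ κ' * ρ X.1 * Jm κ κ', 0) + trace (X.2.2 * Qm κ κ') := fun X => rfl
  simp only [hform] at hk
  -- step 1: the stabiliser
  have s1 : Qm κ κ' * k' = ρ h * Qm κ κ' := by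
    rw [Matrix.ext_iff_trace_mul_left]
    intro y₁
    have := hk (0, 0, y₁)
    have e1 : (coextMul μ ρ κ' (h, k', y') (0, 0, y₁) - coextMul μ ρ κ' (0, 0, y₁) (h, k', y')).1 = 0 := by
      show μ h 0 - μ 0 h = 0
      simp
    have e2 : (coextMul μ ρ κ' (h, k', y') (0, 0, y₁) - coextMul μ ρ κ' (0, 0, y₁) (h, k', y')).2.2 =
        k' * y₁ - y₁ * ρ h := by
      show (k' * y₁ + y' * ρ 0) - (0 * y' + y₁ * ρ h) = k' * y₁ - y₁ * ρ h
      simp
    have e3 : ((0 : H), Jp κ κ' * ρ (0 : H) * Jm κ κ', (0 : Matrix (κ ⊕ κ') κ ℂ)) = 0 := by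
      refine Prod.ext rfl (Prod.ext ?_ rfl)
      show Jp κ κ' * ρ (0 : H) * Jm κ κ' = 0
      simp
    rw [e1, e2, e3, map_zero, zero_add, Matrix.sub_mul, trace_sub, sub_eq_zero] at this
    rw [← Matrix.mul_assoc, trace_mul_comm, ← Matrix.mul_assoc, this, Matrix.mul_assoc]
  have hk'eq : k' = Qp κ κ' * ρ h * Qm κ κ' := by
    rw [Matrix.mul_assoc, ← s1, ← Matrix.mul_assoc, Qp_Qm, Matrix.one_mul]
  set k : Matrix κ κ ℂ := Jp κ κ' * ρ h * Jm κ κ' with hkdef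
  have s2 : Jp κ κ' * ρ h = k * Jp κ κ' := by
    have : Jp κ κ' * ρ h = Jp κ κ' * ρ h * (Jm κ κ' * Jp κ κ' + Qm κ κ' * Qp κ κ') := by
      rw [sum_one, Matrix.mul_one]
    rw [this, Matrix.mul_add, ← Matrix.mul_assoc, ← Matrix.mul_assoc, Matrix.mul_assoc (Jp κ κ') (ρ h) (Qm κ κ'),
      ← s1, ← Matrix.mul_assoc (Jp κ κ'), Jp_Qm, Matrix.zero_mul, Matrix.zero_mul, add_zero]
  -- step 2: the functional F
  let F : (H × Matrix κ κ ℂ) →ₗ[ℂ] ℂ :=
    { toFun := fun X => l (μ h X.1 - μ X.1 h, k * X.2 - X.2 * k, 0)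
      map_add' := fun X Y => by
        rw [← map_add]
        congr 1
        refine Prod.ext ?_ (Prod.ext ?_ (add_zero _).symm)
        · show μ h (X.1 + Y.1) - μ (X.1 + Y.1) h = (μ h X.1 - μ X.1 h) + (μ h Y.1 - μ Y.1 h)
          rw [map_add, map_add, LinearMap.add_apply]; abel
        · show k * (X.2 + Y.2) - (X.2 + Y.2) * k = (k * X.2 - X.2 * k) + (k * Y.2 - Y.2 * k)
          rw [Matrix.mul_add, Matrix.add_mul]; abel
      map_smul' := fun r X => by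
        rw [← map_smul]
        congr 1
        refine Prod.ext ?_ (Prod.ext ?_ (smul_zero _).symm)
        · show μ h (r • X.1) - μ (r • X.1) h = r • (μ h X.1 - μ X.1 h)
          rw [map_smul, map_smul, LinearMap.smul_apply, smul_sub]
        · show k * (r • X.2) - (r • X.2) * k = r • (k * X.2 - X.2 * k)
          rw [Matrix.mul_smul, Matrix.smul_mul, smul_sub] }
  let D : (H × Matrix κ κ ℂ) →ₗ[ℂ] Matrix κ (κ ⊕ κ') ℂ :=
    { toFun := fun X => X.2 * Jp κ κ' - Jp κ κ' * ρ X.1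
      map_add' := fun X Y => by
        show (X.2 + Y.2) * Jp κ κ' - Jp κ κ' * ρ (X.1 + Y.1) = _ + _
        rw [Matrix.add_mul, map_add, Matrix.mul_add]; abel
      map_smul' := fun r X => by
        show (r • X.2) * Jp κ κ' - Jp κ κ' * ρ (r • X.1) = r • _
        rw [Matrix.smul_mul, map_smul, Matrix.mul_smul, smul_sub] }
  have hD : ∀ X, D X = X.2 * Jp κ κ' - Jp κ κ' * ρ X.1 := fun X => rfl
  have hF : ∀ X, F X = l (μ h X.1 - μ X.1 h, k * X.2 - X.2 * k, 0) := fun X => rfl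
  obtain ⟨Y, hY⟩ : ∃ Y : Matrix (κ ⊕ κ') κ ℂ, ∀ X, F X = trace (Y * D X) := by
    have h1 : F ∈ LinearMap.range (LinearMap.dualMap D) := by
      rw [LinearMap.range_dualMap_eq_dualAnnihilator_ker, Submodule.mem_dualAnnihilator]
      rintro ⟨h₁, k₁⟩ hX
      have hX' : k₁ * Jp κ κ' = Jp κ κ' * ρ h₁ := sub_eq_zero.1 hX
      set k₁' : Matrix κ' κ' ℂ := Qp κ κ' * ρ h₁ * Qm κ κ' with hk₁'
      have hk₁ : k₁ = Jp κ κ' * ρ h₁ * Jm κ κ' := by
        rw [← hX', Matrix.mul_assoc, Jp_Jm, Matrix.mul_one]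
      have s3 : ρ h₁ * Qm κ κ' = Qm κ κ' * k₁' := by
        have : ρ h₁ * Qm κ κ' = (Jm κ κ' * Jp κ κ' + Qm κ κ' * Qp κ κ') * (ρ h₁ * Qm κ κ') := by
          rw [sum_one, Matrix.one_mul]
        rw [this, Matrix.add_mul, Matrix.mul_assoc (Jm κ κ'), ← Matrix.mul_assoc (Jp κ κ'), ← hX',
          Matrix.mul_assoc k₁, Jp_Qm, Matrix.mul_zero, Matrix.mul_zero, zero_add, hk₁']
        simp only [Matrix.mul_assoc]
      have := hk (h₁, k₁', 0)
      have e1 : (coextMul μ ρ κ' (h, k', y') (h₁, k₁', 0) - coextMul μ ρ κ' (h₁, k₁', 0) (h, k', y')).1 =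
          μ h h₁ - μ h₁ h := rfl
      have e2 : (coextMul μ ρ κ' (h, k', y') (h₁, k₁', 0) - coextMul μ ρ κ' (h₁, k₁', 0) (h, k', y')).2.2 =
          y' * ρ h₁ - k₁' * y' := by
        show (k' * 0 + y' * ρ h₁) - (k₁' * y' + 0 * ρ h) = _
        simp
      have e3 : trace ((y' * ρ h₁ - k₁' * y') * Qm κ κ') = 0 := by
        rw [Matrix.sub_mul, trace_sub, Matrix.mul_assoc, s3, ← Matrix.mul_assoc, trace_mul_comm,
          ← Matrix.mul_assoc, sub_self]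
      have e4 : Jp κ κ' * ρ (μ h h₁ - μ h₁ h) * Jm κ κ' = k * k₁ - k₁ * k := by
        rw [map_sub, hρ, hρ, Matrix.mul_sub, Matrix.sub_mul, ← Matrix.mul_assoc, ← Matrix.mul_assoc, s2, ← hX',
          Matrix.mul_assoc k, ← hX', ← Matrix.mul_assoc k, Matrix.mul_assoc (k * k₁), Jp_Jm, Matrix.mul_one,
          Matrix.mul_assoc k₁, s2, ← Matrix.mul_assoc, Matrix.mul_assoc (k₁ * k), Jp_Jm, Matrix.mul_one]
      rw [e1, e2, e3, e4, add_zero] at this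
      exact this
    obtain ⟨φ, hφ⟩ := h1
    obtain ⟨P, hP⟩ := exists_trace φ
    refine ⟨P, fun X => ?_⟩
    rw [trace_mul_comm, ← hP, ← hφ]; rfl
  -- step 3: h = 0
  have hX := hl (h, k, -Y) (by
    rintro ⟨h₁, k₁, y₁⟩
    have h7 : extMul μ ρ κ (h, k, -Y) (h₁, k₁, y₁) - extMul μ ρ κ (h₁, k₁, y₁) (h, k, -Y) =
        (μ h h₁ - μ h₁ h, k * k₁ - k₁ * k, 0) + (0, 0, (ρ h * y₁ - y₁ * k) - (Y * k₁ - ρ h₁ * Y)) := by
      refine Prod.ext ?_ (Prod.ext ?_ ?_)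
      · show μ h h₁ - μ h₁ h = μ h h₁ - μ h₁ h + 0
        abel
      · show k * k₁ - k₁ * k = k * k₁ - k₁ * k + 0
        abel
      · show (ρ h * y₁ + (-Y) * k₁) - (ρ h₁ * (-Y) + y₁ * k) = 0 + ((ρ h * y₁ - y₁ * k) - (Y * k₁ - ρ h₁ * Y))
        rw [Matrix.neg_mul, Matrix.mul_neg]
        abel
    have h8 := hY (h₁, k₁)
    rw [hF, hD, Matrix.mul_sub, trace_sub] at h8
    rw [h7, map_add, htr, h8, Matrix.sub_mul, trace_sub, Matrix.sub_mul, trace_sub,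
      Matrix.sub_mul, trace_sub]
    have t1 : trace (ρ h * y₁ * Jp κ κ') = trace (y₁ * k * Jp κ κ') := by
      rw [Matrix.mul_assoc y₁, ← s2, trace_mul_comm, ← Matrix.mul_assoc, trace_mul_comm]
    have t2 : trace (Y * (k₁ * Jp κ κ')) = trace (Y * k₁ * Jp κ κ') := by rw [Matrix.mul_assoc]
    have t3 : trace (Y * (Jp κ κ' * ρ h₁)) = trace (ρ h₁ * Y * Jp κ κ') := by
      rw [trace_mul_comm (ρ h₁ * Y), ← Matrix.mul_assoc, trace_mul_comm, ← Matrix.mul_assoc, trace_mul_comm,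
        ← Matrix.mul_assoc]
    rw [t1, t2, t3]
    ring)
  have h0 : h = 0 := congrArg Prod.fst hX
  have hk0 : k' = 0 := by rw [hk'eq, h0, map_zero, Matrix.mul_zero, Matrix.zero_mul]
  clear hX hY hF hD F D s2
  -- step 4: y' = 0
  have s4 : ∀ (h₁ : H) (k₁' : Matrix κ' κ' ℂ), trace ((y' * ρ h₁ - k₁' * y') * Qm κ κ') = 0 := by
    intro h₁ k₁'
    have := hk (h₁, k₁', 0)
    have e1 : (coextMul μ ρ κ' (h, k', y') (h₁, k₁', 0) - coextMul μ ρ κ' (h₁, k₁', 0) (h, k', y')).1 = 0 := by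
      show μ h h₁ - μ h₁ h = 0
      rw [h0]; simp
    have e2 : (coextMul μ ρ κ' (h, k', y') (h₁, k₁', 0) - coextMul μ ρ κ' (h₁, k₁', 0) (h, k', y')).2.2 =
        y' * ρ h₁ - k₁' * y' := by
      show (k' * 0 + y' * ρ h₁) - (k₁' * y' + 0 * ρ h) = _
      simp
    have e3 : ((0 : H), Jp κ κ' * ρ (0 : H) * Jm κ κ', (0 : Matrix (κ ⊕ κ') κ ℂ)) = 0 := by
      refine Prod.ext rfl (Prod.ext ?_ rfl)
      show Jp κ κ' * ρ (0 : H) * Jm κ κ' = 0
      simp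
    rw [e1, e2, e3, map_zero, zero_add] at this
    exact this
  have s5 : y' * Qm κ κ' = 0 := by
    rw [Matrix.ext_iff_trace_mul_left]
    intro k₁'
    have := s4 0 k₁'
    rw [map_zero, Matrix.mul_zero, zero_sub, Matrix.neg_mul, trace_neg, neg_eq_zero] at this
    rw [Matrix.mul_zero, trace_zero, ← Matrix.mul_assoc]
    exact this
  have s6 : y' = y' * Jm κ κ' * Jp κ κ' := by
    have : y' = y' * (Jm κ κ' * Jp κ κ' + Qm κ κ' * Qp κ κ') := by rw [sum_one, Matrix.mul_one]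
    conv_lhs => rw [this]
    rw [Matrix.mul_add, ← Matrix.mul_assoc, ← Matrix.mul_assoc, s5, Matrix.zero_mul, add_zero]
  have s7 := hl (0, 0, Qm κ κ' * (y' * Jm κ κ')) (by
    rintro ⟨h₁, k₁, y₁⟩
    have e : extMul μ ρ κ (0, 0, Qm κ κ' * (y' * Jm κ κ')) (h₁, k₁, y₁) -
        extMul μ ρ κ (h₁, k₁, y₁) (0, 0, Qm κ κ' * (y' * Jm κ κ')) =
        (0, 0, Qm κ κ' * (y' * Jm κ κ') * k₁ - ρ h₁ * (Qm κ κ' * (y' * Jm κ κ'))) := by
      refine Prod.ext ?_ (Prod.ext ?_ ?_)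
      · show μ 0 h₁ - μ h₁ 0 = 0
        simp
      · show 0 * k₁ - k₁ * 0 = 0
        simp
      · show (ρ 0 * y₁ + Qm κ κ' * (y' * Jm κ κ') * k₁) - (ρ h₁ * (Qm κ κ' * (y' * Jm κ κ')) + y₁ * 0) = _
        simp
    rw [e, htr, Matrix.sub_mul, trace_sub]
    have t1 : trace (Qm κ κ' * (y' * Jm κ κ') * k₁ * Jp κ κ') = 0 := by
      rw [trace_mul_comm, ← Matrix.mul_assoc, ← Matrix.mul_assoc, Jp_Qm, Matrix.zero_mul, Matrix.zero_mul,
        trace_zero]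
    have t2 : trace (ρ h₁ * (Qm κ κ' * (y' * Jm κ κ')) * Jp κ κ') = 0 := by
      have : ρ h₁ * (Qm κ κ' * (y' * Jm κ κ')) * Jp κ κ' = ρ h₁ * Qm κ κ' * y' := by
        conv_rhs => rw [s6]
        simp only [Matrix.mul_assoc]
      rw [this]
      have := s4 h₁ 0
      rw [Matrix.zero_mul, sub_zero] at this
      rw [trace_mul_comm, ← Matrix.mul_assoc]
      exact this
    rw [t1, t2, sub_zero])
  have s8 : Qm κ κ' * (y' * Jm κ κ') = 0 := congrArg (fun p => p.2.2) s7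
  have s9 : y' * Jm κ κ' = 0 := by
    have := congrArg (fun A => Qp κ κ' * A) s8
    simp only [← Matrix.mul_assoc, Qp_Qm, Matrix.one_mul, Matrix.mul_zero] at this
    exact this
  have s10 : y' = 0 := by rw [s6, s9, Matrix.zero_mul]
  rw [h0, hk0, s10]; rfl

/-- castling, one direction, for the index set `κ ⊕ κ'` -/
theorem castle_fwd_aux (μ : H →ₗ[ℂ] H →ₗ[ℂ] H) (ρ : H →ₗ[ℂ] Matrix (κ ⊕ κ') (κ ⊕ κ') ℂ)
    (hρ : ∀ a b, ρ (μ a b) = ρ a * ρ b) (h : Exact (extMul μ ρ κ)) : Exact (coextMul μ ρ κ') := by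
  obtain ⟨l, hl⟩ := h
  obtain ⟨P, hP⟩ := exists_trace_of_exact μ ρ l
  have hsurj : ∀ w, w ᵥ* P = 0 → w = 0 := by
    rcases inj_or P (pair_prop μ ρ l hl P hP) with h | h
    · intro w hw
      apply inj_of_inj' Pᵀ (by simp) (fun v hv => h v (by rwa [vecMul_transpose] at hv)) w
      rwa [mulVec_transpose]
    · exact h
  obtain ⟨G, G', hGG', hG'G, hG'P⟩ := exists_conj Pᵀ (fun v hv => hsurj v (by rwa [mulVec_transpose] at hv))
  -- g = G'ᵀ, g' = Gᵀ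
  have hJt : (Jm κ κ')ᵀ = Jp κ κ' := by
    ext i j
    cases j <;> simp [Jm, Jp, eq_comm]
  have hPg : P * G'ᵀ = Jp κ κ' := by
    rw [← hJt, ← hG'P, transpose_mul, transpose_transpose]
  have hgg' : G'ᵀ * Gᵀ = 1 := by rw [← transpose_mul, hGG', transpose_one]
  have hg'g : Gᵀ * G'ᵀ = 1 := by rw [← transpose_mul, hG'G, transpose_one]
  obtain ⟨g, hg⟩ : ∃ g, g = G'ᵀ := ⟨_, rfl⟩
  obtain ⟨g', hg'⟩ : ∃ g', g' = Gᵀ := ⟨_, rfl⟩
  rw [← hg] at hPg hgg' hg'g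
  rw [← hg'] at hgg' hg'g
  let ρ₁ : H →ₗ[ℂ] Matrix (κ ⊕ κ') (κ ⊕ κ') ℂ :=
    { toFun := fun h => g' * ρ h * g
      map_add' := fun a b => by rw [map_add, Matrix.mul_add, Matrix.add_mul]
      map_smul' := fun r a => by rw [map_smul, Matrix.mul_smul, Matrix.smul_mul]; rfl }
  have hρ₁ : ∀ a b, ρ₁ (μ a b) = ρ₁ a * ρ₁ b := by
    intro a b
    show g' * ρ (μ a b) * g = (g' * ρ a * g) * (g' * ρ b * g)
    have : (g' * ρ a * g) * (g' * ρ b * g) = g' * ρ a * (g * g') * ρ b * g := by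
      simp only [Matrix.mul_assoc]
    rw [this, hgg', Matrix.mul_one, hρ]
    simp only [Matrix.mul_assoc]
  let θ : (H × Matrix κ κ ℂ × Matrix (κ ⊕ κ') κ ℂ) →ₗ[ℂ] (H × Matrix κ κ ℂ × Matrix (κ ⊕ κ') κ ℂ) :=
    { toFun := fun X => (X.1, X.2.1, g * X.2.2)
      map_add' := fun X Y => by
        refine Prod.ext rfl (Prod.ext rfl ?_)
        show g * (X.2.2 + Y.2.2) = _ + _
        rw [Matrix.mul_add]
      map_smul' := fun r X => by
        refine Prod.ext rfl (Prod.ext rfl ?_)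
        show g * (r • X.2.2) = r • _
        rw [Matrix.mul_smul] }
  have hθ : ∀ X Y, θ (extMul μ ρ₁ κ X Y) = extMul μ ρ κ (θ X) (θ Y) := by
    intro X Y
    refine Prod.ext rfl (Prod.ext rfl ?_)
    show g * (g' * ρ X.1 * g * Y.2.2 + X.2.2 * Y.2.1) = ρ X.1 * (g * Y.2.2) + g * X.2.2 * Y.2.1
    have : g * (g' * ρ X.1 * g * Y.2.2) = (g * g') * ρ X.1 * (g * Y.2.2) := by
      simp only [Matrix.mul_assoc]
    rw [Matrix.mul_add, this, hgg', Matrix.one_mul, Matrix.mul_assoc g]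
  have hinv : ∀ X, θ (X.1, X.2.1, g' * X.2.2) = X := by
    intro X
    refine Prod.ext rfl (Prod.ext rfl ?_)
    show g * (g' * X.2.2) = X.2.2
    rw [← Matrix.mul_assoc, hgg', Matrix.one_mul]
  have hstd : Exact (coextMul μ ρ₁ κ') := by
    apply castle_std μ ρ₁ hρ₁ (l ∘ₗ θ)
    · intro x hx
      have h0 : θ x = 0 := by
        apply hl
        intro y
        have := hx (y.1, y.2.1, g' * y.2.2)
        rw [LinearMap.comp_apply, map_sub, hθ, hθ, hinv] at this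
        exact this
      have h1 : x.1 = 0 := congrArg Prod.fst h0
      have h2 : x.2.1 = 0 := congrArg (fun p => p.2.1) h0
      have h3 : g * x.2.2 = 0 := congrArg (fun p => p.2.2) h0
      refine Prod.ext h1 (Prod.ext h2 ?_)
      have : x.2.2 = g' * (g * x.2.2) := by rw [← Matrix.mul_assoc, hg'g, Matrix.one_mul]
      rw [this, h3, Matrix.mul_zero]; rfl
    · intro y
      have e : θ (0, 0, y) = (0, 0, g * y) := rfl
      rw [LinearMap.comp_apply, e, hP, trace_mul_comm, ← Matrix.mul_assoc, hPg, trace_mul_comm]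
  -- transport back
  let Φ : (H × Matrix κ' κ' ℂ × Matrix κ' (κ ⊕ κ') ℂ) ≃ₗ[ℂ] (H × Matrix κ' κ' ℂ × Matrix κ' (κ ⊕ κ') ℂ) :=
    { toFun := fun X => (X.1, X.2.1, X.2.2 * g)
      map_add' := fun X Y => by
        refine Prod.ext rfl (Prod.ext rfl ?_)
        show (X.2.2 + Y.2.2) * g = _ + _
        rw [Matrix.add_mul]
      map_smul' := fun r X => by
        refine Prod.ext rfl (Prod.ext rfl ?_)
        show (r • X.2.2) * g = r • _
        rw [Matrix.smul_mul]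
      invFun := fun X => (X.1, X.2.1, X.2.2 * g')
      left_inv := fun X => by
        refine Prod.ext rfl (Prod.ext rfl ?_)
        show X.2.2 * g * g' = X.2.2
        rw [Matrix.mul_assoc, hgg', Matrix.mul_one]
      right_inv := fun X => by
        refine Prod.ext rfl (Prod.ext rfl ?_)
        show X.2.2 * g' * g = X.2.2
        rw [Matrix.mul_assoc, hg'g, Matrix.mul_one] }
  refine exact_transfer Φ ?_ hstd
  intro X Y
  refine Prod.ext rfl (Prod.ext rfl ?_)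
  show (X.2.1 * Y.2.2 + X.2.2 * ρ Y.1) * g = X.2.1 * (Y.2.2 * g) + X.2.2 * g * (g' * ρ Y.1 * g)
  have : X.2.2 * g * (g' * ρ Y.1 * g) = X.2.2 * (g * g') * ρ Y.1 * g := by simp only [Matrix.mul_assoc]
  rw [this, hgg', Matrix.mul_one, Matrix.add_mul, Matrix.mul_assoc]

/-- reindexing of the module -/
def rI (e : ι ≃ κ) (ρ : H →ₗ[ℂ] Matrix ι ι ℂ) : H →ₗ[ℂ] Matrix κ κ ℂ :=
  { toFun := fun h => (ρ h).submatrix e.symm e.symm
    map_add' := fun a b => by rw [map_add]; rfl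
    map_smul' := fun r a => by rw [map_smul]; rfl }

theorem castle_fwd (μ : H →ₗ[ℂ] H →ₗ[ℂ] H) (ρ : H →ₗ[ℂ] Matrix ι ι ℂ)
    (hρ : ∀ a b, ρ (μ a b) = ρ a * ρ b) (hc : Fintype.card κ + Fintype.card κ' = Fintype.card ι)
    (h : Exact (extMul μ ρ κ)) : Exact (coextMul μ ρ κ') := by
  have e : ι ≃ κ ⊕ κ' := Fintype.equivOfCardEq (by simpa using hc.symm)
  have hρ' : ∀ a b, rI e ρ (μ a b) = rI e ρ a * rI e ρ b := by
    intro a b
    show (ρ (μ a b)).submatrix e.symm e.symm = (ρ a).submatrix e.symm e.symm * (ρ b).submatrix e.symm e.symm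
    rw [hρ, Matrix.submatrix_mul_equiv]
  have h1 : Exact (extMul μ (rI e ρ) κ) := by
    refine exact_transfer ((LinearEquiv.refl ℂ H).prodCongr ((LinearEquiv.refl ℂ (Matrix κ κ ℂ)).prodCongr
      (Matrix.reindexLinearEquiv ℂ ℂ e.symm (Equiv.refl κ)))) ?_ h
    intro X Y
    refine Prod.ext rfl (Prod.ext rfl ?_)
    show ((ρ X.1).submatrix e.symm e.symm * Y.2.2 + X.2.2 * Y.2.1).submatrix e.symm.symm (Equiv.refl κ).symm =
      ρ X.1 * Y.2.2.submatrix e.symm.symm (Equiv.refl κ).symm +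
        X.2.2.submatrix e.symm.symm (Equiv.refl κ).symm * Y.2.1
    ext i j
    simp only [Matrix.submatrix_apply, Matrix.add_apply, Matrix.mul_apply, Equiv.symm_symm, Equiv.refl_symm,
      Equiv.refl_apply, Equiv.symm_apply_apply]
    congr 1
    rw [← e.sum_comp]
    simp
  have h2 := castle_fwd_aux μ (rI e ρ) hρ' h1
  refine exact_transfer ((LinearEquiv.refl ℂ H).prodCongr ((LinearEquiv.refl ℂ (Matrix κ' κ' ℂ)).prodCongr
      (Matrix.reindexLinearEquiv ℂ ℂ (Equiv.refl κ') e))) ?_ h2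
  intro X Y
  refine Prod.ext rfl (Prod.ext rfl ?_)
  show (X.2.1 * Y.2.2 + X.2.2 * ρ Y.1).submatrix (Equiv.refl κ').symm e.symm =
    X.2.1 * Y.2.2.submatrix (Equiv.refl κ').symm e.symm +
      X.2.2.submatrix (Equiv.refl κ').symm e.symm * (ρ Y.1).submatrix e.symm e.symm
  rw [Matrix.submatrix_mul_equiv, Matrix.submatrix_add]
  rfl

/-- **Castling.** -/
theorem castling (μ : H →ₗ[ℂ] H →ₗ[ℂ] H) (ρ : H →ₗ[ℂ] Matrix ι ι ℂ)
    (hρ : ∀ a b, ρ (μ a b) = ρ a * ρ b) (hc : Fintype.card κ + Fintype.card κ' = Fintype.card ι) :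
    Exact (extMul μ ρ κ) ↔ Exact (coextMul μ ρ κ') := by
  refine ⟨castle_fwd μ ρ hρ hc, fun h => ?_⟩
  rw [coext_iff] at h
  have h1 := castle_fwd (κ := κ') (κ' := κ) μ.flip (rT ρ) (rT_mul μ ρ hρ) (by omega) h
  rw [coext_iff] at h1
  have e1 : rT (rT ρ) = ρ := by
    ext h : 1
    exact transpose_transpose _
  have e2 : μ.flip.flip = μ := rfl
  rw [e1, e2] at h1
  exact h1

end Pool.Agent.H215.SM
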