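import Pool.Agent.H215.SM.C

set_option autoImplicit false
set_option linter.unusedSectionVars false

namespace Pool.Agent.H215.SM

open Matrix Pool.Agent.Helper829.AF

variable {V : Type}
variable [Fintype V] [DecidableEq V] {d : V → ℕ} {M : Type} [AddCommGroup M] [Module ℂ M]

/-- projection to `S` -/
def prS (d : V → ℕ) (z : V) : T d →ₗ[ℂ] S d z where
  toFun t := ⟨Function.update t z 0, Function.update_self _ _ _⟩
  map_add' := by
    intro a b
    apply Subtype.ext
    funext v
    show Function.update (a + b) z 0 v = Function.update a z 0 v + Function.update b z 0 v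
    by_cases h : v = z
    · subst h; simp
    · simp [Function.update_of_ne h]
  map_smul' := by
    intro r a
    apply Subtype.ext
    funext v
    show Function.update (r • a) z 0 v = r • Function.update a z 0 v
    by_cases h : v = z
    · subst h; simp
    · simp [Function.update_of_ne h]

lemma prS_mul (z : V) (s t : T d) : ((prS d z (s * t) : S d z) : T d) = (prS d z s : T d) * (prS d z t : T d) := by
  funext v
  show Function.update (s * t) z 0 v = Function.update s z 0 v * Function.update t z 0 v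
  by_cases h : v = z
  · subst h; simp
  · simp [Function.update_of_ne h]

lemma prS_mul_left (z : V) (s t : T d) : ((prS d z (s * t) : S d z) : T d) = (prS d z s : T d) * t := by
  funext v
  show Function.update (s * t) z 0 v = Function.update s z 0 v * t v
  by_cases h : v = z
  · subst h; simp
  · simp [Function.update_of_ne h]

lemma prS_of_mem {z : V} {s : T d} (hs : s ∈ S d z) : ((prS d z s : S d z) : T d) = s := by
  funext v
  show Function.update s z 0 v = s v
  by_cases h : v = z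
  · subst h
    rw [Function.update_self]; exact (show s v = 0 from hs).symm
  · simp [Function.update_of_ne h]

/-- the structure of closed forms -/
theorem data_of_af (B : UB d M) (z : V) (hz : d z = 0) (h : AntiFrobenius (B.mul z)) :
    ∃ (lS : T d →ₗ[ℂ] ℂ) (lM : M →ₗ[ℂ] ℂ) (β : M →ₗ[ℂ] M →ₗ[ℂ] ℂ), Data B z lS lM β := by
  obtain ⟨ω, hnd, hanti, hcyc⟩ := h
  -- components
  let α : T d →ₗ[ℂ] T d →ₗ[ℂ] ℂ := (ω.compl₁₂ (LinearMap.inl ℂ _ _ ∘ₗ prS d z) (LinearMap.inl ℂ _ _ ∘ₗ prS d z))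
  let γ : T d →ₗ[ℂ] M →ₗ[ℂ] ℂ := (ω.compl₁₂ (LinearMap.inl ℂ _ _ ∘ₗ prS d z) (LinearMap.inr ℂ _ _))
  let β : M →ₗ[ℂ] M →ₗ[ℂ] ℂ := (ω.compl₁₂ (LinearMap.inr ℂ _ _) (LinearMap.inr ℂ _ _))
  have hα : ∀ s t, α s t = ω (prS d z s, 0) (prS d z t, 0) := fun s t => rfl
  have hγ : ∀ s x, γ s x = ω (prS d z s, 0) (0, x) := fun s t => rfl
  have hβ : ∀ x y, β x y = ω (0, x) (0, y) := fun s t => rfl
  set e : T d := (prS d z 1 : T d) with he
  have hes : ∀ s ∈ S d z, e * s = s := by
    intro s hs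
    rw [he, ← prS_mul_left, one_mul, prS_of_mem hs]
  have hme : ∀ s : T d, (prS d z s : T d) = e * s := by
    intro s
    rw [he, ← prS_mul_left, one_mul]
  have hαanti : ∀ s t, α s t = - α t s := fun s t => hanti _ _
  have hαcyc : ∀ s t u, α s (t * u) + α t (u * s) + α u (s * t) = 0 := by
    intro s t u
    have := hcyc (prS d z s, 0) (prS d z t, 0) (prS d z u, 0)
    have e1 : ∀ a b : T d, B.mul z (prS d z a, 0) (prS d z b, 0) = (prS d z (a * b), 0) := by
      intro a b
      refine Prod.ext (Subtype.ext (prS_mul z a b).symm) ?_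
      simp [UB.mul]
    rw [e1, e1, e1] at this
    exact this
  have hγcyc : ∀ s t x, γ s (B.L (e * t) x) + γ t (B.R (e * s) x) = γ (s * t) x := by
    intro s t x
    have := hcyc (prS d z s, 0) (prS d z t, 0) (0, x)
    have e1 : B.mul z (prS d z t, 0) (0, x) = (0, B.L (e * t) x) := by
      refine Prod.ext (Subtype.ext ?_) ?_
      · simp [UB.mul]
      · simp [UB.mul, hme]
    have e2 : B.mul z (0, x) (prS d z s, 0) = (0, B.R (e * s) x) := by
      refine Prod.ext (Subtype.ext ?_) ?_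
      · simp [UB.mul]
      · simp [UB.mul, hme]
    have e3 : B.mul z (prS d z s, 0) (prS d z t, 0) = (prS d z (s * t), 0) := by
      refine Prod.ext (Subtype.ext (prS_mul z s t).symm) ?_
      simp [UB.mul]
    rw [e1, e2, e3, hanti (0, x)] at this
    rw [hγ, hγ, hγ]
    linear_combination this
  have hβanti : ∀ x y, β x y = - β y x := fun x y => hanti _ _
  have hβbal : ∀ t ∈ S d z, ∀ x y, β (B.L t x) y = β x (B.R t y) := by
    intro t ht x y
    have := hcyc (0, x) (0, y) (⟨t, ht⟩, 0)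
    have e1 : B.mul z (0, y) (⟨t, ht⟩, 0) = (0, B.R t y) := by
      refine Prod.ext (Subtype.ext ?_) ?_ <;> simp [UB.mul]
    have e2 : B.mul z (⟨t, ht⟩, 0) (0, x) = (0, B.L t x) := by
      refine Prod.ext (Subtype.ext ?_) ?_ <;> simp [UB.mul]
    have e3 : B.mul z ((0 : S d z), x) (0, y) = 0 := by
      refine Prod.ext (Subtype.ext ?_) ?_ <;> simp [UB.mul]
    rw [e1, e2, e3, map_zero, add_zero, hanti (0, y)] at this
    rw [hβ, hβ]
    linear_combination -this
  -- every `t` is a scalar plus an element of `S`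
  have hdec : ∀ t : T d, ∃ (c : ℂ) (t' : T d), t' ∈ S d z ∧ t = c • 1 + t' := by
    intro t
    refine ⟨t z 0 0, t - (t z 0 0) • 1, ?_, by abel⟩
    show (t - (t z 0 0) • (1 : T d)) z = 0
    have hs : ∀ i : Fin (d z + 1), i = 0 := by
      intro i
      apply Fin.ext
      have := i.2
      have h0 : ((0 : Fin (d z + 1)) : ℕ) = 0 := rfl
      omega
    ext i j
    rw [hs i, hs j]
    show t z 0 0 - (t z 0 0) * (1 : Matrix _ _ ℂ) 0 0 = 0
    simp
  have hβbal' : ∀ t : T d, ∀ x y, β (B.L t x) y = β x (B.R t y) := by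
    intro t x y
    obtain ⟨c, t', ht', rfl⟩ := hdec t
    simp only [map_add, map_smul, LinearMap.add_apply, LinearMap.smul_apply, B.L_one, B.R_one]
    rw [hβbal t' ht']
  -- the linear form on S
  let lS : T d →ₗ[ℂ] ℂ := ∑ v, ∑ c, (α (E v c 0)) ∘ₗ (LinearMap.mulLeft ℂ (E v 0 c : T d))
  have hlS : ∀ t, lS t = ∑ v, ∑ c, α (E v c 0) (E v 0 c * t) := by
    intro t
    simp only [lS, LinearMap.sum_apply]
    rfl
  have hEE : ∀ t : T d, ∑ v, ∑ c, t * E v c 0 * E v 0 c = t := by
    intro t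
    have : ∑ v, ∑ c, t * E v c 0 * E v 0 c = t * ∑ v, ∑ c, (E v c c : T d) := by
      simp only [Finset.mul_sum]
      refine Finset.sum_congr rfl fun v _ => Finset.sum_congr rfl fun c _ => ?_
      rw [mul_assoc, E_mul_same, if_pos rfl]
    rw [this, sum_E, mul_one]
  have hαlS : ∀ s t, α s t = lS (s * t - t * s) := by
    intro s t
    have h1 : ∑ v, ∑ c, (α s (t * E v c 0 * E v 0 c) + α (t * E v c 0) (E v 0 c * s) +
        α (E v 0 c) (s * (t * E v c 0))) = 0 :=
      Finset.sum_eq_zero fun v _ => Finset.sum_eq_zero fun c _ => hαcyc _ _ _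
    simp only [Finset.sum_add_distrib] at h1
    have h2 : ∑ v, ∑ c, α s (t * E v c 0 * E v 0 c) = α s t := by
      conv_rhs => rw [← hEE t]
      simp only [map_sum]
    have h3 : ∑ v, ∑ c, α (t * E v c 0) (E v 0 c * s) = ∑ v, ∑ c, α (E v c 0) (E v 0 c * t * s) :=
      sep (α.compl₂ (LinearMap.mulRight ℂ s)) t
    have h4 : ∑ v, ∑ c, α (E v 0 c) (s * (t * E v c 0)) = - ∑ v, ∑ c, α (E v c 0) (E v 0 c * (s * t)) := by
      rw [← sep α (s * t), ← Finset.sum_neg_distrib]
      refine Finset.sum_congr rfl fun v _ => ?_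
      rw [← Finset.sum_neg_distrib]
      refine Finset.sum_congr rfl fun c _ => ?_
      rw [hαanti, mul_assoc]
    rw [h2, h3, h4] at h1
    rw [map_sub, hlS, hlS]
    simp only [mul_assoc] at h1 ⊢
    linear_combination h1
  -- the linear form on M
  let Λ : M →ₗ[ℂ] ℂ := ∑ v, ∑ c, (γ (E v c 0)) ∘ₗ (B.L (E v 0 c : T d))
  have hΛ : ∀ x, Λ x = ∑ v, ∑ c, γ (E v c 0) (B.L (E v 0 c) x) := by
    intro t
    simp only [Λ, LinearMap.sum_apply]
    rfl
  let lM : M →ₗ[ℂ] ℂ := Λ - (γ 1) ∘ₗ (LinearMap.id - B.L e)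
  have hlM : ∀ x, lM x = Λ x - γ 1 (x - B.L e x) := fun x => rfl
  have hee : e * e = e := by rw [← hme, he, prS_of_mem (prS d z 1).2]
  have hγlM : ∀ s ∈ S d z, ∀ x, γ s x = lM (B.L s x - B.R s x) := by
    intro s hs x
    have h1 : γ s (x - B.L e x) = γ 1 (B.R s (x - B.L e x)) := by
      have := hγcyc s 1 (x - B.L e x)
      rw [mul_one, mul_one, hes s hs] at this
      rw [← this, map_sub (B.L e), ← B.L_mul, hee, sub_self, map_zero, zero_add]
    have h2 : γ s (B.L e x) = Λ (B.L s x - B.R s x) := by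
      have h3 : ∑ v, ∑ c, (γ s (B.L (e * E v c 0) (B.L (E v 0 c) x)) +
          γ (E v c 0) (B.R (e * s) (B.L (E v 0 c) x))) = ∑ v, ∑ c, γ (s * E v c 0) (B.L (E v 0 c) x) :=
        Finset.sum_congr rfl fun v _ => Finset.sum_congr rfl fun c _ => hγcyc _ _ _
      simp only [Finset.sum_add_distrib] at h3
      have h4 : ∑ v, ∑ c, γ s (B.L (e * E v c 0) (B.L (E v 0 c) x)) = γ s (B.L e x) := by
        conv_rhs => rw [← hEE e]
        simp only [map_sum, LinearMap.sum_apply]
        refine Finset.sum_congr rfl fun v _ => Finset.sum_congr rfl fun c _ => ?_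
        rw [← B.L_mul]
      have h5 : ∑ v, ∑ c, γ (s * E v c 0) (B.L (E v 0 c) x) =
          ∑ v, ∑ c, γ (E v c 0) (B.L (E v 0 c * s) x) :=
        sep (γ.compl₂ (B.L.flip x)) s
      rw [h4, h5, hes s hs] at h3
      rw [map_sub, hΛ, hΛ]
      simp only [B.L_mul, ← B.comm] at h3 ⊢
      simp only [B.comm] at h3 ⊢
      linear_combination h3
    have h6 : γ s x = γ s (B.L e x) + γ s (x - B.L e x) := by rw [← map_add]; congr 1; abel
    rw [h6, h1, h2, hlM]
    have h7 : B.L s x - B.R s x - B.L e (B.L s x - B.R s x) = - B.R s (x - B.L e x) := by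
      rw [map_sub, map_sub, ← B.L_mul, hes s hs, B.comm]
      abel
    rw [h7, map_neg, sub_neg_eq_add]
  refine ⟨lS, lM, β, hβanti, hβbal', ?_⟩
  intro s hs x h1 h2
  have := hnd (⟨s, hs⟩, x) (by
    rintro ⟨t, y⟩
    have e1 : ((⟨s, hs⟩, x) : S d z × M) = (⟨s, hs⟩, 0) + (0, x) := by simp
    have e2 : ((t, y) : S d z × M) = (t, 0) + (0, y) := by simp
    have ps : prS d z s = ⟨s, hs⟩ := Subtype.ext (prS_of_mem hs)
    have pt : prS d z t.1 = t := Subtype.ext (prS_of_mem t.2)
    rw [e1, e2, map_add, map_add, LinearMap.add_apply, LinearMap.add_apply]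
    have f1 : ω (⟨s, hs⟩, 0) (t, 0) = lS (s * t.1 - t.1 * s) := by
      rw [← hαlS, hα, ps, pt]
    have f2 : ω (⟨s, hs⟩, 0) (0, y) = lM (B.L s y - B.R s y) := by
      rw [← hγlM s hs, hγ, ps]
    have f3 : ω (0, x) (t, 0) = - lM (B.L t.1 x - B.R t.1 x) := by
      rw [hanti, ← hγlM t.1 t.2, hγ, pt]
    have f4 : ω (0, x) (0, y) = β x y := rfl
    rw [f1, f2, f3, f4]
    linear_combination h1 t.1 t.2 + h2 y)
  exact ⟨congrArg (fun p : S d z × M => (p.1 : T d)) this, congrArg Prod.snd this⟩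

end Pool.Agent.H215.SM
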