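import Pool.Agent.H215.SM.D

set_option autoImplicit false
set_option linter.unusedSectionVars false

namespace Pool.Agent.H215.SM

open Matrix Pool.Agent.Helper829.AF

variable {V : Type}
variable [Fintype V] [DecidableEq V] {d : V → ℕ} {M : Type} [AddCommGroup M] [Module ℂ M]

/-- sub-bimodule -/
def UB.sub (B : UB d M) (M' : Submodule ℂ M) (hL : ∀ t, ∀ x ∈ M', B.L t x ∈ M')
    (hR : ∀ t, ∀ x ∈ M', B.R t x ∈ M') : UB d M' where
  L := LinearMap.mk₂ ℂ (fun t x => ⟨B.L t x, hL t x x.2⟩)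
    (by intro a b c; apply Subtype.ext; simp) (by intro a b c; apply Subtype.ext; simp)
    (by intro a b c; apply Subtype.ext; simp) (by intro a b c; apply Subtype.ext; simp)
  R := LinearMap.mk₂ ℂ (fun t x => ⟨B.R t x, hR t x x.2⟩)
    (by intro a b c; apply Subtype.ext; simp) (by intro a b c; apply Subtype.ext; simp)
    (by intro a b c; apply Subtype.ext; simp) (by intro a b c; apply Subtype.ext; simp)
  L_mul := by intro s t x; apply Subtype.ext; exact B.L_mul s t x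
  R_mul := by intro s t x; apply Subtype.ext; exact B.R_mul s t x
  comm := by intro s t x; apply Subtype.ext; exact B.comm s t x
  L_one := by intro x; apply Subtype.ext; exact B.L_one x
  R_one := by intro x; apply Subtype.ext; exact B.R_one x

lemma UB.sub_L (B : UB d M) (M' : Submodule ℂ M) (hL : ∀ t, ∀ x ∈ M', B.L t x ∈ M')
    (hR : ∀ t, ∀ x ∈ M', B.R t x ∈ M') (t : T d) (x : M') :
    (((B.sub M' hL hR).L t x : M') : M) = B.L t x := rfl

lemma UB.sub_R (B : UB d M) (M' : Submodule ℂ M) (hL : ∀ t, ∀ x ∈ M', B.L t x ∈ M')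
    (hR : ∀ t, ∀ x ∈ M', B.R t x ∈ M') (t : T d) (x : M') :
    (((B.sub M' hL hR).R t x : M') : M) = B.R t x := rfl

lemma UB.X_P_gen (B : UB d M) (v w : V) (c c' : Fin (d v + 1)) (e e' : Fin (d w + 1)) (x : M) :
    B.X v w c e (B.P v w c' e' x) = if c = c' then (if e' = e then B.X v w 0 0 x else 0) else 0 := by
  show B.L (E v 0 c) (B.R (E w e 0) (B.L (E v c' 0) (B.R (E w 0 e') x))) = _
  rw [← B.comm, ← B.L_mul, ← B.R_mul, E_mul_same, E_mul_same]
  split_ifs with h1 h2 h2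
  · rfl
  · rw [show B.R (0 : T d) = 0 from map_zero _]; simp
  · rw [show B.L (0 : T d) = 0 from map_zero _]; rfl
  · rw [show B.L (0 : T d) = 0 from map_zero _]; rfl

/-- a bimodule projection on a sub-bimodule -/
lemma exists_proj (B : UB d M) (M' : Submodule ℂ M) (hL : ∀ t, ∀ x ∈ M', B.L t x ∈ M')
    (hR : ∀ t, ∀ x ∈ M', B.R t x ∈ M') : ∃ π : M →ₗ[ℂ] M, (∀ x, π x ∈ M') ∧ (∀ x ∈ M', π x = x) ∧
    (∀ t x, π (B.L t x) = B.L t (π x)) ∧ (∀ t x, π (B.R t x) = B.R t (π x)) := by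
  obtain ⟨g, hg⟩ := LinearMap.exists_leftInverse_of_injective M'.subtype
    (LinearMap.ker_eq_bot.2 Subtype.val_injective)
  have hg' : ∀ x ∈ M', ((g x : M') : M) = x := fun x hx =>
    congrArg Subtype.val (LinearMap.congr_fun hg ⟨x, hx⟩)
  let π₀ : M →ₗ[ℂ] M := M'.subtype ∘ₗ g
  have hπ₀ : ∀ x, π₀ x ∈ M' := fun x => (g x).2
  let π : M →ₗ[ℂ] M := ∑ v, ∑ w, ∑ c, ∑ e, B.P v w c e ∘ₗ π₀ ∘ₗ B.X v w c e
  have hπ : ∀ x, π x = ∑ v, ∑ w, ∑ c, ∑ e, B.P v w c e (π₀ (B.X v w c e x)) := by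
    intro x
    simp only [π, LinearMap.sum_apply]
    rfl
  have Xπ : ∀ v w c e x, B.X v w c e (π x) = B.X v w 0 0 (π₀ (B.X v w c e x)) := by
    intro v w c e x
    rw [hπ]
    simp only [map_sum]
    rw [Finset.sum_eq_single v, Finset.sum_eq_single w, Finset.sum_eq_single c,
      Finset.sum_eq_single e]
    · rw [B.X_P_gen, if_pos rfl, if_pos rfl]
    · intro e' _ he
      rw [B.X_P_gen, if_pos rfl, if_neg he]
    · intro h; exact absurd (Finset.mem_univ _) h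
    · intro c' _ hc
      apply Finset.sum_eq_zero
      intro e' _
      rw [B.X_P_gen, if_neg (Ne.symm hc)]
    · intro h; exact absurd (Finset.mem_univ _) h
    · intro w' _ hw
      exact Finset.sum_eq_zero fun c' _ => Finset.sum_eq_zero fun e' _ =>
        B.X_P_ne (Or.inr hw) _ _ _ _ _
    · intro h; exact absurd (Finset.mem_univ _) h
    · intro v' _ hv
      exact Finset.sum_eq_zero fun w' _ => Finset.sum_eq_zero fun c' _ =>
        Finset.sum_eq_zero fun e' _ => B.X_P_ne (Or.inl (Ne.symm hv)) _ _ _ _ _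
    · intro h; exact absurd (Finset.mem_univ _) h
  refine ⟨π, ?_, ?_, ?_, ?_⟩
  · intro x
    rw [hπ]
    exact Submodule.sum_mem _ fun v _ => Submodule.sum_mem _ fun w _ => Submodule.sum_mem _ fun c _ =>
      Submodule.sum_mem _ fun e _ => hL _ _ (hR _ _ (hπ₀ _))
  · intro x hx
    rw [hπ]
    conv_rhs => rw [← B.sum_PX x]
    refine Finset.sum_congr rfl fun v _ => Finset.sum_congr rfl fun w _ =>
          Finset.sum_congr rfl fun c _ => Finset.sum_congr rfl fun e _ => ?_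
    congr 1
    exact hg' _ (hL _ _ (hR _ _ hx))
  · intro t x
    apply B.X_inj
    intro v w c e
    rw [Xπ, B.X_L, B.X_L]
    simp only [map_sum, map_smul, Xπ]
  · intro t x
    apply B.X_inj
    intro v w c e
    rw [Xπ, B.X_R, B.X_R]
    simp only [map_sum, map_smul, Xπ]

/-- the kernel of `β` is a sub-bimodule -/
lemma ker_L {B : UB d M} {β : M →ₗ[ℂ] M →ₗ[ℂ] ℂ} (h2 : ∀ t x y, β (B.L t x) y = β x (B.R t y)) :
    ∀ t, ∀ x ∈ LinearMap.ker β, B.L t x ∈ LinearMap.ker β := by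
  intro t x hx
  rw [LinearMap.mem_ker] at hx ⊢
  ext y
  rw [h2, hx]; rfl

lemma ker_R {B : UB d M} {β : M →ₗ[ℂ] M →ₗ[ℂ] ℂ} (h1 : ∀ t x y, β (B.R t x) y = β x (B.L t y)) :
    ∀ t, ∀ x ∈ LinearMap.ker β, B.R t x ∈ LinearMap.ker β := by
  intro t x hx
  rw [LinearMap.mem_ker] at hx ⊢
  ext y
  rw [h1, hx]; rfl

/-- A form with radical part `K = ker β` gives an exact form on `S ⊕ K`. -/
theorem reduce [FiniteDimensional ℂ M] {B : UB d M} {z : V} {lS : T d →ₗ[ℂ] ℂ} {lM : M →ₗ[ℂ] ℂ}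
    {β : M →ₗ[ℂ] M →ₗ[ℂ] ℂ} (h : Data B z lS lM β) :
    Exact ((B.sub (LinearMap.ker β) (ker_L h.2.1) (ker_R h.bal')).mul z) := by
  obtain ⟨π, hπ1, hπ2, hπL, hπR⟩ := exists_proj B (LinearMap.ker β) (ker_L h.2.1) (ker_R h.bal')
  -- the element m₀
  obtain ⟨m₀, hm₀⟩ : ∃ m₀, ∀ y, lM (y - π y) = β m₀ y := by
    have h1 : lM ∘ₗ (LinearMap.id - π) ∈ LinearMap.range (LinearMap.dualMap (β : M →ₗ[ℂ] Module.Dual ℂ M)) := by
      rw [LinearMap.range_dualMap_eq_dualAnnihilator_ker]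
      rw [Submodule.mem_dualAnnihilator]
      intro x hx
      show lM (x - π x) = 0
      rw [hπ2 x hx, sub_self, map_zero]
    obtain ⟨φ, hφ⟩ := h1
    obtain ⟨m, hm⟩ := (Module.evalEquiv ℂ M).surjective φ
    refine ⟨-m, fun y => ?_⟩
    have h3 : lM (y - π y) = φ (β y) := (LinearMap.congr_fun hφ y).symm
    rw [h3, ← hm]
    show β y m = β (-m) y
    rw [h.1 y m, map_neg, LinearMap.neg_apply]
  -- normalise
  set n₀ := m₀ - π m₀ with hn₀
  have hn : ∀ y, lM (y - π y) = β n₀ y := by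
    intro y
    rw [hm₀, hn₀, map_sub, LinearMap.sub_apply, show β (π m₀) = 0 from hπ1 m₀, LinearMap.zero_apply,
      sub_zero]
  have hπn : π n₀ = 0 := by
    rw [hn₀, map_sub, hπ2 _ (hπ1 _), sub_self]
  clear_value n₀
  have hlM : ∀ s y, lM (B.L s y - B.R s y) = lM (B.L s (π y) - B.R s (π y)) - β (B.L s n₀ - B.R s n₀) y := by
    intro s y
    have e1 := hn (B.L s y - B.R s y)
    rw [map_sub lM, map_sub π, hπL, hπR, map_sub (β n₀), ← h.bal', ← h.2.1] at e1
    rw [map_sub β, LinearMap.sub_apply]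
    linear_combination e1
  apply exact_of_data (lS := lS + ((β n₀) ∘ₗ (B.L.flip n₀))) (lM := lM ∘ₗ (LinearMap.ker β).subtype)
  refine ⟨?_, ?_, ?_⟩
  · intro x y; simp
  · intro t x y; simp
  intro s hs x h1 h2
  have key := h.2.2 s hs (x + (B.L s n₀ - B.R s n₀)) (by
    intro t ht
    have e1 := h1 t ht
    have e2 : lM (B.L t x.1 - B.R t x.1) = (lM ∘ₗ (LinearMap.ker β).subtype)
      ((B.sub (LinearMap.ker β) (ker_L h.2.1) (ker_R h.bal')).L t x -
        (B.sub (LinearMap.ker β) (ker_L h.2.1) (ker_R h.bal')).R t x) := rfl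
    rw [← e2] at e1
    have e3 : (lS + ((β n₀) ∘ₗ (B.L.flip n₀))) (s * t - t * s) = lS (s * t - t * s) +
      (β n₀ (B.L s (B.L t n₀)) - β n₀ (B.L t (B.L s n₀))) := by
      rw [LinearMap.add_apply]
      congr 1
      show β n₀ (B.L (s * t - t * s) n₀) = _
      rw [map_sub B.L, LinearMap.sub_apply, B.L_mul, B.L_mul, map_sub]
    rw [e3] at e1
    have e4 : B.L t (x.1 + (B.L s n₀ - B.R s n₀)) - B.R t (x.1 + (B.L s n₀ - B.R s n₀)) =
        (B.L t x.1 - B.R t x.1) + (B.L t (B.L s n₀ - B.R s n₀) - B.R t (B.L s n₀ - B.R s n₀)) := by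
      rw [map_add, map_add]; abel
    rw [e4, map_add, hlM t (B.L s n₀ - B.R s n₀)]
    have e5 : π (B.L s n₀ - B.R s n₀) = 0 := by
      rw [map_sub, hπL, hπR, hπn, map_zero, map_zero, sub_zero]
    rw [e5, map_zero, map_zero, sub_zero, map_zero, zero_sub]
    -- β ([t,n₀]) ([s,n₀])
    have e6 : β (B.L t n₀ - B.R t n₀) (B.L s n₀ - B.R s n₀) =
        β n₀ (B.L s (B.L t n₀)) - β n₀ (B.L t (B.L s n₀)) := by
      have f1 : β (B.L t n₀) (B.L s n₀) = β n₀ (B.R t (B.L s n₀)) := h.2.1 _ _ _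
      have f2 : β (B.L t n₀) (B.R s n₀) = - β n₀ (B.L s (B.L t n₀)) := by
        rw [h.1, h.bal']
      have f3 : β (B.R t n₀) (B.L s n₀) = β n₀ (B.L t (B.L s n₀)) := h.bal' _ _ _
      have f4 : β (B.R t n₀) (B.R s n₀) = - β n₀ (B.R t (B.L s n₀)) := by
        rw [← h.2.1, h.1, B.comm]
      simp only [map_sub, LinearMap.sub_apply]
      rw [f1, f2, f3, f4]
      ring
    rw [e6]
    linear_combination e1) (by
    intro y
    have e1 := h2 ⟨π y, hπ1 y⟩
    have e2 : lM (B.L s (π y) - B.R s (π y)) = 0 := by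
      have : lM (B.L s (π y) - B.R s (π y)) = (lM ∘ₗ (LinearMap.ker β).subtype)
        ((B.sub (LinearMap.ker β) (ker_L h.2.1) (ker_R h.bal')).L s ⟨π y, hπ1 y⟩ -
          (B.sub (LinearMap.ker β) (ker_L h.2.1) (ker_R h.bal')).R s ⟨π y, hπ1 y⟩) := rfl
      rw [this]
      simpa using e1
    rw [hlM, e2, map_add, LinearMap.add_apply, show β x.1 = 0 from x.2, LinearMap.zero_apply]
    ring)
  have hs0 := key.1
  subst hs0
  refine ⟨rfl, ?_⟩
  have := key.2
  simp only [map_zero, LinearMap.zero_apply, sub_self, add_zero] at this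
  exact Subtype.ext this

end Pool.Agent.H215.SM
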