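import Pool.Agent.H215.SM.F

set_option autoImplicit false
set_option linter.unusedSectionVars false

namespace Pool.Agent.H215.SM

open Matrix Pool.Agent.Helper829.AF

variable {V : Type}
variable [Fintype V] [DecidableEq V] {d : V → ℕ} {M : Type} [AddCommGroup M] [Module ℂ M]

lemma UB.L_P (B : UB d M) (t : T d) (v w : V) (c : Fin (d v + 1)) (e : Fin (d w + 1)) (x : M) :
    B.L t (B.P v w c e x) = ∑ b, t v b c • B.P v w b e x := by
  show B.L t (B.L (E v c 0) (B.R (E w 0 e) x)) = _
  rw [← B.L_mul, mul_E]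
  simp only [map_sum, map_smul, LinearMap.sum_apply, LinearMap.smul_apply]
  rfl

lemma UB.R_P (B : UB d M) (t : T d) (v w : V) (c : Fin (d v + 1)) (e : Fin (d w + 1)) (x : M) :
    B.R t (B.P v w c e x) = ∑ b, t w e b • B.P v w c b x := by
  show B.R t (B.L (E v c 0) (B.R (E w 0 e) x)) = _
  rw [← B.comm, ← B.R_mul, E_mul]
  simp only [map_sum, map_smul, LinearMap.sum_apply, LinearMap.smul_apply]
  rfl

lemma UB.P_zero (B : UB d M) {v w : V} {q : M} (hq : q ∈ B.Q v w) : B.P v w 0 0 q = q := by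
  show B.L (E v 0 0) (B.R (E w 0 0) q) = q
  rw [hq.2, hq.1]

lemma no_loop {B : UB d M} {z : V} {lS : T d →ₗ[ℂ] ℂ} {lM : M →ₗ[ℂ] ℂ} (h : Data B z lS lM 0)
    {v : V} {q : M} (hq : q ∈ B.Q v v) : q = 0 := by
  have hx : ∀ a b (c : Fin (d a + 1)) (e : Fin (d b + 1)), ¬ (a = v ∧ b = v) →
      B.X a b c e (∑ c, B.P v v c c q) = 0 := by
    intro a b c e hab
    rw [map_sum]
    exact Finset.sum_eq_zero fun c' _ => B.X_P_ne (by tauto) _ _ _ _ _
  have hx' : ∀ c e, B.X v v c e (∑ c, B.P v v c c q) = if c = e then q else 0 := by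
    intro c e
    rw [map_sum, Finset.sum_eq_single c]
    · rw [B.X_P_same _ _ _ _ _ _ _ hq, if_pos rfl]
    · intro c' _ hc
      rw [B.X_P_same _ _ _ _ _ _ _ hq, if_neg (Ne.symm hc)]
    · intro h; exact absurd (Finset.mem_univ _) h
  have hc : ∀ t, B.L t (∑ c, B.P v v c c q) = B.R t (∑ c, B.P v v c c q) := by
    intro t
    apply B.X_inj
    intro a b c e
    rw [B.X_L, B.X_R]
    by_cases hab : a = v ∧ b = v
    · obtain ⟨rfl, rfl⟩ := hab
      simp only [hx']
      simp
    · simp only [hx _ _ _ _ hab, smul_zero, Finset.sum_const_zero]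
  have h0 := (h.2.2 0 (Submodule.zero_mem _) (∑ c, B.P v v c c q)
    (by intro t _; rw [hc, sub_self, zero_mul, mul_zero, sub_self, map_zero, map_zero, sub_zero])
    (by intro y; simp)).2
  have h1 := hx' 0 0
  rw [h0, map_zero, if_pos rfl] at h1
  exact h1.symm

lemma no_two_cycle {B : UB d M} {z : V} {lS : T d →ₗ[ℂ] ℂ} {lM : M →ₗ[ℂ] ℂ} (h : Data B z lS lM 0)
    {v w : V} (hvw : v ≠ w) {q q' : M} (hq : q ∈ B.Q v w) (hq' : q' ∈ B.Q w v) : q = 0 ∨ q' = 0 := by
  by_contra hne
  push Not at hne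
  obtain ⟨hq0, hq0'⟩ := hne
  let x : M := ∑ c, ∑ e, (lM (B.P w v e c q') • B.P v w c e q + lM (B.P v w c e q) • B.P w v e c q')
  have hx : ∀ t, lM (B.L t x - B.R t x) = 0 := by
    intro t
    simp only [x, map_sub, map_sum, map_add, map_smul, B.L_P, B.R_P, Finset.smul_sum, smul_eq_mul]
    simp only [Finset.sum_add_distrib]
    have e1 : ∑ c, ∑ e, ∑ b, lM (B.P w v e c q') * (t v b c * lM (B.P v w b e q)) =
        ∑ c, ∑ e, ∑ b, lM (B.P v w c e q) * (t v c b * lM (B.P w v e b q')) := by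
      rw [Finset.sum_comm]
      conv_rhs => rw [Finset.sum_comm]
      refine Finset.sum_congr rfl fun e _ => ?_
      rw [Finset.sum_comm]
      refine Finset.sum_congr rfl fun c _ => Finset.sum_congr rfl fun b _ => ?_
      ring
    have e2 : ∑ c, ∑ e, ∑ b, lM (B.P v w c e q) * (t w b e * lM (B.P w v b c q')) =
        ∑ c, ∑ e, ∑ b, lM (B.P w v e c q') * (t w e b * lM (B.P v w c b q)) := by
      refine Finset.sum_congr rfl fun c _ => ?_
      rw [Finset.sum_comm]
      refine Finset.sum_congr rfl fun e _ => Finset.sum_congr rfl fun b _ => ?_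
      ring
    rw [e1, e2]
    ring
  have h0 := (h.2.2 0 (Submodule.zero_mem _) x
    (by intro t _; rw [hx, zero_mul, mul_zero, sub_self, map_zero, sub_zero])
    (by intro y; simp)).2
  have hr : ∀ c e, lM (B.P w v e c q') = 0 := by
    intro c e
    have h1 : B.X v w c e x = lM (B.P w v e c q') • q := by
      simp only [x, map_sum, map_add, map_smul]
      rw [Finset.sum_eq_single c, Finset.sum_eq_single e]
      · rw [B.X_P_same _ _ _ _ _ _ _ hq, if_pos rfl, if_pos rfl, B.X_P_ne (Or.inl hvw), smul_zero, add_zero]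
      · intro e' _ he
        rw [B.X_P_same _ _ _ _ _ _ _ hq, if_pos rfl, if_neg he, B.X_P_ne (Or.inl hvw), smul_zero,
          smul_zero, add_zero]
      · intro h; exact absurd (Finset.mem_univ _) h
      · intro c' _ hc
        refine Finset.sum_eq_zero fun e' _ => ?_
        rw [B.X_P_same _ _ _ _ _ _ _ hq, if_neg (Ne.symm hc), B.X_P_ne (Or.inl hvw), smul_zero,
          smul_zero, add_zero]
      · intro h; exact absurd (Finset.mem_univ _) h
    rw [h0, map_zero] at h1
    exact (smul_eq_zero.1 h1.symm).resolve_right hq0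
  have h2 := (h.2.2 0 (Submodule.zero_mem _) q'
    (by
      intro t _
      rw [← B.P_zero hq', B.L_P, B.R_P, map_sub lM, map_sum, map_sum]
      simp only [map_smul, hr, smul_zero, Finset.sum_const_zero, sub_self, zero_mul, mul_zero,
        map_zero])
    (by intro y; simp)).2
  exact hq0' h2

lemma rank_flip {A C : Type} [AddCommGroup A] [Module ℂ A] [AddCommGroup C] [Module ℂ C]
    [FiniteDimensional ℂ A] [FiniteDimensional ℂ C] (f : A →ₗ[ℂ] C →ₗ[ℂ] ℂ) :
    Module.finrank ℂ (LinearMap.range f) = Module.finrank ℂ (LinearMap.range f.flip) := by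
  have h1 : f.flip = (LinearMap.dualMap (f : A →ₗ[ℂ] Module.Dual ℂ C)) ∘ₗ
      (Module.Dual.eval ℂ C) := by
    ext c a; rfl
  have h2 : LinearMap.range (Module.Dual.eval ℂ C) = ⊤ :=
    LinearMap.range_eq_top.2 (Module.evalEquiv ℂ C).surjective
  rw [h1, LinearMap.range_comp_of_range_eq_top _ h2]
  exact (LinearMap.finrank_range_dualMap_eq_finrank_range (f : A →ₗ[ℂ] Module.Dual ℂ C)).symm

lemma even_of_nondeg {W : Type} [AddCommGroup W] [Module ℂ W] [FiniteDimensional ℂ W]
    (β : W →ₗ[ℂ] W →ₗ[ℂ] ℂ) (h1 : ∀ x y, β x y = - β y x) (h2 : ∀ x, (∀ y, β x y = 0) → x = 0) :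
    Even (Module.finrank ℂ W) := by
  let b := Module.finBasis ℂ W
  let A : Matrix (Fin (Module.finrank ℂ W)) (Fin (Module.finrank ℂ W)) ℂ := Matrix.of fun i j => β (b i) (b j)
  have hA : Aᵀ = -A := by
    ext i j
    show β (b j) (b i) = - β (b i) (b j)
    exact h1 _ _
  have hdet : A.det ≠ 0 := by
    intro h0
    obtain ⟨v, hv, hv'⟩ := Matrix.exists_vecMul_eq_zero_iff.2 h0
    apply hv
    have hx : ∑ i, v i • b i = 0 := by
      apply h2
      intro y
      have h3 : ∀ j, β (∑ i, v i • b i) (b j) = 0 := by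
        intro j
        have := congrFun hv' j
        simpa [Matrix.vecMul, dotProduct, A] using this
      have h4 : β (∑ i, v i • b i) = 0 := b.ext h3
      rw [h4]; rfl
    have := b.linearIndependent
    rw [Fintype.linearIndependent_iff] at this
    funext i
    exact this v hx i
  have h3 : A.det = (-1) ^ (Module.finrank ℂ W) * A.det := by
    conv_lhs => rw [← Matrix.det_transpose, hA, Matrix.det_neg]
    simp
  by_contra hodd
  rw [Nat.not_even_iff_odd] at hodd
  rw [hodd.neg_one_pow] at h3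
  apply hdet
  linear_combination h3 / 2

end Pool.Agent.H215.SM
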