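import Pool.Agent.H215.SM.G

set_option autoImplicit false
set_option linter.unusedSectionVars false

namespace Pool.Agent.H215.SM

open Matrix Pool.Agent.Helper829.AF

variable {V : Type}
variable [Fintype V] [DecidableEq V] {d : V → ℕ} {M : Type} [AddCommGroup M] [Module ℂ M]

/-- the pairing of `Q v w` with `Q w v` -/
def pair (B : UB d M) (β : M →ₗ[ℂ] M →ₗ[ℂ] ℂ) (v w : V) : B.Q v w →ₗ[ℂ] B.Q w v →ₗ[ℂ] ℂ :=
  β.compl₁₂ (B.Q v w).subtype (B.Q w v).subtype

lemma pair_ker {B : UB d M} {z : V} {lS : T d →ₗ[ℂ] ℂ} {lM : M →ₗ[ℂ] ℂ}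
    {β : M →ₗ[ℂ] M →ₗ[ℂ] ℂ} (h : Data B z lS lM β) (v w : V) (q : M) (hq : q ∈ B.Q v w)
    (h0 : ∀ q' ∈ B.Q w v, β q q' = 0) : β q = 0 := by
  ext y
  have h1 : β q y = β q (B.X w v 0 0 y) := by
    conv_lhs => rw [← B.P_zero hq]
    show β (B.L (E v 0 0) (B.R (E w 0 0) q)) y = β q (B.L (E w 0 0) (B.R (E v 0 0) y))
    rw [h.2.1, h.bal']
  rw [h1]
  exact h0 _ (B.X_mem _ _ _ _ _)

lemma finrank_pair_ker [FiniteDimensional ℂ M] {B : UB d M} {z : V} {lS : T d →ₗ[ℂ] ℂ} {lM : M →ₗ[ℂ] ℂ}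
    {β : M →ₗ[ℂ] M →ₗ[ℂ] ℂ} (h : Data B z lS lM β) (v w : V) :
    Module.finrank ℂ (LinearMap.ker (pair B β v w)) =
      (B.sub (LinearMap.ker β) (ker_L h.2.1) (ker_R h.bal')).mult v w := by
  unfold UB.mult
  rw [← Submodule.finrank_map_subtype_eq, ← Submodule.finrank_map_subtype_eq (LinearMap.ker β)]
  have : (LinearMap.ker (pair B β v w)).map (B.Q v w).subtype =
      ((B.sub (LinearMap.ker β) (ker_L h.2.1) (ker_R h.bal')).Q v w).map (LinearMap.ker β).subtype := by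
    ext x
    constructor
    · rintro ⟨q, hq, rfl⟩
      have h1 : β q.1 = 0 := pair_ker h v w q.1 q.2 (fun q' hq' => LinearMap.congr_fun hq ⟨q', hq'⟩)
      exact ⟨⟨q.1, h1⟩, ⟨Subtype.ext q.2.1, Subtype.ext q.2.2⟩, rfl⟩
    · rintro ⟨q, hq, rfl⟩
      refine ⟨⟨q.1, congrArg Subtype.val hq.1, congrArg Subtype.val hq.2⟩, ?_, rfl⟩
      rw [SetLike.mem_coe, LinearMap.mem_ker]
      ext y
      show β q.1 y = 0
      rw [show β q.1 = 0 from q.2]; rfl
  rw [this]

theorem necessity [FiniteDimensional ℂ M] (B : UB d M) (z : V) (hz : d z = 0)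
    (haf : AntiFrobenius (B.mul z)) :
    (∀ v, Even (B.mult v v)) ∧ ∃ (M' : Submodule ℂ M) (B' : UB d M'), Exact (B'.mul z) ∧
      ∀ v w, B'.mult v w = B.mult v w - B.mult w v := by
  obtain ⟨lS, lM, β, h⟩ := data_of_af B z hz haf
  have hex := reduce h
  obtain ⟨lS', lM', h'⟩ := data_of_exact hex
  set B' := B.sub (LinearMap.ker β) (ker_L h.2.1) (ker_R h.bal') with hB'
  have k1 : ∀ v, B'.mult v v = 0 := by
    intro v
    have : B'.Q v v = ⊥ := by
      rw [eq_bot_iff]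
      intro q hq
      exact no_loop h' hq
    rw [UB.mult, this, finrank_bot]
  have k2 : ∀ v w, v ≠ w → B'.mult v w = 0 ∨ B'.mult w v = 0 := by
    intro v w hvw
    by_cases h0 : B'.Q v w = ⊥
    · left; rw [UB.mult, h0, finrank_bot]
    · right
      obtain ⟨q, hq, hq0⟩ := (Submodule.ne_bot_iff _).1 h0
      have : B'.Q w v = ⊥ := by
        rw [eq_bot_iff]
        intro q' hq'
        exact (no_two_cycle h' hvw hq hq').resolve_left hq0
      rw [UB.mult, this, finrank_bot]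
  have rk : ∀ v w, Module.finrank ℂ (LinearMap.range (pair B β v w)) + B'.mult v w = B.mult v w := by
    intro v w
    rw [hB', ← finrank_pair_ker h v w]
    exact LinearMap.finrank_range_add_finrank_ker _
  have rs : ∀ v w, Module.finrank ℂ (LinearMap.range (pair B β v w)) =
      Module.finrank ℂ (LinearMap.range (pair B β w v)) := by
    intro v w
    rw [rank_flip]
    have : (pair B β v w).flip = - pair B β w v := by
      ext x y
      show β y.1 x.1 = - β x.1 y.1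
      exact h.1 _ _
    rw [this, LinearMap.range_neg]
  refine ⟨?_, LinearMap.ker β, B', hex, ?_⟩
  · intro v
    apply even_of_nondeg (pair B β v v)
    · intro x y; exact h.1 _ _
    · intro x hx
      have h3 := finrank_pair_ker h v v
      rw [← hB', k1 v] at h3
      have h4 : LinearMap.ker (pair B β v v) = ⊥ := Submodule.finrank_eq_zero.1 h3
      have h5 : x ∈ LinearMap.ker (pair B β v v) := by
        rw [LinearMap.mem_ker]
        ext y
        exact hx y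
      rw [h4] at h5
      exact h5
  · intro v w
    by_cases hvw : v = w
    · subst hvw
      rw [k1, Nat.sub_self]
    · have r1 := rk v w
      have r2 := rk w v
      have r3 := rs v w
      rcases k2 v w hvw with h3 | h3 <;> omega

/-- transport of exactness -/
lemma Iso.exact {M₁ M₂ : Type} [AddCommGroup M₁] [Module ℂ M₁] [AddCommGroup M₂] [Module ℂ M₂]
    {B₁ : UB d M₁} {B₂ : UB d M₂} (h : Iso B₁ B₂) {z : V} (he : Exact (B₁.mul z)) :
    Exact (B₂.mul z) := by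
  obtain ⟨φ, hL, hR⟩ := h.symm
  obtain ⟨lS, lM, h1, h2, h3⟩ := data_of_exact he
  apply exact_of_data (lS := lS) (lM := lM ∘ₗ (φ : M₂ →ₗ[ℂ] M₁))
  refine ⟨by intro x y; simp, by intro t x y; simp, ?_⟩
  intro s hs x e1 e2
  have := h3 s hs (φ x) (by
    intro t ht
    have := e1 t ht
    simp only [LinearMap.comp_apply, LinearEquiv.coe_coe, map_sub, hL, hR] at this ⊢
    exact this) (by
    intro y
    have := e2 (φ.symm y)
    simp only [LinearMap.comp_apply, LinearEquiv.coe_coe, map_sub, hL, hR, LinearEquiv.apply_symm_apply,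
      LinearMap.zero_apply, add_zero] at this ⊢
    exact this)
  exact ⟨this.1, by simpa using this.2⟩

/-- transport of the anti-Frobenius property -/
lemma Iso.af {M₁ M₂ : Type} [AddCommGroup M₁] [Module ℂ M₁] [AddCommGroup M₂] [Module ℂ M₂]
    {B₁ : UB d M₁} {B₂ : UB d M₂} (h : Iso B₁ B₂) {z : V} (he : AntiFrobenius (B₁.mul z)) :
    AntiFrobenius (B₂.mul z) := by
  obtain ⟨φ, hL, hR⟩ := h.symm
  obtain ⟨ω, h1, h2, h3⟩ := he
  let Φ : (S d z × M₂) ≃ₗ[ℂ] (S d z × M₁) := (LinearEquiv.refl ℂ (S d z)).prodCongr φ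
  have hΦ : ∀ X Y, Φ (B₂.mul z X Y) = B₁.mul z (Φ X) (Φ Y) := by
    rintro ⟨s, x⟩ ⟨t, y⟩
    refine Prod.ext rfl ?_
    show φ (B₂.L s.1 y + B₂.R t.1 x) = B₁.L s.1 (φ y) + B₁.R t.1 (φ x)
    rw [map_add, hL, hR]
  refine ⟨ω.compl₁₂ (Φ : (S d z × M₂) →ₗ[ℂ] (S d z × M₁)) (Φ : (S d z × M₂) →ₗ[ℂ] (S d z × M₁)), ?_, ?_, ?_⟩
  · intro X hX
    have := h1 (Φ X) (by
      intro Y
      have := hX (Φ.symm Y)
      rw [LinearMap.compl₁₂_apply] at this
      simpa using this)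
    simpa using this
  · intro X Y
    exact h2 _ _
  · intro X Y Z
    simp only [LinearMap.compl₁₂_apply, LinearEquiv.coe_coe, hΦ]
    exact h3 _ _ _

/-- direct sum -/
def UB.prod {M₁ M₂ : Type} [AddCommGroup M₁] [Module ℂ M₁] [AddCommGroup M₂] [Module ℂ M₂]
    (B₁ : UB d M₁) (B₂ : UB d M₂) : UB d (M₁ × M₂) where
  L := LinearMap.mk₂ ℂ (fun t x => (B₁.L t x.1, B₂.L t x.2))
    (by intro a b c; simp) (by intro a b c; simp) (by intro a b c; simp) (by intro a b c; simp)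
  R := LinearMap.mk₂ ℂ (fun t x => (B₁.R t x.1, B₂.R t x.2))
    (by intro a b c; simp) (by intro a b c; simp) (by intro a b c; simp) (by intro a b c; simp)
  L_mul := by intro s t x; simp [B₁.L_mul, B₂.L_mul]
  R_mul := by intro s t x; simp [B₁.R_mul, B₂.R_mul]
  comm := by intro s t x; simp [B₁.comm, B₂.comm]
  L_one := by intro x; simp [B₁.L_one, B₂.L_one]
  R_one := by intro x; simp [B₁.R_one, B₂.R_one]

lemma UB.prod_L {M₁ M₂ : Type} [AddCommGroup M₁] [Module ℂ M₁] [AddCommGroup M₂] [Module ℂ M₂]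
    (B₁ : UB d M₁) (B₂ : UB d M₂) (t : T d) (x : M₁ × M₂) : (B₁.prod B₂).L t x = (B₁.L t x.1, B₂.L t x.2) := rfl

lemma UB.prod_R {M₁ M₂ : Type} [AddCommGroup M₁] [Module ℂ M₁] [AddCommGroup M₂] [Module ℂ M₂]
    (B₁ : UB d M₁) (B₂ : UB d M₂) (t : T d) (x : M₁ × M₂) : (B₁.prod B₂).R t x = (B₁.R t x.1, B₂.R t x.2) := rfl

lemma mult_prod {M₁ M₂ : Type} [AddCommGroup M₁] [Module ℂ M₁] [AddCommGroup M₂] [Module ℂ M₂]
    [FiniteDimensional ℂ M₁] [FiniteDimensional ℂ M₂]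
    (B₁ : UB d M₁) (B₂ : UB d M₂) (v w : V) : (B₁.prod B₂).mult v w = B₁.mult v w + B₂.mult v w := by
  unfold UB.mult
  rw [← Module.finrank_prod]
  apply LinearEquiv.finrank_eq
  exact
    { toFun := fun q => (⟨q.1.1, congrArg Prod.fst q.2.1, congrArg Prod.fst q.2.2⟩,
        ⟨q.1.2, congrArg Prod.snd q.2.1, congrArg Prod.snd q.2.2⟩)
      map_add' := fun x y => rfl
      map_smul' := fun r x => rfl
      invFun := fun p => ⟨(p.1.1, p.2.1), Prod.ext p.1.2.1 p.2.2.1, Prod.ext p.1.2.2 p.2.2.2⟩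
      left_inv := fun x => rfl
      right_inv := fun x => rfl }

theorem af_prod {M₁ M₂ : Type} [AddCommGroup M₁] [Module ℂ M₁] [AddCommGroup M₂] [Module ℂ M₂]
    (B₁ : UB d M₁) (B₂ : UB d M₂) {z : V} (h : Exact (B₁.mul z)) (β : M₂ →ₗ[ℂ] M₂ →ₗ[ℂ] ℂ)
    (h1 : ∀ x y, β x y = - β y x) (h2 : ∀ t x y, β (B₂.L t x) y = β x (B₂.R t y))
    (h3 : ∀ x, (∀ y, β x y = 0) → x = 0) : AntiFrobenius ((B₁.prod B₂).mul z) := by
  obtain ⟨lS, lM, k1, k2, k3⟩ := data_of_exact h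
  apply af_of_data (lS := lS) (lM := lM ∘ₗ LinearMap.fst ℂ _ _)
    (β := β.compl₁₂ (LinearMap.snd ℂ _ _) (LinearMap.snd ℂ _ _))
  refine ⟨fun x y => h1 _ _, fun t x y => h2 _ _ _, ?_⟩
  intro s hs x e1 e2
  have := k3 s hs x.1 e1 (by
    intro y
    have := e2 (y, 0)
    simp only [LinearMap.compl₁₂_apply, LinearMap.snd_apply, map_zero, add_zero] at this
    rw [LinearMap.zero_apply, LinearMap.zero_apply, add_zero]
    exact this)
  refine ⟨this.1, Prod.ext this.2 ?_⟩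
  apply h3
  intro y
  have := e2 (0, y)
  simp only [LinearMap.compl₁₂_apply, LinearMap.snd_apply, LinearMap.comp_apply, LinearMap.fst_apply,
    UB.prod_L, UB.prod_R, map_zero, sub_self, zero_add, Prod.fst_sub] at this
  exact this

end Pool.Agent.H215.SM
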