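import Pool.Agent.H215.SM.H

set_option autoImplicit false
set_option linter.unusedSectionVars false

namespace Pool.Agent.H215.SM

open Matrix Pool.Agent.Helper829.AF

variable {V : Type}
variable [Fintype V] [DecidableEq V] {d : V → ℕ}

/-- the partner of an index -/
def pt (v w : V) (a : ℕ) : ℕ := if v = w then (if a % 2 = 0 then a + 1 else a - 1) else a

/-- the sign -/
noncomputable def sg (v w : V) (a : ℕ) : ℂ :=
  if v = w then (if a % 2 = 0 then 1 else -1) else
    (if (Fintype.equivFin V v).val < (Fintype.equivFin V w).val then 1 else -1)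

/-- the matrix of the form -/
noncomputable def JJ (v w : V) (a b : ℕ) : ℂ := if b = pt v w a then sg v w a else 0

lemma JJ_anti (v w : V) (a b : ℕ) : JJ w v b a = - JJ v w a b := by
  unfold JJ pt sg
  by_cases hvw : v = w
  · subst hvw
    simp only [if_true]
    by_cases ha : a % 2 = 0
    · rw [if_pos ha, if_pos ha]
      by_cases hb : b % 2 = 0
      · rw [if_pos hb, if_neg (by omega), if_neg (by omega), neg_zero]
      · rw [if_neg hb, if_neg hb]
        by_cases hab : b = a + 1
        · rw [if_pos (by omega), if_pos hab]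
        · rw [if_neg (by omega), if_neg hab, neg_zero]
    · rw [if_neg ha, if_neg ha]
      by_cases hb : b % 2 = 0
      · rw [if_pos hb, if_pos hb]
        by_cases hab : a = b + 1
        · rw [if_pos (by omega), if_pos (by omega), neg_neg]
        · rw [if_neg (by omega), if_neg (by omega), neg_zero]
      · rw [if_neg hb, if_neg (by omega), if_neg (by omega), neg_zero]
  · have hwv : w ≠ v := Ne.symm hvw
    rw [if_neg hwv, if_neg hwv, if_neg hvw, if_neg hvw]
    by_cases hab : a = b
    · subst hab
      rw [if_pos rfl, if_pos rfl]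
      have hne : (Fintype.equivFin V v).val ≠ (Fintype.equivFin V w).val := by
        intro h
        exact hvw ((Fintype.equivFin V).injective (Fin.ext h))
      by_cases h1 : (Fintype.equivFin V v).val < (Fintype.equivFin V w).val
      · rw [if_pos h1, if_neg (by omega)]
      · rw [if_neg h1, if_pos (by omega), neg_neg]
    · rw [if_neg hab, if_neg (Ne.symm hab), neg_zero]

theorem exists_form (ρ : V → V → ℕ) (hs : ∀ v w, ρ v w = ρ w v) (he : ∀ v, Even (ρ v v)) :
    ∃ β : Mod d ρ →ₗ[ℂ] Mod d ρ →ₗ[ℂ] ℂ, (∀ x y, β x y = - β y x) ∧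
      (∀ t x y, β ((std d ρ).L t x) y = β x ((std d ρ).R t y)) ∧ (∀ x, (∀ y, β x y = 0) → x = 0) := by
  let β : Mod d ρ →ₗ[ℂ] Mod d ρ →ₗ[ℂ] ℂ := LinearMap.mk₂ ℂ
    (fun x y => ∑ v, ∑ w, ∑ a : Fin (ρ v w), ∑ b : Fin (ρ w v),
      JJ v w a b * Matrix.trace (x v w a * y w v b))
    (by
      intro x x' y
      simp only [← Finset.sum_add_distrib]
      refine Finset.sum_congr rfl fun v _ => Finset.sum_congr rfl fun w _ =>
          Finset.sum_congr rfl fun c _ => Finset.sum_congr rfl fun e _ => ?_
      rw [Pi.add_apply, Pi.add_apply, Pi.add_apply, Matrix.add_mul, Matrix.trace_add]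
      ring)
    (by
      intro r x y
      simp only [Finset.smul_sum]
      refine Finset.sum_congr rfl fun v _ => Finset.sum_congr rfl fun w _ =>
          Finset.sum_congr rfl fun c _ => Finset.sum_congr rfl fun e _ => ?_
      rw [Pi.smul_apply, Pi.smul_apply, Pi.smul_apply, Matrix.smul_mul, Matrix.trace_smul, smul_eq_mul,
        smul_eq_mul]
      ring)
    (by
      intro x y y'
      simp only [← Finset.sum_add_distrib]
      refine Finset.sum_congr rfl fun v _ => Finset.sum_congr rfl fun w _ =>
          Finset.sum_congr rfl fun c _ => Finset.sum_congr rfl fun e _ => ?_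
      rw [Pi.add_apply, Pi.add_apply, Pi.add_apply, Matrix.mul_add, Matrix.trace_add]
      ring)
    (by
      intro r x y
      simp only [Finset.smul_sum]
      refine Finset.sum_congr rfl fun v _ => Finset.sum_congr rfl fun w _ =>
          Finset.sum_congr rfl fun c _ => Finset.sum_congr rfl fun e _ => ?_
      rw [Pi.smul_apply, Pi.smul_apply, Pi.smul_apply, Matrix.mul_smul, Matrix.trace_smul, smul_eq_mul,
        smul_eq_mul]
      ring)
  have hβ : ∀ x y, β x y = ∑ v, ∑ w, ∑ a : Fin (ρ v w), ∑ b : Fin (ρ w v),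
      JJ v w a b * Matrix.trace (x v w a * y w v b) := fun x y => rfl
  refine ⟨β, ?_, ?_, ?_⟩
  · intro x y
    rw [hβ, hβ, Finset.sum_comm, ← Finset.sum_neg_distrib]
    refine Finset.sum_congr rfl fun v _ => ?_
    rw [← Finset.sum_neg_distrib]
    refine Finset.sum_congr rfl fun w _ => ?_
    rw [Finset.sum_comm, ← Finset.sum_neg_distrib]
    refine Finset.sum_congr rfl fun a _ => ?_
    rw [← Finset.sum_neg_distrib]
    refine Finset.sum_congr rfl fun b _ => ?_
    rw [JJ_anti v w a b, Matrix.trace_mul_comm]
    ring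
  · intro t x y
    rw [hβ, hβ]
    refine Finset.sum_congr rfl fun v _ => Finset.sum_congr rfl fun w _ =>
          Finset.sum_congr rfl fun a _ => Finset.sum_congr rfl fun b _ => ?_
    rw [std_L, std_R, Matrix.mul_assoc, Matrix.trace_mul_comm, Matrix.mul_assoc]
  · intro x hx
    funext v w a
    -- the partner
    have hb : pt v w a.val < ρ w v := by
      unfold pt
      have ha := a.2
      by_cases hvw : v = w
      · subst hvw
        rw [if_pos rfl]
        obtain ⟨r, hr⟩ := he v
        split_ifs <;> omega
      · rw [if_neg hvw, ← hs v w]; exact ha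
    have hinj : ∀ a' : ℕ, pt v w a' = pt v w a.val → a' = a.val := by
      intro a' h
      unfold pt at h
      split_ifs at h <;> omega
    have hsg : sg v w a.val ≠ 0 := by
      unfold sg
      split_ifs <;> norm_num
    ext c e
    let y : Mod d ρ := Pi.single w (Pi.single v (Pi.single ⟨pt v w a.val, hb⟩ (Matrix.single e c 1)))
    have y0 : ∀ w' v' b', (w' ≠ w ∨ v' ≠ v) → y w' v' b' = 0 := by
      intro w' v' b' h
      show (Pi.single w (Pi.single v (Pi.single ⟨pt v w a.val, hb⟩ (Matrix.single e c 1))) : Mod d ρ) w' v' b' = 0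
      by_cases hw : w' = w
      · subst hw
        rw [Pi.single_eq_same, Pi.single_eq_of_ne (h.resolve_left (fun h => h rfl))]
        rfl
      · rw [Pi.single_eq_of_ne hw]; rfl
    have y1 : ∀ b', b' ≠ ⟨pt v w a.val, hb⟩ → y w v b' = 0 := by
      intro b' h
      show (Pi.single w (Pi.single v (Pi.single ⟨pt v w a.val, hb⟩ (Matrix.single e c 1))) : Mod d ρ) w v b' = 0
      rw [Pi.single_eq_same, Pi.single_eq_same, Pi.single_eq_of_ne h]
    have y2 : y w v ⟨pt v w a.val, hb⟩ = Matrix.single e c 1 := by
      show (Pi.single w (Pi.single v (Pi.single ⟨pt v w a.val, hb⟩ (Matrix.single e c 1))) : Mod d ρ) w v _ = _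
      rw [Pi.single_eq_same, Pi.single_eq_same, Pi.single_eq_same]
    have h1 := hx y
    rw [hβ, Finset.sum_eq_single v, Finset.sum_eq_single w, Finset.sum_eq_single a,
      Finset.sum_eq_single ⟨pt v w a.val, hb⟩] at h1
    · rw [y2, Matrix.trace_mul_single] at h1
      have h2 : JJ v w a.val (pt v w a.val) = sg v w a.val := if_pos rfl
      rw [h2] at h1
      have h3 := (mul_eq_zero.1 h1).resolve_left hsg
      simpa using h3
    · intro b' _ hb'
      rw [y1 b' hb', Matrix.mul_zero, Matrix.trace_zero, mul_zero]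
    · intro h; exact absurd (Finset.mem_univ _) h
    · intro a' _ ha'
      refine Finset.sum_eq_zero fun b' _ => ?_
      by_cases hb' : b' = ⟨pt v w a.val, hb⟩
      · subst hb'
        have : JJ v w a'.val (pt v w a.val) = 0 :=
          if_neg (fun h => ha' (Fin.ext (hinj a'.val h.symm)))
        rw [this, zero_mul]
      · rw [y1 b' hb', Matrix.mul_zero, Matrix.trace_zero, mul_zero]
    · intro h; exact absurd (Finset.mem_univ _) h
    · intro w' _ hw'
      refine Finset.sum_eq_zero fun a' _ => Finset.sum_eq_zero fun b' _ => ?_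
      rw [y0 w' v b' (Or.inl hw'), Matrix.mul_zero, Matrix.trace_zero, mul_zero]
    · intro h; exact absurd (Finset.mem_univ _) h
    · intro v' _ hv'
      refine Finset.sum_eq_zero fun w' _ => Finset.sum_eq_zero fun a' _ => Finset.sum_eq_zero fun b' _ => ?_
      rw [y0 w' v' b' (Or.inr hv'), Matrix.mul_zero, Matrix.trace_zero, mul_zero]
    · intro h; exact absurd (Finset.mem_univ _) h

instance (m : V → V → ℕ) : FiniteDimensional ℂ (Mod d m) := inferInstance

/-- **Reduction to the skew part.** -/
theorem main {M : Type} [AddCommGroup M] [Module ℂ M] [FiniteDimensional ℂ M] (B : UB d M) (z : V)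
    (hz : d z = 0) : AntiFrobenius (B.mul z) ↔ (∀ v, Even (B.mult v v)) ∧
      Exact ((std d (fun v w => B.mult v w - B.mult w v)).mul z) := by
  constructor
  · intro h
    obtain ⟨h1, M', B', h2, h3⟩ := necessity B z hz h
    refine ⟨h1, Iso.exact (iso_of_mult B' _ ?_) h2⟩
    intro v w
    rw [h3, mult_std]
  · rintro ⟨h1, h2⟩
    obtain ⟨β, k1, k2, k3⟩ := exists_form (d := d) (fun v w => min (B.mult v w) (B.mult w v))
      (fun v w => min_comm _ _) (fun v => by simpa using h1 v)
    have h3 := af_prod (std d (fun v w => B.mult v w - B.mult w v)) _ h2 β k1 k2 k3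
    refine Iso.af (iso_of_mult _ B ?_) h3
    intro v w
    rw [mult_prod, mult_std, mult_std]
    omega

end Pool.Agent.H215.SM
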