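import Pool.Agent.H215.SM.I

set_option autoImplicit false
set_option linter.unusedSectionVars false

namespace Pool.Agent.H215.SM

open Matrix Pool.Agent.Helper829.AF

variable {V : Type}
variable [Fintype V] [DecidableEq V]

/-- the graph of a multiplicity function -/
def mgraph (m : V → V → ℕ) : SimpleGraph V where
  Adj v w := m v w ≠ m w v
  symm := ⟨fun _ _ h => Ne.symm h⟩
  loopless := ⟨fun _ h => h rfl⟩

/-- all blocks of size one -/
abbrev z0 (V : Type) : V → ℕ := fun _ => 0

lemma one_comm (s t : T (z0 V)) : s * t = t * s := by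
  funext v
  ext i j
  fin_cases i
  fin_cases j
  show (s v * t v) 0 0 = (t v * s v) 0 0
  rw [Matrix.mul_apply, Matrix.mul_apply]
  show (∑ j : Fin 1, s v 0 j * t v j 0) = ∑ j : Fin 1, t v 0 j * s v j 0
  rw [Fin.sum_univ_one, Fin.sum_univ_one, mul_comm]

lemma finrank_S (z : V) : Module.finrank ℂ (S (z0 V) z) + 1 = Fintype.card V := by
  let p : T (z0 V) →ₗ[ℂ] ℂ :=
    { toFun := fun t => t z 0 0
      map_add' := fun x y => rfl
      map_smul' := fun r x => rfl }
  have h1 : LinearMap.ker p = S (z0 V) z := by
    ext t
    constructor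
    · intro h
      show t z = 0
      ext i j
      fin_cases i
      fin_cases j
      exact h
    · intro h
      show t z 0 0 = 0
      rw [show t z = 0 from h]; rfl
  have h2 : Function.Surjective p := by
    intro c
    refine ⟨fun _ => Matrix.of fun _ _ => c, rfl⟩
  have h3 := LinearMap.finrank_range_add_finrank_ker p
  rw [h1, LinearMap.range_eq_top.2 h2, finrank_top] at h3
  have h4 : Module.finrank ℂ (T (z0 V)) = Fintype.card V := by
    rw [Module.finrank_pi_fintype]
    simp [Module.finrank_matrix]
  rw [h4] at h3
  simp at h3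
  omega

lemma finrank_Mod (m : V → V → ℕ) : Module.finrank ℂ (Mod (z0 V) m) = ∑ v, ∑ w, m v w := by
  rw [Module.finrank_pi_fintype]
  refine Finset.sum_congr rfl fun v _ => ?_
  rw [Module.finrank_pi_fintype]
  refine Finset.sum_congr rfl fun w _ => ?_
  rw [Module.finrank_pi_fintype]
  simp [Module.finrank_matrix]

lemma card_edges (m : V → V → ℕ) (h0 : ∀ v w, m v w = 0 ∨ m w v = 0) :
    (Finset.univ.filter (fun p : V × V => m p.1 p.2 ≠ 0)).card = Nat.card (mgraph m).edgeSet := by
  classical
  rw [Nat.card_eq_fintype_card, ← SimpleGraph.edgeFinset_card]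
  apply Finset.card_bij (fun p _ => s(p.1, p.2))
  · rintro ⟨v, w⟩ hp
    rw [Finset.mem_filter] at hp
    rw [SimpleGraph.mem_edgeFinset, SimpleGraph.mem_edgeSet]
    show m v w ≠ m w v
    have := h0 v w
    have := hp.2
    simp only at this
    omega
  · rintro ⟨v, w⟩ hp ⟨v', w'⟩ hp' h
    rw [Finset.mem_filter] at hp hp'
    rw [Sym2.eq_iff] at h
    rcases h with ⟨h1, h2⟩ | ⟨h1, h2⟩
    · exact Prod.ext h1 h2
    · exfalso
      simp only at h1 h2
      subst h1
      subst h2
      exact (h0 v w).elim hp.2 hp'.2
  · intro e he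
    rw [SimpleGraph.mem_edgeFinset] at he
    induction e using Sym2.ind with
    | _ v w =>
      rw [SimpleGraph.mem_edgeSet] at he
      have he' : m v w ≠ m w v := he
      by_cases h : m v w = 0
      · refine ⟨(w, v), ?_, Sym2.eq_swap⟩
        rw [Finset.mem_filter]
        exact ⟨Finset.mem_univ _, fun h' => he' (by rw [h]; exact h'.symm)⟩
      · exact ⟨(v, w), by rw [Finset.mem_filter]; exact ⟨Finset.mem_univ _, h⟩, rfl⟩

lemma card_le (m : V → V → ℕ) :
    (Finset.univ.filter (fun p : V × V => m p.1 p.2 ≠ 0)).card ≤ ∑ v, ∑ w, m v w := by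
  rw [Finset.card_filter, ← Finset.univ_product_univ, Finset.sum_product]
  refine Finset.sum_le_sum fun v _ => Finset.sum_le_sum fun w _ => ?_
  simp only
  split_ifs <;> omega

lemma le_one_of_eq (m : V → V → ℕ)
    (h : ∑ v, ∑ w, m v w ≤ (Finset.univ.filter (fun p : V × V => m p.1 p.2 ≠ 0)).card) (v w : V) :
    m v w ≤ 1 := by
  by_contra hlt
  push Not at hlt
  have : (Finset.univ.filter (fun p : V × V => m p.1 p.2 ≠ 0)).card < ∑ v, ∑ w, m v w := by
    rw [Finset.card_filter, ← Finset.univ_product_univ, Finset.sum_product]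
    refine Finset.sum_lt_sum (fun v _ => Finset.sum_le_sum fun w _ => ?_) ⟨v, Finset.mem_univ _,
      Finset.sum_lt_sum (fun w _ => ?_) ⟨w, Finset.mem_univ _, ?_⟩⟩
    · simp only; split_ifs <;> omega
    · simp only; split_ifs <;> omega
    · simp only; split_ifs <;> omega
  omega

lemma sum_eq_of_le_one (m : V → V → ℕ) (h : ∀ v w, m v w ≤ 1) :
    ∑ v, ∑ w, m v w = (Finset.univ.filter (fun p : V × V => m p.1 p.2 ≠ 0)).card := by
  rw [Finset.card_filter, ← Finset.univ_product_univ, Finset.sum_product]
  refine Finset.sum_congr rfl fun v _ => Finset.sum_congr rfl fun w _ => ?_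
  simp only
  have := h v w
  split_ifs <;> omega

lemma LR_apply {m : V → V → ℕ} (s : T (z0 V)) (y : Mod (z0 V) m) (v w : V) (a : Fin (m v w)) :
    ((std (z0 V) m).L s y - (std (z0 V) m).R s y) v w a = (s v 0 0 - s w 0 0) • y v w a := by
  rw [Pi.sub_apply, Pi.sub_apply, Pi.sub_apply, std_L, std_R]
  ext i j
  fin_cases i
  fin_cases j
  show (s v * y v w a) 0 0 - (y v w a * s w) 0 0 = (s v 0 0 - s w 0 0) * y v w a 0 0
  rw [Matrix.mul_apply, Matrix.mul_apply]
  show (∑ j : Fin 1, s v 0 j * y v w a j 0) - (∑ j : Fin 1, y v w a 0 j * s w j 0) = _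
  rw [Fin.sum_univ_one, Fin.sum_univ_one]
  ring

/-- the pairing of `S` and `M` given by a linear form on `M` -/
def pS {m : V → V → ℕ} (z : V) (lM : Mod (z0 V) m →ₗ[ℂ] ℂ) : S (z0 V) z →ₗ[ℂ] Mod (z0 V) m →ₗ[ℂ] ℂ :=
  LinearMap.mk₂ ℂ (fun s y => lM ((std (z0 V) m).L s.1 y - (std (z0 V) m).R s.1 y))
    (by intro a b c; simp only [Submodule.coe_add, map_add, LinearMap.add_apply, map_sub]; ring)
    (by intro a b c; simp only [Submodule.coe_smul, map_smul, LinearMap.smul_apply, map_sub, smul_eq_mul]; ring)
    (by intro a b c; simp only [map_add, map_sub]; ring)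
    (by intro a b c; simp only [map_smul, map_sub, smul_eq_mul]; ring)

theorem exact_iff_tree (m : V → V → ℕ) (h0 : ∀ v w, m v w = 0 ∨ m w v = 0) (z : V) :
    Exact ((std (z0 V) m).mul z) ↔ (∀ v w, m v w ≤ 1) ∧ (mgraph m).IsTree := by
  classical
  have hcomm : ∀ (lS : T (z0 V) →ₗ[ℂ] ℂ) (s t : T (z0 V)), lS (s * t - t * s) = 0 := by
    intro lS s t
    rw [one_comm, sub_self, map_zero]
  constructor
  · intro h
    obtain ⟨lS, lM, k1, k2, k3⟩ := data_of_exact h
    -- connectedness
    have hreach : ∀ v, (mgraph m).Reachable z v := by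
      let s : T (z0 V) := fun v => if (mgraph m).Reachable z v then 0 else 1
      have hs : s ∈ S (z0 V) z := by
        show (if (mgraph m).Reachable z z then (0 : Matrix _ _ ℂ) else 1) = 0
        rw [if_pos (SimpleGraph.Reachable.refl z)]
      have hs0 := (k3 s hs 0 (by intro t ht; rw [hcomm]; simp) (by
        intro y
        have : (std (z0 V) m).L s y - (std (z0 V) m).R s y = 0 := by
          funext v w a
          rw [LR_apply]
          have hadj : (mgraph m).Adj v w := by
            show m v w ≠ m w v
            have h1 := h0 v w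
            have h2 := a.2
            omega
          have : s v 0 0 = s w 0 0 := by
            have h3 : (mgraph m).Reachable z v ↔ (mgraph m).Reachable z w :=
              ⟨fun h => h.trans hadj.reachable, fun h => h.trans hadj.symm.reachable⟩
            show (if (mgraph m).Reachable z v then (0 : Matrix (Fin 1) (Fin 1) ℂ) else 1) 0 0 =
              (if (mgraph m).Reachable z w then (0 : Matrix (Fin 1) (Fin 1) ℂ) else 1) 0 0
            by_cases h4 : (mgraph m).Reachable z v
            · rw [if_pos h4, if_pos (h3.1 h4)]
            · rw [if_neg h4, if_neg (fun h => h4 (h3.2 h))]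
          rw [this, sub_self, zero_smul]; rfl
        rw [this]; simp)).1
      intro v
      by_contra hv
      have h1 : s v = 0 := congrFun hs0 v
      have h2 : s v = 1 := if_neg hv
      rw [h2] at h1
      exact one_ne_zero h1
    have hconn : (mgraph m).Connected := by
      have : Nonempty V := ⟨z⟩
      exact ⟨fun v w => (hreach v).symm.trans (hreach w)⟩
    -- dimension
    have hdim : ∑ v, ∑ w, m v w ≤ Module.finrank ℂ (S (z0 V) z) := by
      rw [← finrank_Mod]
      have hinj : Function.Injective (pS z lM).flip := by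
        rw [injective_iff_map_eq_zero]
        intro x hx
        refine (k3 0 (Submodule.zero_mem _) x ?_ ?_).2
        · intro t ht
          rw [hcomm, zero_sub, neg_eq_zero]
          exact LinearMap.congr_fun hx ⟨t, ht⟩
        · intro y; simp
      have := LinearMap.finrank_le_finrank_of_injective hinj
      rwa [Subspace.dual_finrank_eq] at this
    have h1 := finrank_S z
    have h2 := hconn.card_vert_le_card_edgeSet_add_one
    have h3 := card_edges m h0
    have h4 := card_le m
    rw [Nat.card_eq_fintype_card] at h2
    refine ⟨fun v w => le_one_of_eq m (by omega) v w, ?_⟩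
    rw [SimpleGraph.isTree_iff_connected_and_card]
    refine ⟨hconn, ?_⟩
    rw [Nat.card_eq_fintype_card (α := V)]
    omega
  · rintro ⟨h1, h2⟩
    have hconn := h2.connected
    have hcard := (SimpleGraph.isTree_iff_connected_and_card.1 h2).2
    rw [Nat.card_eq_fintype_card (α := V), ← card_edges m h0, ← sum_eq_of_le_one m h1, ← finrank_Mod,
      ← finrank_S z] at hcard
    let lM : Mod (z0 V) m →ₗ[ℂ] ℂ :=
      { toFun := fun y => ∑ v, ∑ w, ∑ a, y v w a 0 0
        map_add' := by
          intro x y
          simp only [← Finset.sum_add_distrib]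
          rfl
        map_smul' := by
          intro r x
          simp only [RingHom.id_apply, Finset.smul_sum]
          rfl }
    have hinj : ∀ s ∈ S (z0 V) z, (∀ y, lM ((std (z0 V) m).L s y - (std (z0 V) m).R s y) = 0) → s = 0 := by
      intro s hs hy
      have hadj : ∀ v w, (mgraph m).Adj v w → s v 0 0 = s w 0 0 := by
        have key : ∀ v w, m v w ≠ 0 → s v 0 0 = s w 0 0 := by
          intro v w hvw
          have ha : 0 < m v w := Nat.pos_of_ne_zero hvw
          let y : Mod (z0 V) m := Pi.single v (Pi.single w (Pi.single ⟨0, ha⟩ 1))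
          have := hy y
          have e1 : lM ((std (z0 V) m).L s y - (std (z0 V) m).R s y) = s v 0 0 - s w 0 0 := by
            show ∑ v', ∑ w', ∑ a, ((std (z0 V) m).L s y - (std (z0 V) m).R s y) v' w' a 0 0 = _
            simp only [LR_apply]
            rw [Finset.sum_eq_single v, Finset.sum_eq_single w, Finset.sum_eq_single ⟨0, ha⟩]
            · have : y v w ⟨0, ha⟩ = 1 := by
                show (Pi.single v (Pi.single w (Pi.single ⟨0, ha⟩ 1)) : Mod (z0 V) m) v w ⟨0, ha⟩ = 1
                rw [Pi.single_eq_same, Pi.single_eq_same, Pi.single_eq_same]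
              rw [this]
              simp
            · intro a' _ ha'
              have : y v w a' = 0 := by
                show (Pi.single v (Pi.single w (Pi.single ⟨0, ha⟩ 1)) : Mod (z0 V) m) v w a' = 0
                rw [Pi.single_eq_same, Pi.single_eq_same, Pi.single_eq_of_ne ha']
              rw [this, smul_zero]; rfl
            · intro h; exact absurd (Finset.mem_univ _) h
            · intro w' _ hw'
              refine Finset.sum_eq_zero fun a' _ => ?_
              have : y v w' a' = 0 := by
                show (Pi.single v (Pi.single w (Pi.single ⟨0, ha⟩ 1)) : Mod (z0 V) m) v w' a' = 0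
                rw [Pi.single_eq_same, Pi.single_eq_of_ne hw']; rfl
              rw [this, smul_zero]; rfl
            · intro h; exact absurd (Finset.mem_univ _) h
            · intro v' _ hv'
              refine Finset.sum_eq_zero fun w' _ => Finset.sum_eq_zero fun a' _ => ?_
              have : y v' w' a' = 0 := by
                show (Pi.single v (Pi.single w (Pi.single ⟨0, ha⟩ 1)) : Mod (z0 V) m) v' w' a' = 0
                rw [Pi.single_eq_of_ne hv']; rfl
              rw [this, smul_zero]; rfl
            · intro h; exact absurd (Finset.mem_univ _) h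
          rw [e1] at this
          exact sub_eq_zero.1 this
        intro v w hvw
        have hvw' : m v w ≠ m w v := hvw
        by_cases h : m v w = 0
        · exact (key w v (fun h' => hvw' (by rw [h, h']))).symm
        · exact key v w h
      have hall : ∀ v, s v 0 0 = 0 := by
        intro v
        obtain ⟨p⟩ := hconn z v
        have : ∀ {a b : V} (p : (mgraph m).Walk a b), s a 0 0 = s b 0 0 := by
          intro a b p
          induction p with
          | nil => rfl
          | cons h _ ih => rw [hadj _ _ h, ih]
        rw [← this p, show s z = 0 from hs]; rfl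
      funext v
      ext i j
      fin_cases i
      fin_cases j
      exact hall v
    have hker : LinearMap.ker (pS z lM) = ⊥ := by
      rw [eq_bot_iff]
      intro s hs
      exact Subtype.ext (hinj s.1 s.2 (fun y => LinearMap.congr_fun hs y))
    have hrk := LinearMap.finrank_range_add_finrank_ker (pS z lM)
    have hrk2 := LinearMap.finrank_range_add_finrank_ker (pS z lM).flip
    rw [hker, finrank_bot, rank_flip] at hrk
    have hker2 : Module.finrank ℂ (LinearMap.ker (pS z lM).flip) = 0 := by omega
    have hker3 := Submodule.finrank_eq_zero.1 hker2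
    apply exact_of_data (lS := 0) (lM := lM)
    refine ⟨by intro x y; simp, by intro t x y; simp, ?_⟩
    intro s hs x e1 e2
    refine ⟨hinj s hs (fun y => by simpa using e2 y), ?_⟩
    have : x ∈ LinearMap.ker (pS z lM).flip := by
      rw [LinearMap.mem_ker]
      ext t
      have := e1 t.1 t.2
      rw [LinearMap.zero_apply, zero_sub, neg_eq_zero] at this
      exact this
    rw [hker3] at this
    exact this

/-- classification for commutative `S` -/
theorem comm_main {M : Type} [AddCommGroup M] [Module ℂ M] [FiniteDimensional ℂ M] (B : UB (z0 V) M)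
    (z : V) : AntiFrobenius (B.mul z) ↔ (∀ v, Even (B.mult v v)) ∧
      (∀ v w, B.mult v w ≤ B.mult w v + 1) ∧ (mgraph B.mult).IsTree := by
  rw [main B z rfl, exact_iff_tree _ (fun v w => by omega) z]
  have h1 : mgraph (fun v w => B.mult v w - B.mult w v) = mgraph B.mult := by
    ext v w
    show (B.mult v w - B.mult w v ≠ B.mult w v - B.mult v w) ↔ B.mult v w ≠ B.mult w v
    omega
  rw [h1]
  constructor
  · rintro ⟨k1, k2, k3⟩
    exact ⟨k1, fun v w => by have := k2 v w; omega, k3⟩
  · rintro ⟨k1, k2, k3⟩
    exact ⟨k1, fun v w => by have := k2 v w; omega, k3⟩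

end Pool.Agent.H215.SM
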