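import Pool.Agent.H215.SM.J

set_option autoImplicit false
set_option linter.unusedSectionVars false

namespace Pool.Agent.H215.SM

open Matrix Pool.Agent.Helper829.AF

variable {V : Type}
variable [Fintype V] [DecidableEq V] {d : V → ℕ} {M : Type} [AddCommGroup M] [Module ℂ M]

theorem af_transfer {A A' : Type} [AddCommGroup A] [Module ℂ A] [AddCommGroup A'] [Module ℂ A']
    {mul : A → A → A} {mul' : A' → A' → A'} (Φ : A ≃ₗ[ℂ] A')
    (h : ∀ x y, Φ (mul x y) = mul' (Φ x) (Φ y)) : AntiFrobenius mul' → AntiFrobenius mul := by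
  rintro ⟨ω, h1, h2, h3⟩
  refine ⟨ω.compl₁₂ (Φ : A →ₗ[ℂ] A') (Φ : A →ₗ[ℂ] A'), ?_, ?_, ?_⟩
  · intro X hX
    have := h1 (Φ X) (by
      intro Y
      have := hX (Φ.symm Y)
      rw [LinearMap.compl₁₂_apply] at this
      simpa using this)
    simpa using this
  · intro X Y
    exact h2 _ _
  · intro X Y Z
    simp only [LinearMap.compl₁₂_apply, LinearEquiv.coe_coe, h]
    exact h3 _ _ _

theorem exact_transfer {A A' : Type} [AddCommGroup A] [Module ℂ A] [AddCommGroup A'] [Module ℂ A']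
    {mul : A → A → A} {mul' : A' → A' → A'} (Φ : A ≃ₗ[ℂ] A')
    (h : ∀ x y, Φ (mul x y) = mul' (Φ x) (Φ y)) : Exact mul' → Exact mul := by
  rintro ⟨l, hl⟩
  refine ⟨l ∘ₗ (Φ : A →ₗ[ℂ] A'), ?_⟩
  intro x hx
  have := hl (Φ x) (by
    intro y
    have := hx (Φ.symm y)
    simpa [h] using this)
  simpa using this

lemma symm_hom {A A' : Type} [AddCommGroup A] [Module ℂ A] [AddCommGroup A'] [Module ℂ A']
    {mul : A → A → A} {mul' : A' → A' → A'} (Φ : A ≃ₗ[ℂ] A')
    (h : ∀ x y, Φ (mul x y) = mul' (Φ x) (Φ y)) (x y) : Φ.symm (mul' x y) = mul (Φ.symm x) (Φ.symm y) := by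
  apply Φ.injective
  rw [h]; simp

/-- identification of an algebra `R` with the ideal `S` -/
structure Conv (d : V → ℕ) (z : V) (R : Type) [Ring R] [Algebra ℂ R] where
  hz : d z = 0
  res : T d →ₗ[ℂ] R
  inc : R →ₗ[ℂ] T d
  inc_mem : ∀ r, inc r ∈ S d z
  res_inc : ∀ r, res (inc r) = r
  inc_res : ∀ t ∈ S d z, inc (res t) = t
  res_mul : ∀ s t, res (s * t) = res s * res t
  res_one : res 1 = 1

lemma zz_mul {d : V → ℕ} {z : V} (hz : d z = 0) (s t : T d) :
    (s * t) z 0 0 = s z 0 0 * t z 0 0 := by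
  show (s z * t z) 0 0 = _
  rw [Matrix.mul_apply]
  have h : ∀ i : Fin (d z + 1), i = 0 := by
    intro i
    apply Fin.ext
    have := i.2
    have h0 : ((0 : Fin (d z + 1)) : ℕ) = 0 := rfl
    omega
  rw [Finset.sum_eq_single 0]
  · intro b _ hb; exact absurd (h b) hb
  · intro h; exact absurd (Finset.mem_univ _) h

/-- the unital bimodule attached to a bimodule over `R` -/
def Conv.ub {d : V → ℕ} {z : V} {R : Type} [Ring R] [Algebra ℂ R] (C : Conv d z R) (B : Bimod R M) :
    UB d M where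
  L := LinearMap.mk₂ ℂ (fun t x => B.L (C.res t) x + t z 0 0 • (x - B.L 1 x))
    (by
      intro a b c
      simp only [map_add, LinearMap.add_apply, Pi.add_apply, Matrix.add_apply, add_smul]
      abel)
    (by
      intro r a c
      simp only [map_smul, LinearMap.smul_apply, Pi.smul_apply, Matrix.smul_apply, smul_eq_mul, mul_smul,
        smul_add])
    (by
      intro a b c
      simp only [map_add, smul_add, smul_sub]
      abel)
    (by
      intro r a c
      simp only [map_smul, smul_add, smul_sub]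
      rw [smul_comm (a z 0 0) r, smul_comm (a z 0 0) r])
  R := LinearMap.mk₂ ℂ (fun t x => B.R (C.res t) x + t z 0 0 • (x - B.R 1 x))
    (by
      intro a b c
      simp only [map_add, LinearMap.add_apply, Pi.add_apply, Matrix.add_apply, add_smul]
      abel)
    (by
      intro r a c
      simp only [map_smul, LinearMap.smul_apply, Pi.smul_apply, Matrix.smul_apply, smul_eq_mul, mul_smul,
        smul_add])
    (by
      intro a b c
      simp only [map_add, smul_add, smul_sub]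
      abel)
    (by
      intro r a c
      simp only [map_smul, smul_add, smul_sub]
      rw [smul_comm (a z 0 0) r, smul_comm (a z 0 0) r])
  L_mul := by
    intro s t x
    show B.L (C.res (s * t)) x + (s * t) z 0 0 • (x - B.L 1 x) =
      B.L (C.res s) (B.L (C.res t) x + t z 0 0 • (x - B.L 1 x)) + s z 0 0 •
        ((B.L (C.res t) x + t z 0 0 • (x - B.L 1 x)) - B.L 1 (B.L (C.res t) x + t z 0 0 • (x - B.L 1 x)))
    have h1 : ∀ r, B.L r (x - B.L 1 x) = 0 := by
      intro r; rw [map_sub, ← B.L_mul, mul_one, sub_self]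
    have h2 : B.L 1 (B.L (C.res t) x) = B.L (C.res t) x := by rw [← B.L_mul, one_mul]
    rw [zz_mul C.hz, C.res_mul, B.L_mul, map_add, map_smul, h1, smul_zero, add_zero, map_add, map_smul, h1,
      smul_zero, add_zero, h2, mul_smul]
    congr 2
    abel
  R_mul := by
    intro s t x
    show B.R (C.res (s * t)) x + (s * t) z 0 0 • (x - B.R 1 x) =
      B.R (C.res t) (B.R (C.res s) x + s z 0 0 • (x - B.R 1 x)) + t z 0 0 •
        ((B.R (C.res s) x + s z 0 0 • (x - B.R 1 x)) - B.R 1 (B.R (C.res s) x + s z 0 0 • (x - B.R 1 x)))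
    have h1 : ∀ r, B.R r (x - B.R 1 x) = 0 := by
      intro r; rw [map_sub, ← B.R_mul, one_mul, sub_self]
    have h2 : B.R 1 (B.R (C.res s) x) = B.R (C.res s) x := by rw [← B.R_mul, mul_one]
    rw [zz_mul C.hz, C.res_mul, B.R_mul, map_add, map_smul, h1, smul_zero, add_zero, map_add, map_smul, h1,
      smul_zero, add_zero, h2, mul_comm, mul_smul]
    congr 2
    abel
  comm := by
    intro s t x
    show B.L (C.res s) (B.R (C.res t) x + t z 0 0 • (x - B.R 1 x)) + s z 0 0 •
        ((B.R (C.res t) x + t z 0 0 • (x - B.R 1 x)) - B.L 1 (B.R (C.res t) x + t z 0 0 • (x - B.R 1 x))) =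
      B.R (C.res t) (B.L (C.res s) x + s z 0 0 • (x - B.L 1 x)) + t z 0 0 •
        ((B.L (C.res s) x + s z 0 0 • (x - B.L 1 x)) - B.R 1 (B.L (C.res s) x + s z 0 0 • (x - B.L 1 x)))
    simp only [map_add, map_sub, map_smul, B.comm, smul_add, smul_sub]
    rw [smul_comm (s z 0 0) (t z 0 0) x, smul_comm (s z 0 0) (t z 0 0) (B.R 1 x),
      smul_comm (s z 0 0) (t z 0 0) (B.L 1 x), smul_comm (s z 0 0) (t z 0 0) (B.R 1 (B.L 1 x))]
    abel
  L_one := by
    intro x
    show B.L (C.res 1) x + (1 : T d) z 0 0 • (x - B.L 1 x) = x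
    rw [C.res_one, show (1 : T d) z 0 0 = 1 from Matrix.one_apply_eq _, one_smul]
    abel
  R_one := by
    intro x
    show B.R (C.res 1) x + (1 : T d) z 0 0 • (x - B.R 1 x) = x
    rw [C.res_one, show (1 : T d) z 0 0 = 1 from Matrix.one_apply_eq _, one_smul]
    abel

lemma Conv.ub_L {d : V → ℕ} {z : V} {R : Type} [Ring R] [Algebra ℂ R] (C : Conv d z R) (B : Bimod R M)
    (t : T d) (x : M) : (C.ub B).L t x = B.L (C.res t) x + t z 0 0 • (x - B.L 1 x) := rfl

lemma Conv.ub_R {d : V → ℕ} {z : V} {R : Type} [Ring R] [Algebra ℂ R] (C : Conv d z R) (B : Bimod R M)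
    (t : T d) (x : M) : (C.ub B).R t x = B.R (C.res t) x + t z 0 0 • (x - B.R 1 x) := rfl

/-- the isomorphism of algebras -/
def Conv.iso {d : V → ℕ} {z : V} {R : Type} [Ring R] [Algebra ℂ R] (C : Conv d z R) :
    (R × M) ≃ₗ[ℂ] (S d z × M) :=
  LinearEquiv.prodCongr
    { toFun := fun r => ⟨C.inc r, C.inc_mem r⟩
      map_add' := fun _ _ => Subtype.ext (map_add _ _ _)
      map_smul' := fun _ _ => Subtype.ext (map_smul _ _ _)
      invFun := fun t => C.res t.1
      left_inv := fun r => C.res_inc r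
      right_inv := fun t => Subtype.ext (C.inc_res t.1 t.2) }
    (LinearEquiv.refl ℂ M)

lemma Conv.iso_mul {d : V → ℕ} {z : V} {R : Type} [Ring R] [Algebra ℂ R] (C : Conv d z R)
    (B : Bimod R M) (X Y : R × M) :
    C.iso (M := M) (B.mul X Y) = (C.ub B).mul z (C.iso X) (C.iso Y) := by
  refine Prod.ext (Subtype.ext ?_) ?_
  · show C.inc (X.1 * Y.1) = C.inc X.1 * C.inc Y.1
    have h1 : C.inc X.1 * C.inc Y.1 ∈ S d z := S_mul ⟨_, C.inc_mem X.1⟩ ⟨_, C.inc_mem Y.1⟩
    rw [← C.inc_res _ h1, C.res_mul, C.res_inc, C.res_inc]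
  · show B.L X.1 Y.2 + B.R Y.1 X.2 = (C.ub B).L (C.inc X.1) Y.2 + (C.ub B).R (C.inc Y.1) X.2
    have h0 : ∀ r, C.inc r z 0 0 = 0 := by
      intro r
      rw [show C.inc r z = 0 from C.inc_mem r]; rfl
    rw [C.ub_L, C.ub_R, h0, h0, zero_smul, zero_smul, add_zero, add_zero, C.res_inc, C.res_inc]

theorem Conv.af {d : V → ℕ} {z : V} {R : Type} [Ring R] [Algebra ℂ R] (C : Conv d z R)
    (B : Bimod R M) : AntiFrobenius B.mul ↔ AntiFrobenius ((C.ub B).mul z) :=
  ⟨af_transfer C.iso.symm (symm_hom (mul := B.mul) (mul' := (C.ub B).mul z) C.iso (C.iso_mul B)),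
    af_transfer C.iso (C.iso_mul B)⟩

theorem Conv.exact {d : V → ℕ} {z : V} {R : Type} [Ring R] [Algebra ℂ R] (C : Conv d z R)
    (B : Bimod R M) : Exact B.mul ↔ Exact ((C.ub B).mul z) :=
  ⟨exact_transfer C.iso.symm (symm_hom (mul := B.mul) (mul' := (C.ub B).mul z) C.iso (C.iso_mul B)),
    exact_transfer C.iso (C.iso_mul B)⟩

end Pool.Agent.H215.SM
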