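import Pool.Agent.H215.SM.K

set_option autoImplicit false
set_option linter.unusedSectionVars false

namespace Pool.Agent.H215.SM

open Matrix Pool.Agent.Helper829.AF

variable {k : ℕ} {M : Type} [AddCommGroup M] [Module ℂ M]

/-- the product of the matrix algebras `Mat_{n_i + 1}(ℂ)`, `i = 1, …, k` -/
abbrev MatProd (n : Fin k → ℕ) : Type := (i : Fin k) → Matrix (Fin (n i + 1)) (Fin (n i + 1)) ℂ

/-- a rank one idempotent of the `i`-th factor -/
noncomputable def idem (n : Fin k → ℕ) (i : Fin k) : MatProd n := Pi.single i (Matrix.single 0 0 1)

/-- For an action `A` of `S` and `i ∈ {none, 1, …, k}`: the subspace of those `x` which are fixed by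
the rank one idempotent `idem n i`, respectively (if `i = none`) annihilated by all of `S`. -/
noncomputable def part {n : Fin k → ℕ} (A : MatProd n →ₗ[ℂ] (M →ₗ[ℂ] M)) :
    Option (Fin k) → Submodule ℂ M
  | none => ⨅ s, LinearMap.ker (A s)
  | some l => LinearMap.eqLocus (A (idem n l)) LinearMap.id

/-- For `i, j ∈ {none, 1, …, k}` the subspace of those `x` in the bimodule which are fixed from the
left by the rank one idempotent `idem n i` (annihilated from the left by all of `S` if `i = none`)
and fixed from the right by `idem n j` (annihilated from the right by all of `S` if `j = none`). -/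
noncomputable def corner {n : Fin k → ℕ} (B : Bimod (MatProd n) M) (i j : Option (Fin k)) :
    Submodule ℂ M := part B.L i ⊓ part B.R j

lemma mem_part {n : Fin k → ℕ} (A : MatProd n →ₗ[ℂ] (M →ₗ[ℂ] M)) (i : Option (Fin k)) (x : M) :
    x ∈ part A i ↔ (i.elim (∀ s, A s x = 0) (fun l => A (idem n l) x = x)) := by
  cases i with
  | none =>
    show x ∈ (⨅ s, LinearMap.ker (A s)) ↔ ∀ s, A s x = 0
    rw [Submodule.mem_iInf]
    exact forall_congr' fun s => LinearMap.mem_ker
  | some l => exact LinearMap.mem_eqLocus

/-- The multiplicity `m_{ij}` in the bimodule of `V_i ⊗ V_j^*`, where `V_1, …, V_k` are the simple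
modules of `S` and `V_none` is the one-dimensional module on which `S` acts by zero. -/
noncomputable def mult {n : Fin k → ℕ} (B : Bimod (MatProd n) M) (i j : Option (Fin k)) : ℕ :=
  Module.finrank ℂ (corner B i j)

/-- sizes -/
def dd (n : Fin k → ℕ) : Option (Fin k) → ℕ
  | none => 0
  | some i => n i

/-- `MatProd n` is the ideal `S` -/
def convMat (n : Fin k → ℕ) : Conv (dd n) none (MatProd n) where
  hz := rfl
  res :=
    { toFun := fun t i => t (some i)
      map_add' := fun _ _ => rfl
      map_smul' := fun _ _ => rfl }
  inc :=
    { toFun := fun r v => match v with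
        | none => 0
        | some i => r i
      map_add' := fun a b => by
        funext v
        cases v with
        | none => exact (add_zero _).symm
        | some i => rfl
      map_smul' := fun r a => by
        funext v
        cases v with
        | none =>
          show (0 : Matrix (Fin 1) (Fin 1) ℂ) = r • 0
          rw [smul_zero]
        | some i => rfl }
  inc_mem := fun r => rfl
  res_inc := fun r => rfl
  inc_res := fun t ht => by
    funext v
    cases v with
    | none => exact (show t none = 0 from ht).symm
    | some i => rfl
  res_mul := fun s t => rfl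
  res_one := rfl

lemma res_E_none (n : Fin k → ℕ) : (convMat n).res (E none 0 0) = 0 := by
  funext i
  show (Pi.single none (Matrix.single 0 0 1) : T (dd n)) (some i) = 0
  exact Pi.single_eq_of_ne (Option.some_ne_none i) _

lemma res_E_some (n : Fin k → ℕ) (l : Fin k) : (convMat n).res (E (some l) 0 0) = idem n l := by
  funext i
  show (Pi.single (some l) (Matrix.single 0 0 1) : T (dd n)) (some i) = (Pi.single l (Matrix.single 0 0 1) : MatProd n) i
  by_cases h : i = l
  · subst h
    rw [Pi.single_eq_same, Pi.single_eq_same]
    rfl
  · rw [Pi.single_eq_of_ne h, Pi.single_eq_of_ne (fun h' => h (Option.some_injective _ h'))]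
    rfl

lemma E_some_none (n : Fin k → ℕ) (l : Fin k) : (E (some l) 0 0 : T (dd n)) none 0 0 = 0 := by
  rw [show (E (some l) 0 0 : T (dd n)) none = 0 from Pi.single_eq_of_ne (Option.some_ne_none l).symm _]
  rfl

lemma E_none_none (n : Fin k → ℕ) : (E none 0 0 : T (dd n)) none 0 0 = 1 := by
  rw [show (E none 0 0 : T (dd n)) none = Matrix.single 0 0 1 from Pi.single_eq_same _ _]
  exact Matrix.single_apply_same _ _ _

lemma Q_eq_corner {n : Fin k → ℕ} (B : Bimod (MatProd n) M) (i j : Option (Fin k)) :
    ((convMat n).ub B).Q i j = corner B i j := by
  have hL : ∀ i x, ((convMat n).ub B).L (E i 0 0) x = x ↔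
      (i.elim (∀ s, B.L s x = 0) (fun l => B.L (idem n l) x = x)) := by
    intro i x
    rw [Conv.ub_L]
    cases i with
    | none =>
      rw [res_E_none, E_none_none, map_zero, LinearMap.zero_apply, zero_add, one_smul, sub_eq_self]
      constructor
      · intro h s
        rw [← mul_one s, B.L_mul, h, map_zero]
      · intro h; exact h 1
    | some l => rw [res_E_some, E_some_none, zero_smul, add_zero]; rfl
  have hR : ∀ i x, ((convMat n).ub B).R (E i 0 0) x = x ↔
      (i.elim (∀ s, B.R s x = 0) (fun l => B.R (idem n l) x = x)) := by
    intro i x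
    rw [Conv.ub_R]
    cases i with
    | none =>
      rw [res_E_none, E_none_none, map_zero, LinearMap.zero_apply, zero_add, one_smul, sub_eq_self]
      constructor
      · intro h s
        rw [← one_mul s, B.R_mul, h, map_zero]
      · intro h; exact h 1
    | some l => rw [res_E_some, E_some_none, zero_smul, add_zero]; rfl
  ext x
  exact and_congr ((hL i x).trans (mem_part _ _ _).symm) ((hR j x).trans (mem_part _ _ _).symm)

lemma mult_eq {n : Fin k → ℕ} (B : Bimod (MatProd n) M) (i j : Option (Fin k)) :
    ((convMat n).ub B).mult i j = mult B i j := by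
  unfold UB.mult mult
  rw [Q_eq_corner]

theorem general {n : Fin k → ℕ} {M₀ : Type} [AddCommGroup M₀] [Module ℂ M₀] [FiniteDimensional ℂ M]
    [FiniteDimensional ℂ M₀] (B : Bimod (MatProd n) M) (B₀ : Bimod (MatProd n) M₀)
    (h : ∀ i j, mult B₀ i j = mult B i j - mult B j i) :
    AntiFrobenius B.mul ↔ (∀ i, Even (mult B i i)) ∧ Exact B₀.mul := by
  rw [(convMat n).af B, main ((convMat n).ub B) none rfl, (convMat n).exact B₀]
  have hm : ((convMat n).ub B).mult = mult B := by
    funext v w
    exact mult_eq B v w
  rw [hm]
  have hiso : Iso (std (dd n) (fun v w => mult B v w - mult B w v)) ((convMat n).ub B₀) := by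
    apply iso_of_mult
    intro v w
    rw [mult_std, mult_eq, h]
  constructor
  · rintro ⟨h1, h2⟩
    exact ⟨h1, hiso.exact h2⟩
  · rintro ⟨h1, h2⟩
    exact ⟨h1, hiso.symm.exact h2⟩

/-- `ℂ^k` is the ideal `S` for blocks of size one -/
def convC (k : ℕ) : Conv (z0 (Option (Fin k))) none (Fin k → ℂ) where
  hz := rfl
  res :=
    { toFun := fun t i => t (some i) 0 0
      map_add' := fun _ _ => rfl
      map_smul' := fun _ _ => rfl }
  inc :=
    { toFun := fun r v => match v with
        | none => 0
        | some i => Matrix.of fun _ _ => r i
      map_add' := fun a b => by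
        funext v
        cases v with
        | none => exact (add_zero _).symm
        | some i => rfl
      map_smul' := fun r a => by
        funext v
        cases v with
        | none =>
          show (0 : Matrix (Fin 1) (Fin 1) ℂ) = r • 0
          rw [smul_zero]
        | some i => rfl }
  inc_mem := fun r => rfl
  res_inc := fun r => rfl
  inc_res := fun t ht => by
    funext v
    cases v with
    | none => exact (show t none = 0 from ht).symm
    | some i =>
      ext a b
      fin_cases a
      fin_cases b
      rfl
  res_mul := fun s t => by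
    funext i
    show (s (some i) * t (some i)) 0 0 = s (some i) 0 0 * t (some i) 0 0
    rw [Matrix.mul_apply]
    show (∑ j : Fin 1, s (some i) 0 j * t (some i) j 0) = _
    rw [Fin.sum_univ_one]
  res_one := by
    funext i
    exact Matrix.one_apply_eq _

lemma Q_eq_comp (B : Bimod (Fin k → ℂ) M) (i j : Option (Fin k)) :
    ((convC k).ub B).Q i j = B.comp i j := by
  have r1 : (convC k).res (E none 0 0) = 0 := by
    funext i
    show (Pi.single none (Matrix.single 0 0 1) : T (z0 (Option (Fin k)))) (some i) 0 0 = 0
    rw [Pi.single_eq_of_ne (Option.some_ne_none i)]; rfl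
  have r2 : ∀ l, (convC k).res (E (some l) 0 0) = Pi.single l 1 := by
    intro l
    funext i
    show (Pi.single (some l) (Matrix.single 0 0 1) : T (z0 (Option (Fin k)))) (some i) 0 0 = (Pi.single l 1 : Fin k → ℂ) i
    by_cases h : i = l
    · subst h
      rw [Pi.single_eq_same, Pi.single_eq_same]
      exact Matrix.single_apply_same _ _ _
    · rw [Pi.single_eq_of_ne h, Pi.single_eq_of_ne (fun h' => h (Option.some_injective _ h'))]; rfl
  have r3 : ∀ l, (E (some l) 0 0 : T (z0 (Option (Fin k)))) none 0 0 = 0 := by
    intro l
    rw [show (E (some l) 0 0 : T (z0 (Option (Fin k)))) none = 0 from Pi.single_eq_of_ne (Option.some_ne_none l).symm _]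
    rfl
  have r4 : (E none 0 0 : T (z0 (Option (Fin k)))) none 0 0 = 1 := by
    rw [show (E none 0 0 : T (z0 (Option (Fin k)))) none = Matrix.single 0 0 1 from Pi.single_eq_same _ _]
    exact Matrix.single_apply_same _ _ _
  have hone : (1 : Fin k → ℂ) = ∑ l, Pi.single l 1 := by
    funext i
    rw [Finset.sum_apply]
    simp [Pi.single_apply]
  have hL : ∀ i x, ((convC k).ub B).L (E i 0 0) x = x ↔
      (∀ l : Fin k, B.L (Pi.single l 1) x = if i = some l then x else 0) := by
    intro i x
    rw [Conv.ub_L]
    cases i with
    | none =>
      rw [r1, r4, map_zero, LinearMap.zero_apply, zero_add, one_smul, sub_eq_self]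
      constructor
      · intro h s
        rw [if_neg (by simp), ← mul_one (Pi.single s 1), B.L_mul, h, map_zero]
      · intro h
        rw [hone, map_sum, LinearMap.sum_apply]
        exact Finset.sum_eq_zero fun l _ => by rw [h l, if_neg (by simp)]
    | some l =>
      rw [r2, r3, zero_smul, add_zero]
      constructor
      · intro h l'
        by_cases hl : l = l'
        · subst hl; rw [if_pos rfl]; exact h
        · rw [if_neg (fun h' => hl (Option.some_injective _ h')), ← h, ← B.L_mul]
          have : (Pi.single l' 1 * Pi.single l 1 : Fin k → ℂ) = 0 := by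
            funext i
            simp only [Pi.mul_apply, Pi.single_apply, Pi.zero_apply]
            split_ifs with h1 h2
            · exact absurd (h2.symm.trans h1) hl
            · simp
            · simp
            · simp
          rw [this, map_zero, LinearMap.zero_apply]
      · intro h
        have := h l
        rwa [if_pos rfl] at this
  have hR : ∀ i x, ((convC k).ub B).R (E i 0 0) x = x ↔
      (∀ l : Fin k, B.R (Pi.single l 1) x = if i = some l then x else 0) := by
    intro i x
    rw [Conv.ub_R]
    cases i with
    | none =>
      rw [r1, r4, map_zero, LinearMap.zero_apply, zero_add, one_smul, sub_eq_self]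
      constructor
      · intro h s
        rw [if_neg (by simp), ← one_mul (Pi.single s 1), B.R_mul, h, map_zero]
      · intro h
        rw [hone, map_sum, LinearMap.sum_apply]
        exact Finset.sum_eq_zero fun l _ => by rw [h l, if_neg (by simp)]
    | some l =>
      rw [r2, r3, zero_smul, add_zero]
      constructor
      · intro h l'
        by_cases hl : l = l'
        · subst hl; rw [if_pos rfl]; exact h
        · rw [if_neg (fun h' => hl (Option.some_injective _ h')), ← h, ← B.R_mul]
          have : (Pi.single l 1 * Pi.single l' 1 : Fin k → ℂ) = 0 := by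
            funext i
            simp only [Pi.mul_apply, Pi.single_apply, Pi.zero_apply]
            split_ifs with h1 h2
            · exact absurd (h1.symm.trans h2) hl
            · simp
            · simp
            · simp
          rw [this, map_zero, LinearMap.zero_apply]
      · intro h
        have := h l
        rwa [if_pos rfl] at this
  ext x
  exact and_congr (hL i x) (hR j x)

theorem commutative [FiniteDimensional ℂ M] (B : Bimod (Fin k → ℂ) M) :
    AntiFrobenius B.mul ↔ (∀ i, Even (B.m i i)) ∧ (∀ i j, B.m i j ≤ B.m j i + 1) ∧ B.graph.IsTree := by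
  have hm : ((convC k).ub B).mult = B.m := by
    funext i j
    unfold UB.mult Bimod.m
    rw [Q_eq_comp]
  rw [(convC k).af B, comm_main, hm]
  rfl

end Pool.Agent.H215.SM
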