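import Pool.Agent.H215.SM.K

set_option autoImplicit false
set_option linter.unusedSectionVars false

namespace Pool.Agent.H215.SM

open Matrix

variable {H : Type} [AddCommGroup H] [Module ℂ H]
variable {ι κ κ' : Type} [Fintype ι] [DecidableEq ι] [Fintype κ] [DecidableEq κ] [Fintype κ']
  [DecidableEq κ']

/-- The product of the algebra `H × Mat_κ × Hom(ℂ^κ, ℂ^ι)`, where `H` is an algebra with product `μ`
acting on `ℂ^ι` by `ρ`:
`(h, k, y)(h', k', y') = (h h', k k', h y' + y k')`. -/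
def extMul (μ : H →ₗ[ℂ] H →ₗ[ℂ] H) (ρ : H →ₗ[ℂ] Matrix ι ι ℂ) (κ : Type) [Fintype κ]
    (X Y : H × Matrix κ κ ℂ × Matrix ι κ ℂ) : H × Matrix κ κ ℂ × Matrix ι κ ℂ :=
  (μ X.1 Y.1, X.2.1 * Y.2.1, ρ X.1 * Y.2.2 + X.2.2 * Y.2.1)

/-- The product of the algebra `H × Mat_κ × Hom(ℂ^ι, ℂ^κ)`:
`(h, k, y)(h', k', y') = (h h', k k', k y' + y h')`. -/
def coextMul (μ : H →ₗ[ℂ] H →ₗ[ℂ] H) (ρ : H →ₗ[ℂ] Matrix ι ι ℂ) (κ : Type) [Fintype κ]
    (X Y : H × Matrix κ κ ℂ × Matrix κ ι ℂ) : H × Matrix κ κ ℂ × Matrix κ ι ℂ :=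
  (μ X.1 Y.1, X.2.1 * Y.2.1, X.2.1 * Y.2.2 + X.2.2 * ρ Y.1)

/-- representation of linear forms by the trace -/
lemma exists_trace (f : Matrix ι κ ℂ →ₗ[ℂ] ℂ) : ∃ P : Matrix κ ι ℂ, ∀ y, f y = trace (y * P) := by
  refine ⟨Matrix.of fun j i => f (Matrix.single i j 1), fun y => ?_⟩
  conv_lhs => rw [matrix_eq_sum_single y]
  simp only [map_sum, Matrix.trace, Matrix.diag_apply, Matrix.mul_apply, Matrix.of_apply]
  refine Finset.sum_congr rfl fun i _ => Finset.sum_congr rfl fun j _ => ?_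
  rw [show Matrix.single i j (y i j) = y i j • Matrix.single i j (1 : ℂ) by
    rw [Matrix.smul_single, smul_eq_mul, mul_one], map_smul, smul_eq_mul]

/-- the standard inclusion -/
def Jm (ι κ' : Type) [DecidableEq ι] : Matrix (ι ⊕ κ') ι ℂ := fun p j => Sum.elim (fun i => if i = j then 1 else 0) (fun _ => 0) p

/-- the standard projection -/
def Jp (ι κ' : Type) [DecidableEq ι] : Matrix ι (ι ⊕ κ') ℂ := fun j p => Sum.elim (fun i => if j = i then 1 else 0) (fun _ => 0) p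

lemma Jp_Jm : Jp ι κ' * Jm ι κ' = 1 := by
  ext i j
  rw [Matrix.mul_apply, Fintype.sum_sum_type]
  simp [Jp, Jm, Matrix.one_apply]

lemma fb_Jm (a : Matrix ι ι ℂ) (b : Matrix ι κ' ℂ) (c : Matrix κ' ι ℂ) (e : Matrix κ' κ' ℂ) (p j) :
    (fromBlocks a b c e * Jm ι κ') p j = Sum.elim (fun i => a i j) (fun i => c i j) p := by
  rw [Matrix.mul_apply, Fintype.sum_sum_type]
  cases p with
  | inl i => simp [Jm]
  | inr i => simp [Jm]

lemma Jm_mul (a : Matrix ι ι ℂ) (p j) :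
    (Jm ι κ' * a) p j = Sum.elim (fun i => a i j) (fun _ => 0) p := by
  rw [Matrix.mul_apply]
  cases p with
  | inl i => simp [Jm]
  | inr i => simp [Jm]

lemma comm_iff (k : Matrix (ι ⊕ κ') (ι ⊕ κ') ℂ) (a : Matrix ι ι ℂ) :
    k * Jm ι κ' = Jm ι κ' * a ↔ k = fromBlocks a k.toBlocks₁₂ 0 k.toBlocks₂₂ := by
  constructor
  · intro h
    have h1 : k.toBlocks₁₁ = a := by
      ext i j
      have := congrFun (congrFun h (Sum.inl i)) j
      rw [← fromBlocks_toBlocks k, fb_Jm, Jm_mul] at this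
      exact this
    have h2 : k.toBlocks₂₁ = 0 := by
      ext i j
      have := congrFun (congrFun h (Sum.inr i)) j
      rw [← fromBlocks_toBlocks k, fb_Jm, Jm_mul] at this
      exact this
    conv_lhs => rw [← fromBlocks_toBlocks k, h1, h2]
  · intro h
    rw [h]
    ext p j
    rw [fb_Jm, Jm_mul]
    cases p <;> rfl

/-- transport along a bijection of index sets -/
lemma ext_reindex (μ : H →ₗ[ℂ] H →ₗ[ℂ] H) (ρ : H →ₗ[ℂ] Matrix ι ι ℂ) (e : κ ≃ κ')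
    (h : Exact (extMul μ ρ κ')) : Exact (extMul μ ρ κ) := by
  refine exact_transfer ((LinearEquiv.refl ℂ H).prodCongr ((Matrix.reindexLinearEquiv ℂ ℂ e e).prodCongr
    (Matrix.reindexLinearEquiv ℂ ℂ (Equiv.refl ι) e))) ?_ h
  intro X Y
  refine Prod.ext rfl (Prod.ext ?_ ?_)
  · show (X.2.1 * Y.2.1).submatrix e.symm e.symm = X.2.1.submatrix e.symm e.symm * Y.2.1.submatrix e.symm e.symm
    rw [Matrix.submatrix_mul_equiv]
  · show (ρ X.1 * Y.2.2 + X.2.2 * Y.2.1).submatrix (Equiv.refl ι).symm e.symm =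
      ρ X.1 * Y.2.2.submatrix (Equiv.refl ι).symm e.symm +
        X.2.2.submatrix (Equiv.refl ι).symm e.symm * Y.2.1.submatrix e.symm e.symm
    rw [Matrix.submatrix_mul_equiv, Matrix.submatrix_add]
    rfl

/-- adding a copy of the module: from the small to the big algebra -/
theorem red_up (μ : H →ₗ[ℂ] H →ₗ[ℂ] H) (ρ : H →ₗ[ℂ] Matrix ι ι ℂ)
    (h : Exact (extMul μ ρ κ')) : Exact (extMul μ ρ (ι ⊕ κ')) := by
  obtain ⟨l', hl'⟩ := h
  -- the linear form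
  let pr : (H × Matrix (ι ⊕ κ') (ι ⊕ κ') ℂ × Matrix ι (ι ⊕ κ') ℂ) →ₗ[ℂ] (H × Matrix κ' κ' ℂ × Matrix ι κ' ℂ) :=
    { toFun := fun X => (X.1, X.2.1.toBlocks₂₂, X.2.1.toBlocks₁₂)
      map_add' := fun X Y => rfl
      map_smul' := fun r X => rfl }
  let tr : (H × Matrix (ι ⊕ κ') (ι ⊕ κ') ℂ × Matrix ι (ι ⊕ κ') ℂ) →ₗ[ℂ] ℂ :=
    { toFun := fun X => trace (X.2.2 * Jm ι κ')
      map_add' := fun X Y => by
        show trace ((X.2.2 + Y.2.2) * Jm ι κ') = _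
        rw [Matrix.add_mul, trace_add]
      map_smul' := fun r X => by
        show trace ((r • X.2.2) * Jm ι κ') = r • _
        rw [Matrix.smul_mul, trace_smul] }
  refine ⟨l' ∘ₗ pr + tr, ?_⟩
  rintro ⟨h, k, y⟩ hk
  -- the component k
  have h1 : k * Jm ι κ' = Jm ι κ' * ρ h := by
    rw [Matrix.ext_iff_trace_mul_left]
    intro y₁
    have := hk (0, 0, y₁)
    simp only [LinearMap.add_apply, LinearMap.comp_apply, extMul, map_zero, LinearMap.zero_apply,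
      Matrix.mul_zero, Matrix.zero_mul, add_zero, zero_add, Prod.mk_sub_mk, sub_self] at this
    have e1 : pr (0, 0, ρ h * y₁ - y₁ * k) = 0 := rfl
    have e2 : tr (0, 0, ρ h * y₁ - y₁ * k) = trace ((ρ h * y₁ - y₁ * k) * Jm ι κ') := rfl
    rw [e1, map_zero, zero_add, e2, Matrix.sub_mul, trace_sub, sub_eq_zero] at this
    rw [← Matrix.mul_assoc, ← this, Matrix.mul_assoc, trace_mul_comm, Matrix.mul_assoc]
  have h2 := (comm_iff k (ρ h)).1 h1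
  -- the reduced element
  have h3 : (h, k.toBlocks₂₂, k.toBlocks₁₂) = (0 : H × Matrix κ' κ' ℂ × Matrix ι κ' ℂ) := by
    apply hl'
    rintro ⟨h', k', y'⟩
    have := hk (h', fromBlocks (ρ h') y' 0 k', 0)
    have hc : fromBlocks (ρ h') y' 0 k' * Jm ι κ' = Jm ι κ' * ρ h' := by
      rw [comm_iff]; simp
    have e1 : tr (extMul μ ρ (ι ⊕ κ') (h, k, y) (h', fromBlocks (ρ h') y' 0 k', 0) -
        extMul μ ρ (ι ⊕ κ') (h', fromBlocks (ρ h') y' 0 k', 0) (h, k, y)) = 0 := by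
      show trace (((ρ h * 0 + y * fromBlocks (ρ h') y' 0 k') - (ρ h' * y + 0 * k)) * Jm ι κ') = 0
      rw [Matrix.mul_zero, zero_add, Matrix.zero_mul, add_zero, Matrix.sub_mul, trace_sub,
        Matrix.mul_assoc, hc, ← Matrix.mul_assoc, trace_mul_comm, Matrix.mul_assoc, sub_self]
    have e2 : pr (extMul μ ρ (ι ⊕ κ') (h, k, y) (h', fromBlocks (ρ h') y' 0 k', 0) -
        extMul μ ρ (ι ⊕ κ') (h', fromBlocks (ρ h') y' 0 k', 0) (h, k, y)) =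
        extMul μ ρ κ' (h, k.toBlocks₂₂, k.toBlocks₁₂) (h', k', y') -
          extMul μ ρ κ' (h', k', y') (h, k.toBlocks₂₂, k.toBlocks₁₂) := by
      have f1 : k * fromBlocks (ρ h') y' 0 k' = fromBlocks (ρ h * ρ h') (ρ h * y' + k.toBlocks₁₂ * k') 0 (k.toBlocks₂₂ * k') := by
        conv_lhs => rw [h2]
        rw [fromBlocks_multiply]
        simp
      have f2 : fromBlocks (ρ h') y' 0 k' * k = fromBlocks (ρ h' * ρ h) (ρ h' * k.toBlocks₁₂ + y' * k.toBlocks₂₂) 0 (k' * k.toBlocks₂₂) := by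
        conv_lhs => rw [h2]
        rw [fromBlocks_multiply]
        simp
      refine Prod.ext rfl (Prod.ext ?_ ?_)
      · show (k * fromBlocks (ρ h') y' 0 k').toBlocks₂₂ - (fromBlocks (ρ h') y' 0 k' * k).toBlocks₂₂ = _
        rw [f1, f2]; rfl
      · show (k * fromBlocks (ρ h') y' 0 k').toBlocks₁₂ - (fromBlocks (ρ h') y' 0 k' * k).toBlocks₁₂ = _
        rw [f1, f2]; rfl
    rw [LinearMap.add_apply, LinearMap.comp_apply, e1, add_zero, e2] at this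
    exact this
  have h4 : h = 0 := congrArg Prod.fst h3
  have h5 : k.toBlocks₂₂ = 0 := congrArg (fun p => p.2.1) h3
  have h6 : k.toBlocks₁₂ = 0 := congrArg (fun p => p.2.2) h3
  have h7 : k = 0 := by
    rw [h2, h4, h5, h6, map_zero, fromBlocks_zero]
  subst h4
  subst h7
  have h8 : Jm ι κ' * y = 0 := by
    rw [Matrix.ext_iff_trace_mul_left]
    intro k₁
    have := hk (0, k₁, 0)
    have e1 : pr (extMul μ ρ (ι ⊕ κ') (0, 0, y) (0, k₁, 0) - extMul μ ρ (ι ⊕ κ') (0, k₁, 0) (0, 0, y)) = 0 := by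
      refine Prod.ext ?_ (Prod.ext ?_ ?_)
      · show μ 0 0 - μ 0 0 = 0
        rw [sub_self]
      · show (0 * k₁ - k₁ * 0).toBlocks₂₂ = 0
        rw [Matrix.zero_mul, Matrix.mul_zero, sub_self]; rfl
      · show (0 * k₁ - k₁ * 0).toBlocks₁₂ = 0
        rw [Matrix.zero_mul, Matrix.mul_zero, sub_self]; rfl
    have e2 : tr (extMul μ ρ (ι ⊕ κ') (0, 0, y) (0, k₁, 0) - extMul μ ρ (ι ⊕ κ') (0, k₁, 0) (0, 0, y)) =
        trace (y * k₁ * Jm ι κ') := by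
      show trace (((ρ 0 * 0 + y * k₁) - (ρ 0 * y + 0 * 0)) * Jm ι κ') = _
      simp
    rw [LinearMap.add_apply, LinearMap.comp_apply, e1, map_zero, zero_add, e2] at this
    rw [Matrix.mul_zero, trace_zero, ← this, ← Matrix.mul_assoc, trace_mul_comm, ← Matrix.mul_assoc]
  have h9 : y = 0 := by
    have := congrArg (fun A => Jp ι κ' * A) h8
    simp only [← Matrix.mul_assoc, Jp_Jm, Matrix.one_mul, Matrix.mul_zero] at this
    exact this
  rw [h9]; rfl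

/-- injectivity or surjectivity of a generic form -/
lemma inj_or (P : Matrix κ ι ℂ) (hP : ∀ y : Matrix ι κ ℂ, y * P = 0 → P * y = 0 → y = 0) :
    (∀ v, P *ᵥ v = 0 → v = 0) ∨ (∀ w, w ᵥ* P = 0 → w = 0) := by
  by_contra hne
  push Not at hne
  obtain ⟨⟨v, hv, hv0⟩, w, hw, hw0⟩ := hne
  have := hP (vecMulVec v w) (by rw [vecMulVec_mul, hw, vecMulVec_zero]) (by rw [mul_vecMulVec, hv, zero_vecMulVec])
  obtain ⟨i, hi⟩ := Function.ne_iff.1 hv0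
  obtain ⟨j, hj⟩ := Function.ne_iff.1 hw0
  have h1 := congrFun (congrFun this i) j
  rw [vecMulVec_apply] at h1
  exact (mul_ne_zero hi hj) h1

lemma inj_of_inj' (P : Matrix κ ι ℂ) (hc : Fintype.card ι ≤ Fintype.card κ)
    (h : ∀ w, w ᵥ* P = 0 → w = 0) : ∀ v, P *ᵥ v = 0 → v = 0 := by
  have hinj : Function.Injective P.vecMulLinear := by
    rw [injective_iff_map_eq_zero]
    intro w hw
    exact h w hw
  have h1 := LinearMap.finrank_le_finrank_of_injective hinj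
  rw [Module.finrank_fintype_fun_eq_card, Module.finrank_fintype_fun_eq_card] at h1
  have h2 : Module.finrank ℂ (κ → ℂ) = Module.finrank ℂ (ι → ℂ) := by
    rw [Module.finrank_fintype_fun_eq_card, Module.finrank_fintype_fun_eq_card]; omega
  have hs : Function.Surjective P.vecMulLinear :=
    (LinearMap.injective_iff_surjective_of_finrank_eq_finrank h2).1 hinj
  intro v hv
  funext i
  obtain ⟨w, hw⟩ := hs (Pi.single i 1)
  have h3 : (w ᵥ* P) ⬝ᵥ v = w ⬝ᵥ (P *ᵥ v) := by rw [dotProduct_mulVec]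
  rw [hv, dotProduct_zero, show w ᵥ* P = Pi.single i 1 from hw, single_dotProduct, one_mul] at h3
  exact h3

lemma exists_equiv {X Y : Type} [AddCommGroup X] [Module ℂ X] [AddCommGroup Y] [Module ℂ Y]
    [FiniteDimensional ℂ X] [FiniteDimensional ℂ Y] (f₁ f₂ : X →ₗ[ℂ] Y)
    (h₁ : Function.Injective f₁) (h₂ : Function.Injective f₂) :
    ∃ g : Y ≃ₗ[ℂ] Y, ∀ x, g (f₁ x) = f₂ x := by
  obtain ⟨C₁, hC₁⟩ := Submodule.exists_isCompl (LinearMap.range f₁)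
  obtain ⟨C₂, hC₂⟩ := Submodule.exists_isCompl (LinearMap.range f₂)
  have r₁ := LinearMap.finrank_range_of_inj h₁
  have r₂ := LinearMap.finrank_range_of_inj h₂
  have c₁ := Submodule.finrank_add_eq_of_isCompl hC₁
  have c₂ := Submodule.finrank_add_eq_of_isCompl hC₂
  have hc : Module.finrank ℂ C₁ = Module.finrank ℂ C₂ := by omega
  let e : C₁ ≃ₗ[ℂ] C₂ := LinearEquiv.ofFinrankEq _ _ hc
  let r : LinearMap.range f₁ ≃ₗ[ℂ] LinearMap.range f₂ :=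
    (LinearEquiv.ofInjective f₁ h₁).symm.trans (LinearEquiv.ofInjective f₂ h₂)
  refine ⟨(Submodule.prodEquivOfIsCompl _ _ hC₁).symm.trans
    ((r.prodCongr e).trans (Submodule.prodEquivOfIsCompl _ _ hC₂)), fun x => ?_⟩
  have e1 : (Submodule.prodEquivOfIsCompl _ _ hC₁).symm (f₁ x) = (⟨f₁ x, LinearMap.mem_range_self f₁ x⟩, 0) :=
    Submodule.prodEquivOfIsCompl_symm_apply_left _ _ hC₁ ⟨f₁ x, LinearMap.mem_range_self f₁ x⟩
  have e2 : r ⟨f₁ x, LinearMap.mem_range_self f₁ x⟩ = ⟨f₂ x, LinearMap.mem_range_self f₂ x⟩ := by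
    have : (LinearEquiv.ofInjective f₁ h₁).symm ⟨f₁ x, LinearMap.mem_range_self f₁ x⟩ = x := by
      rw [LinearEquiv.symm_apply_eq]; rfl
    show (LinearEquiv.ofInjective f₂ h₂) ((LinearEquiv.ofInjective f₁ h₁).symm _) = _
    rw [this]; rfl
  rw [LinearEquiv.trans_apply, e1, LinearEquiv.trans_apply, LinearEquiv.prodCongr_apply, e2]
  simp

lemma Jm_inj (v : ι → ℂ) (h : Jm ι κ' *ᵥ v = 0) : v = 0 := by
  have := congrArg (fun u => Jp ι κ' *ᵥ u) h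
  simpa [Matrix.mulVec_mulVec, Jp_Jm] using this

lemma exists_conj (P : Matrix (ι ⊕ κ') ι ℂ) (hP : ∀ v, P *ᵥ v = 0 → v = 0) :
    ∃ G G' : Matrix (ι ⊕ κ') (ι ⊕ κ') ℂ, G * G' = 1 ∧ G' * G = 1 ∧ G' * P = Jm ι κ' := by
  obtain ⟨g, hg⟩ := exists_equiv P.mulVecLin (Jm ι κ').mulVecLin
    ((injective_iff_map_eq_zero _).2 hP) ((injective_iff_map_eq_zero _).2 Jm_inj)
  refine ⟨LinearMap.toMatrix' (g.symm : ((ι ⊕ κ') → ℂ) →ₗ[ℂ] ((ι ⊕ κ') → ℂ)),
    LinearMap.toMatrix' (g : ((ι ⊕ κ') → ℂ) →ₗ[ℂ] ((ι ⊕ κ') → ℂ)), ?_, ?_, ?_⟩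
  · rw [← LinearMap.toMatrix'_comp]; simp
  · rw [← LinearMap.toMatrix'_comp]; simp
  · apply Matrix.toLin'.injective
    rw [Matrix.toLin'_mul, Matrix.toLin'_toMatrix']
    exact LinearMap.ext fun v => hg v

theorem down_std (μ : H →ₗ[ℂ] H →ₗ[ℂ] H) (ρ : H →ₗ[ℂ] Matrix ι ι ℂ)
    (hρ : ∀ a b, ρ (μ a b) = ρ a * ρ b)
    (l : (H × Matrix (ι ⊕ κ') (ι ⊕ κ') ℂ × Matrix ι (ι ⊕ κ') ℂ) →ₗ[ℂ] ℂ)
    (hl : ∀ x, (∀ y, l (extMul μ ρ (ι ⊕ κ') x y - extMul μ ρ (ι ⊕ κ') y x) = 0) → x = 0)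
    (htr : ∀ y, l (0, 0, y) = trace (y * Jm ι κ')) : Exact (extMul μ ρ κ') := by
  let Ψ : (H × Matrix κ' κ' ℂ × Matrix ι κ' ℂ) →ₗ[ℂ] (H × Matrix (ι ⊕ κ') (ι ⊕ κ') ℂ × Matrix ι (ι ⊕ κ') ℂ) :=
    { toFun := fun X => (X.1, fromBlocks (ρ X.1) X.2.2 0 X.2.1, 0)
      map_add' := fun X Y => by
        refine Prod.ext rfl (Prod.ext ?_ ?_)
        · show fromBlocks (ρ (X.1 + Y.1)) (X.2.2 + Y.2.2) 0 (X.2.1 + Y.2.1) = _ + _
          rw [map_add, fromBlocks_add, add_zero]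
        · exact (add_zero _).symm
      map_smul' := fun r X => by
        refine Prod.ext rfl (Prod.ext ?_ ?_)
        · show fromBlocks (ρ (r • X.1)) (r • X.2.2) 0 (r • X.2.1) = r • _
          rw [map_smul, fromBlocks_smul, smul_zero]
        · exact (smul_zero _).symm }
  have hΨ : ∀ α β, Ψ (extMul μ ρ κ' α β) = extMul μ ρ (ι ⊕ κ') (Ψ α) (Ψ β) := by
    intro α β
    refine Prod.ext rfl (Prod.ext ?_ ?_)
    · show fromBlocks (ρ (μ α.1 β.1)) (ρ α.1 * β.2.2 + α.2.2 * β.2.1) 0 (α.2.1 * β.2.1) =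
        fromBlocks (ρ α.1) α.2.2 0 α.2.1 * fromBlocks (ρ β.1) β.2.2 0 β.2.1
      rw [fromBlocks_multiply, hρ]
      simp
    · show (0 : Matrix ι (ι ⊕ κ') ℂ) = ρ α.1 * 0 + 0 * _
      rw [Matrix.mul_zero, Matrix.zero_mul, add_zero]
  refine ⟨l ∘ₗ Ψ, ?_⟩
  rintro ⟨h, k', y'⟩ hk
  have hk' : ∀ β, l (extMul μ ρ (ι ⊕ κ') (Ψ (h, k', y')) (Ψ β) - extMul μ ρ (ι ⊕ κ') (Ψ β) (Ψ (h, k', y'))) = 0 := by
    intro β
    rw [← hΨ, ← hΨ, ← map_sub]
    exact hk β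
  set k : Matrix (ι ⊕ κ') (ι ⊕ κ') ℂ := fromBlocks (ρ h) y' 0 k' with hkdef
  have hkJ : k * Jm ι κ' = Jm ι κ' * ρ h := by
    rw [comm_iff, hkdef]; simp
  let fb : Matrix (ι ⊕ κ') ι ℂ →ₗ[ℂ] ℂ :=
    { toFun := fun w => l (0, k * (w * Jp ι κ') - (w * Jp ι κ') * k, 0)
      map_add' := fun w w' => by
        rw [← map_add]
        congr 1
        refine Prod.ext (add_zero _).symm (Prod.ext ?_ (add_zero _).symm)
        show k * ((w + w') * Jp ι κ') - ((w + w') * Jp ι κ') * k = (k * (w * Jp ι κ') - (w * Jp ι κ') * k) +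
          (k * (w' * Jp ι κ') - (w' * Jp ι κ') * k)
        rw [Matrix.add_mul, Matrix.mul_add, Matrix.add_mul]
        abel
      map_smul' := fun r w => by
        rw [← map_smul]
        congr 1
        refine Prod.ext (smul_zero _).symm (Prod.ext ?_ (smul_zero _).symm)
        show k * ((r • w) * Jp ι κ') - ((r • w) * Jp ι κ') * k = r • (k * (w * Jp ι κ') - (w * Jp ι κ') * k)
        rw [Matrix.smul_mul, Matrix.mul_smul, Matrix.smul_mul, smul_sub] }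
  obtain ⟨y₀, hy₀⟩ := exists_trace fb
  have hfb : ∀ w : Matrix (ι ⊕ κ') ι ℂ, l (0, k * (w * Jp ι κ') - (w * Jp ι κ') * k, 0) = trace (w * y₀) := hy₀
  have hX := hl (h, k, -y₀) (by
    rintro ⟨h₁, k₁, y₁⟩
    obtain ⟨D, hD⟩ : ∃ D : Matrix (ι ⊕ κ') ι ℂ, D = k₁ * Jm ι κ' - Jm ι κ' * ρ h₁ := ⟨_, rfl⟩
    have h2 : (k₁ - D * Jp ι κ') * Jm ι κ' = Jm ι κ' * ρ h₁ := by
      rw [Matrix.sub_mul, Matrix.mul_assoc, Jp_Jm, Matrix.mul_one, hD]; abel
    have h3 := (comm_iff _ _).1 h2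
    have h4 := hk' (h₁, (k₁ - D * Jp ι κ').toBlocks₂₂, (k₁ - D * Jp ι κ').toBlocks₁₂)
    have h5 : Ψ (h₁, (k₁ - D * Jp ι κ').toBlocks₂₂, (k₁ - D * Jp ι κ').toBlocks₁₂) = (h₁, k₁ - D * Jp ι κ', 0) :=
      Prod.ext rfl (Prod.ext h3.symm rfl)
    have h6 : Ψ (h, k', y') = (h, k, 0) := rfl
    rw [h5, h6] at h4
    have h7 : extMul μ ρ (ι ⊕ κ') (h, k, -y₀) (h₁, k₁, y₁) - extMul μ ρ (ι ⊕ κ') (h₁, k₁, y₁) (h, k, -y₀) =
        (extMul μ ρ (ι ⊕ κ') (h, k, 0) (h₁, k₁ - D * Jp ι κ', 0) -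
          extMul μ ρ (ι ⊕ κ') (h₁, k₁ - D * Jp ι κ', 0) (h, k, 0)) +
        ((0, k * (D * Jp ι κ') - (D * Jp ι κ') * k, 0) +
        (0, 0, (ρ h * y₁ - y₁ * k) - (y₀ * k₁ - ρ h₁ * y₀))) := by
      refine Prod.ext ?_ (Prod.ext ?_ ?_)
      · show μ h h₁ - μ h₁ h = μ h h₁ - μ h₁ h + (0 + 0)
        abel
      · show k * k₁ - k₁ * k = k * (k₁ - D * Jp ι κ') - (k₁ - D * Jp ι κ') * k +
          (k * (D * Jp ι κ') - (D * Jp ι κ') * k + 0)
        rw [Matrix.mul_sub, Matrix.sub_mul]; abel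
      · show (ρ h * y₁ + (-y₀) * k₁) - (ρ h₁ * (-y₀) + y₁ * k) =
          (ρ h * 0 + 0 * _ - (ρ h₁ * 0 + 0 * k)) + (0 + ((ρ h * y₁ - y₁ * k) - (y₀ * k₁ - ρ h₁ * y₀)))
        rw [Matrix.mul_zero, Matrix.mul_zero, Matrix.zero_mul, Matrix.zero_mul, Matrix.neg_mul, Matrix.mul_neg]
        abel
    rw [h7, map_add, h4, zero_add, map_add, hfb, htr, Matrix.sub_mul, trace_sub, Matrix.sub_mul, trace_sub,
      Matrix.sub_mul, trace_sub]
    have t1 : trace (ρ h * y₁ * Jm ι κ') = trace (y₁ * k * Jm ι κ') := by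
      rw [Matrix.mul_assoc y₁, hkJ, ← Matrix.mul_assoc, Matrix.mul_assoc, trace_mul_comm]
    have t2 : trace (D * y₀) = trace (y₀ * k₁ * Jm ι κ') - trace (ρ h₁ * y₀ * Jm ι κ') := by
      rw [trace_mul_comm, hD, Matrix.mul_sub, trace_sub, ← Matrix.mul_assoc, ← Matrix.mul_assoc,
        trace_mul_comm (y₀ * Jm ι κ'), ← Matrix.mul_assoc]
    rw [t1, t2]
    ring)
  have h1 : h = 0 := congrArg Prod.fst hX
  have h2 : k = 0 := congrArg (fun p => p.2.1) hX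
  refine Prod.ext h1 (Prod.ext ?_ ?_)
  · have := congrArg toBlocks₂₂ h2
    rw [hkdef, toBlocks_fromBlocks₂₂] at this
    rw [this]; rfl
  · have := congrArg toBlocks₁₂ h2
    rw [hkdef, toBlocks_fromBlocks₁₂] at this
    rw [this]; rfl

/-- pairing property of the trace form of a nondegenerate exact form -/
lemma pair_prop (μ : H →ₗ[ℂ] H →ₗ[ℂ] H) (ρ : H →ₗ[ℂ] Matrix ι ι ℂ)
    (l : (H × Matrix κ κ ℂ × Matrix ι κ ℂ) →ₗ[ℂ] ℂ)
    (hl : ∀ x, (∀ y, l (extMul μ ρ κ x y - extMul μ ρ κ y x) = 0) → x = 0)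
    (P : Matrix κ ι ℂ) (hP : ∀ y, l (0, 0, y) = trace (y * P)) :
    ∀ y : Matrix ι κ ℂ, y * P = 0 → P * y = 0 → y = 0 := by
  intro y h1 h2
  have := hl (0, 0, y) (by
    rintro ⟨h₁, k₁, y₁⟩
    have e : extMul μ ρ κ (0, 0, y) (h₁, k₁, y₁) - extMul μ ρ κ (h₁, k₁, y₁) (0, 0, y) =
        (0, 0, y * k₁ - ρ h₁ * y) := by
      refine Prod.ext ?_ (Prod.ext ?_ ?_)
      · show μ 0 h₁ - μ h₁ 0 = 0
        simp
      · show 0 * k₁ - k₁ * 0 = 0
        simp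
      · show (ρ 0 * y₁ + y * k₁) - (ρ h₁ * y + y₁ * 0) = y * k₁ - ρ h₁ * y
        simp
    rw [e, hP, Matrix.sub_mul, trace_sub, Matrix.mul_assoc (ρ h₁), h1, Matrix.mul_zero, trace_zero, sub_zero,
      Matrix.mul_assoc, trace_mul_comm, Matrix.mul_assoc, h2, Matrix.mul_zero, trace_zero])
  exact congrArg (fun p => p.2.2) this

lemma exists_trace_of_exact (μ : H →ₗ[ℂ] H →ₗ[ℂ] H) (ρ : H →ₗ[ℂ] Matrix ι ι ℂ)
    (l : (H × Matrix κ κ ℂ × Matrix ι κ ℂ) →ₗ[ℂ] ℂ) :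
    ∃ P : Matrix κ ι ℂ, ∀ y, l (0, 0, y) = trace (y * P) :=
  exists_trace (l ∘ₗ (LinearMap.inr ℂ H (Matrix κ κ ℂ × Matrix ι κ ℂ)) ∘ₗ
    (LinearMap.inr ℂ (Matrix κ κ ℂ) (Matrix ι κ ℂ)))

theorem red_down (μ : H →ₗ[ℂ] H →ₗ[ℂ] H) (ρ : H →ₗ[ℂ] Matrix ι ι ℂ)
    (hρ : ∀ a b, ρ (μ a b) = ρ a * ρ b) (h : Exact (extMul μ ρ (ι ⊕ κ'))) :
    Exact (extMul μ ρ κ') := by
  obtain ⟨l, hl⟩ := h
  obtain ⟨P, hP⟩ := exists_trace_of_exact μ ρ l
  have hinj : ∀ v, P *ᵥ v = 0 → v = 0 := by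
    rcases inj_or P (pair_prop μ ρ l hl P hP) with h | h
    · exact h
    · exact inj_of_inj' P (by simp) h
  obtain ⟨G, G', hGG', hG'G, hG'P⟩ := exists_conj P hinj
  let θ : (H × Matrix (ι ⊕ κ') (ι ⊕ κ') ℂ × Matrix ι (ι ⊕ κ') ℂ) →ₗ[ℂ]
      (H × Matrix (ι ⊕ κ') (ι ⊕ κ') ℂ × Matrix ι (ι ⊕ κ') ℂ) :=
    { toFun := fun X => (X.1, G * X.2.1 * G', X.2.2 * G')
      map_add' := fun X Y => by
        refine Prod.ext rfl (Prod.ext ?_ ?_)
        · show G * (X.2.1 + Y.2.1) * G' = _ + _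
          rw [Matrix.mul_add, Matrix.add_mul]
        · show (X.2.2 + Y.2.2) * G' = _ + _
          rw [Matrix.add_mul]
      map_smul' := fun r X => by
        refine Prod.ext rfl (Prod.ext ?_ ?_)
        · show G * (r • X.2.1) * G' = r • _
          rw [Matrix.mul_smul, Matrix.smul_mul]
        · show (r • X.2.2) * G' = r • _
          rw [Matrix.smul_mul] }
  have hθ : ∀ X Y, θ (extMul μ ρ (ι ⊕ κ') X Y) = extMul μ ρ (ι ⊕ κ') (θ X) (θ Y) := by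
    intro X Y
    have c : ∀ A B : Matrix (ι ⊕ κ') (ι ⊕ κ') ℂ, G * A * G' * (G * B * G') = G * (A * B) * G' := by
      intro A B
      have : G * A * G' * (G * B * G') = G * A * (G' * G) * B * G' := by simp only [Matrix.mul_assoc]
      rw [this, hG'G, Matrix.mul_one]
      simp only [Matrix.mul_assoc]
    have c' : ∀ (A : Matrix ι (ι ⊕ κ') ℂ) (B : Matrix (ι ⊕ κ') (ι ⊕ κ') ℂ),
        A * G' * (G * B * G') = A * B * G' := by
      intro A B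
      have : A * G' * (G * B * G') = A * (G' * G) * B * G' := by simp only [Matrix.mul_assoc]
      rw [this, hG'G, Matrix.mul_one]
    refine Prod.ext rfl (Prod.ext ?_ ?_)
    · show G * (X.2.1 * Y.2.1) * G' = G * X.2.1 * G' * (G * Y.2.1 * G')
      rw [c]
    · show (ρ X.1 * Y.2.2 + X.2.2 * Y.2.1) * G' = ρ X.1 * (Y.2.2 * G') + X.2.2 * G' * (G * Y.2.1 * G')
      rw [c', Matrix.add_mul, Matrix.mul_assoc]
  have hinv : ∀ X, θ (X.1, G' * X.2.1 * G, X.2.2 * G) = X := by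
    intro X
    refine Prod.ext rfl (Prod.ext ?_ ?_)
    · show G * (G' * X.2.1 * G) * G' = X.2.1
      have : G * (G' * X.2.1 * G) * G' = (G * G') * X.2.1 * (G * G') := by simp only [Matrix.mul_assoc]
      rw [this, hGG', Matrix.one_mul, Matrix.mul_one]
    · show X.2.2 * G * G' = X.2.2
      rw [Matrix.mul_assoc, hGG', Matrix.mul_one]
  have hinj0 : ∀ X, θ X = 0 → X = 0 := by
    intro X hX
    have h1 : X.1 = 0 := congrArg Prod.fst hX
    have h2 : G * X.2.1 * G' = 0 := congrArg (fun p => p.2.1) hX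
    have h3 : X.2.2 * G' = 0 := congrArg (fun p => p.2.2) hX
    refine Prod.ext h1 (Prod.ext ?_ ?_)
    · have : X.2.1 = (G' * G) * X.2.1 * (G' * G) := by rw [hG'G, Matrix.one_mul, Matrix.mul_one]
      rw [this]
      have : (G' * G) * X.2.1 * (G' * G) = G' * (G * X.2.1 * G') * G := by simp only [Matrix.mul_assoc]
      rw [this, h2]; simp
    · have : X.2.2 = X.2.2 * (G' * G) := by rw [hG'G, Matrix.mul_one]
      rw [this, ← Matrix.mul_assoc, h3]; simp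
  apply down_std μ ρ hρ (l ∘ₗ θ)
  · intro x hx
    apply hinj0
    apply hl
    intro y
    have := hx (y.1, G' * y.2.1 * G, y.2.2 * G)
    rw [LinearMap.comp_apply, map_sub, hθ, hθ, hinv] at this
    exact this
  · intro y
    have e : θ (0, 0, y) = (0, 0, y * G') := by
      refine Prod.ext rfl (Prod.ext ?_ rfl)
      show G * 0 * G' = 0
      simp
    rw [LinearMap.comp_apply, e, hP, Matrix.mul_assoc, hG'P]

/-- **Reduction**: a factor `Mat_κ` with `|κ| = |ι| + |κ'|` can be replaced by `Mat_κ'`. -/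
theorem reduction (μ : H →ₗ[ℂ] H →ₗ[ℂ] H) (ρ : H →ₗ[ℂ] Matrix ι ι ℂ)
    (hρ : ∀ a b, ρ (μ a b) = ρ a * ρ b) (hc : Fintype.card κ = Fintype.card ι + Fintype.card κ') :
    Exact (extMul μ ρ κ) ↔ Exact (extMul μ ρ κ') := by
  have e : κ ≃ ι ⊕ κ' := Fintype.equivOfCardEq (by simpa using hc)
  exact ⟨fun h => red_down μ ρ hρ (ext_reindex μ ρ e.symm h), fun h => ext_reindex μ ρ e (red_up μ ρ h)⟩

/-- the opposite algebra -/
lemma exact_op {A : Type} [AddCommGroup A] [Module ℂ A] {mul : A → A → A} (h : Exact mul) :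
    Exact (fun x y => mul y x) := by
  obtain ⟨l, hl⟩ := h
  refine ⟨l, fun x hx => hl x fun y => ?_⟩
  have := hx y
  rw [map_sub] at this ⊢
  linear_combination -this

/-- the transposed representation -/
def rT (ρ : H →ₗ[ℂ] Matrix ι ι ℂ) : H →ₗ[ℂ] Matrix ι ι ℂ :=
  { toFun := fun h => (ρ h)ᵀ
    map_add' := fun a b => by rw [map_add, transpose_add]
    map_smul' := fun r a => by rw [map_smul, transpose_smul]; rfl }

lemma rT_mul (μ : H →ₗ[ℂ] H →ₗ[ℂ] H) (ρ : H →ₗ[ℂ] Matrix ι ι ℂ) (hρ : ∀ a b, ρ (μ a b) = ρ a * ρ b) :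
    ∀ a b, rT ρ (μ.flip a b) = rT ρ a * rT ρ b := by
  intro a b
  show (ρ (μ b a))ᵀ = (ρ a)ᵀ * (ρ b)ᵀ
  rw [hρ, transpose_mul]

lemma coext_iff (μ : H →ₗ[ℂ] H →ₗ[ℂ] H) (ρ : H →ₗ[ℂ] Matrix ι ι ℂ) :
    Exact (coextMul μ ρ κ) ↔ Exact (extMul μ.flip (rT ρ) κ) := by
  let Φ : (H × Matrix κ κ ℂ × Matrix κ ι ℂ) ≃ₗ[ℂ] (H × Matrix κ κ ℂ × Matrix ι κ ℂ) :=
    (LinearEquiv.refl ℂ H).prodCongr ((Matrix.transposeLinearEquiv κ κ ℂ ℂ).prodCongr
      (Matrix.transposeLinearEquiv κ ι ℂ ℂ))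
  have hΦ : ∀ X Y, Φ (coextMul μ ρ κ X Y) = (fun x y => extMul μ.flip (rT ρ) κ y x) (Φ X) (Φ Y) := by
    intro X Y
    refine Prod.ext rfl (Prod.ext ?_ ?_)
    · show (X.2.1 * Y.2.1)ᵀ = Y.2.1ᵀ * X.2.1ᵀ
      rw [transpose_mul]
    · show (X.2.1 * Y.2.2 + X.2.2 * ρ Y.1)ᵀ = (ρ Y.1)ᵀ * X.2.2ᵀ + Y.2.2ᵀ * X.2.1ᵀ
      rw [transpose_add, transpose_mul, transpose_mul, add_comm]
  constructor
  · intro h
    exact exact_op (exact_transfer Φ.symm (symm_hom Φ hΦ) h)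
  · intro h
    exact exact_transfer Φ hΦ (exact_op h)

/-- reduction for the opposite orientation -/
theorem coreduction (μ : H →ₗ[ℂ] H →ₗ[ℂ] H) (ρ : H →ₗ[ℂ] Matrix ι ι ℂ)
    (hρ : ∀ a b, ρ (μ a b) = ρ a * ρ b) (hc : Fintype.card κ = Fintype.card ι + Fintype.card κ') :
    Exact (coextMul μ ρ κ) ↔ Exact (coextMul μ ρ κ') := by
  rw [coext_iff, coext_iff]
  exact reduction μ.flip (rT ρ) (rT_mul μ ρ hρ) hc

end Pool.Agent.H215.SM
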