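import Pool.Agent.H215.SM.Cs

set_option autoImplicit false
set_option linter.unusedSectionVars false

namespace Pool.Agent.H215.SM

open Matrix

section defs
variable {V : Type}

/-- `S`: the families of `n_v × n_v` matrices, `v : V`, whose component at the vertex `z` is zero;
this is the product of the matrix algebras `Mat_{n_v}` over the vertices `v ≠ z`. -/
def QS (n : V → ℕ) (z : V) : Submodule ℂ ((v : V) → Matrix (Fin (n v)) (Fin (n v)) ℂ) :=
  LinearMap.ker (LinearMap.proj z)

lemma mem_QS {n : V → ℕ} {z : V} {t : (v : V) → Matrix (Fin (n v)) (Fin (n v)) ℂ} :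
    t ∈ QS n z ↔ t z = 0 := Iff.rfl

/-- `M`: the direct sum of `m_{vw}` copies of the space of `n_v × n_w` matrices, `v, w : V`. -/
abbrev QM (n : V → ℕ) (m : V → V → ℕ) : Type :=
  (v w : V) → Fin (m v w) → Matrix (Fin (n v)) (Fin (n w)) ℂ

lemma QS_mul {n : V → ℕ} {z : V} (s t : QS n z) : s.1 * t.1 ∈ QS n z := by
  rw [mem_QS]
  show s.1 z * t.1 z = 0
  rw [mem_QS.1 s.2, Matrix.zero_mul]

/-- the product `(s, x)(t, y) = (st, sy + xt)` of `S ⊕ M` -/
def qmul (n : V → ℕ) (m : V → V → ℕ) (z : V) (X Y : QS n z × QM n m) : QS n z × QM n m :=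
  (⟨X.1.1 * Y.1.1, QS_mul X.1 Y.1⟩, fun v w a => X.1.1 v * Y.2 v w a + X.2 v w a * Y.1.1 w)

/-- the semisimple algebra `S`: families of `n_v × n_v` matrices, `v : V`, with zero component at `z` -/
def QSt (n : V → ℕ) (z : V) : Type := QS n z

instance QSt.grp (n : V → ℕ) (z : V) : AddCommGroup (QSt n z) := Submodule.addCommGroup (QS n z)

instance QSt.mdl (n : V → ℕ) (z : V) : Module ℂ (QSt n z) := Submodule.module (QS n z)

/-- the component at the vertex `v` -/
def QSt.at' {n : V → ℕ} {z : V} (s : QSt n z) (v : V) : Matrix (Fin (n v)) (Fin (n v)) ℂ := s.1 v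

/-- the product of `S` -/
def QSt.mul' {n : V → ℕ} {z : V} (s t : QSt n z) : QSt n z := ⟨s.1 * t.1, QS_mul s t⟩

/-- the bimodule part `s y + x t` of the product of `S ⊕ M` -/
def qAct {n : V → ℕ} {m : V → V → ℕ} {z : V} (s t : QSt n z) (x y : QM n m) : QM n m :=
  fun v w a => s.at' v * y v w a + x v w a * t.at' w

/-- the product `(s, x)(t, y) = (st, sy + xt)` of `S ⊕ M` -/
def qProd (n : V → ℕ) (m : V → V → ℕ) (z : V) (X Y : QSt n z × QM n m) : QSt n z × QM n m :=
  (X.1.mul' Y.1, qAct X.1 Y.1 X.2 Y.2)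

/-- `S ⊕ M` is Frobenius by an exact form: for some linear form `l` the form `l (xy - yx)` is
nondegenerate. -/
def QExact (n : V → ℕ) (m : V → V → ℕ) (z : V) : Prop := Exact (qProd n m z)

lemma QExact_iff (n : V → ℕ) (m : V → V → ℕ) (z : V) : QExact n m z ↔ Exact (qmul n m z) := Iff.rfl

end defs

variable {W : Type} [Fintype W] [DecidableEq W]

/-- sizes after adding a vertex `none` of size `a` -/
def sz (a : ℕ) (n : W → ℕ) : Option W → ℕ
  | none => a
  | some w => n w

/-- multiplicities after adding a vertex `none` with `c_w` copies of `V_w ⊗ V_none^*`, `w : W` -/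
def inM (m : W → W → ℕ) (c : W → ℕ) : Option W → Option W → ℕ
  | some v, some w => m v w
  | some v, none => c v
  | none, _ => 0

/-- multiplicities after adding a vertex `none` with `c_w` copies of `V_none ⊗ V_w^*`, `w : W` -/
def outM (m : W → W → ℕ) (c : W → ℕ) : Option W → Option W → ℕ
  | some v, some w => m v w
  | none, some w => c w
  | _, none => 0

section H
variable (n : W → ℕ) (m : W → W → ℕ) (c : W → ℕ) (z : W)

/-- the bilinear product -/
def qμ : (QS n z × QM n m) →ₗ[ℂ] (QS n z × QM n m) →ₗ[ℂ] (QS n z × QM n m) :=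
  LinearMap.mk₂ ℂ (qmul n m z)
    (by
      intro a b c
      refine Prod.ext (Subtype.ext ?_) ?_
      · exact add_mul _ _ _
      · funext v w i
        show (a.1.1 v + b.1.1 v) * c.2 v w i + (a.2 v w i + b.2 v w i) * c.1.1 w = _ + _ + (_ + _)
        rw [Matrix.add_mul, Matrix.add_mul]; abel)
    (by
      intro r a c
      refine Prod.ext (Subtype.ext ?_) ?_
      · exact smul_mul_assoc _ _ _
      · funext v w i
        show (r • a.1.1 v) * c.2 v w i + (r • a.2 v w i) * c.1.1 w = r • (_ + _)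
        rw [Matrix.smul_mul, Matrix.smul_mul, smul_add])
    (by
      intro a b c
      refine Prod.ext (Subtype.ext ?_) ?_
      · exact mul_add _ _ _
      · funext v w i
        show a.1.1 v * (b.2 v w i + c.2 v w i) + a.2 v w i * (b.1.1 w + c.1.1 w) = _ + _ + (_ + _)
        rw [Matrix.mul_add, Matrix.mul_add]; abel)
    (by
      intro r a c
      refine Prod.ext (Subtype.ext ?_) ?_
      · exact mul_smul_comm _ _ _
      · funext v w i
        show a.1.1 v * (r • c.2 v w i) + a.2 v w i * (r • c.1.1 w) = r • (_ + _)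
        rw [Matrix.mul_smul, Matrix.mul_smul, smul_add])

/-- index set of the module `U = ⊕ V_w^{c_w}` -/
abbrev Idx : Type := (p : (w : W) × Fin (c w)) × Fin (n p.1)

/-- the action on `U` -/
def qρ : (QS n z × QM n m) →ₗ[ℂ] Matrix (Idx n c) (Idx n c) ℂ where
  toFun X := Matrix.blockDiagonal' (fun p : (w : W) × Fin (c w) => X.1.1 p.1)
  map_add' _ _ := Matrix.blockDiagonal'_add _ _
  map_smul' _ _ := Matrix.blockDiagonal'_smul _ _

lemma qρ_apply (X : QS n z × QM n m) :
    qρ n m c z X = Matrix.blockDiagonal' (fun p : (w : W) × Fin (c w) => X.1.1 p.1) := rfl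

lemma qρ_mul (X Y : QS n z × QM n m) :
    qρ n m c z (qμ n m z X Y) = qρ n m c z X * qρ n m c z Y := by
  rw [qρ_apply, qρ_apply, qρ_apply, ← Matrix.blockDiagonal'_mul]
  rfl

lemma card_Idx : Fintype.card (Idx n c) = ∑ w, c w * n w := by
  simp only [Fintype.card_sigma, Fintype.card_fin]
  rw [Fintype.sum_sigma]
  simp

lemma bd_mul_apply {κ : Type} (M : (p : (w : W) × Fin (c w)) → Matrix (Fin (n p.1)) (Fin (n p.1)) ℂ)
    (y : Matrix (Idx n c) κ ℂ) (p : (w : W) × Fin (c w)) (i : Fin (n p.1)) (e : κ) :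
    (Matrix.blockDiagonal' M * y) ⟨p, i⟩ e = ∑ j, M p i j * y ⟨p, j⟩ e := by
  rw [Matrix.mul_apply, Fintype.sum_sigma, Finset.sum_eq_single p]
  · refine Finset.sum_congr rfl fun j _ => ?_
    rw [Matrix.blockDiagonal'_apply_eq]
  · intro q _ hq
    refine Finset.sum_eq_zero fun j _ => ?_
    rw [Matrix.blockDiagonal'_apply_ne _ _ _ (Ne.symm hq), zero_mul]
  · intro h; exact absurd (Finset.mem_univ _) h

lemma mul_bd_apply {κ : Type} (M : (p : (w : W) × Fin (c w)) → Matrix (Fin (n p.1)) (Fin (n p.1)) ℂ)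
    (y : Matrix κ (Idx n c) ℂ) (p : (w : W) × Fin (c w)) (i : Fin (n p.1)) (e : κ) :
    (y * Matrix.blockDiagonal' M) e ⟨p, i⟩ = ∑ j, y e ⟨p, j⟩ * M p j i := by
  rw [Matrix.mul_apply, Fintype.sum_sigma, Finset.sum_eq_single p]
  · refine Finset.sum_congr rfl fun j _ => ?_
    rw [Matrix.blockDiagonal'_apply_eq]
  · intro q _ hq
    refine Finset.sum_eq_zero fun j _ => ?_
    rw [Matrix.blockDiagonal'_apply_ne _ _ _ hq, mul_zero]
  · intro h; exact absurd (Finset.mem_univ _) h

/-- the linear isomorphism with the extension, for the orientation `inM` -/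
def isoIn (a : ℕ) : (QS (sz a n) (some z) × QM (sz a n) (inM m c)) ≃ₗ[ℂ]
    ((QS n z × QM n m) × Matrix (Fin a) (Fin a) ℂ × Matrix (Idx n c) (Fin a) ℂ) where
  toFun X := ((⟨fun w => X.1.1 (some w), X.1.2⟩, fun v w i => X.2 (some v) (some w) i), X.1.1 none,
    fun p e => X.2 (some p.1.1) none p.1.2 p.2 e)
  map_add' X Y := rfl
  map_smul' r X := rfl
  invFun Y := (⟨fun v => match v with
      | none => Y.2.1
      | some w => Y.1.1.1 w, Y.1.1.2⟩,
    fun v w => match v, w with
      | some v, some w => fun i => Y.1.2 v w i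
      | some v, none => fun i => Matrix.of fun p e => Y.2.2 ⟨⟨v, i⟩, p⟩ e
      | none, some _ => fun i => Fin.elim0 i
      | none, none => fun i => Fin.elim0 i)
  left_inv X := by
    refine Prod.ext (Subtype.ext ?_) ?_
    · funext v
      cases v <;> rfl
    · funext v w i
      cases v with
      | none => cases w <;> exact Fin.elim0 i
      | some v => cases w <;> rfl
  right_inv Y := rfl

/-- the linear isomorphism with the extension, for the orientation `outM` -/
def isoOut (a : ℕ) : (QS (sz a n) (some z) × QM (sz a n) (outM m c)) ≃ₗ[ℂ]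
    ((QS n z × QM n m) × Matrix (Fin a) (Fin a) ℂ × Matrix (Fin a) (Idx n c) ℂ) where
  toFun X := ((⟨fun w => X.1.1 (some w), X.1.2⟩, fun v w i => X.2 (some v) (some w) i), X.1.1 none,
    fun e p => X.2 none (some p.1.1) p.1.2 e p.2)
  map_add' X Y := rfl
  map_smul' r X := rfl
  invFun Y := (⟨fun v => match v with
      | none => Y.2.1
      | some w => Y.1.1.1 w, Y.1.1.2⟩,
    fun v w => match v, w with
      | some v, some w => fun i => Y.1.2 v w i
      | none, some w => fun i => Matrix.of fun e p => Y.2.2 e ⟨⟨w, i⟩, p⟩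
      | some _, none => fun i => Fin.elim0 i
      | none, none => fun i => Fin.elim0 i)
  left_inv X := by
    refine Prod.ext (Subtype.ext ?_) ?_
    · funext v
      cases v <;> rfl
    · funext v w i
      cases w with
      | none => cases v <;> exact Fin.elim0 i
      | some w => cases v <;> rfl
  right_inv Y := rfl

lemma in_iff (a : ℕ) : Exact (qmul (sz a n) (inM m c) (some z)) ↔
    Exact (extMul (qμ n m z) (qρ n m c z) (Fin a)) := by
  have h : ∀ X Y, isoIn n m c z a (qmul (sz a n) (inM m c) (some z) X Y) =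
      extMul (qμ n m z) (qρ n m c z) (Fin a) (isoIn n m c z a X) (isoIn n m c z a Y) := by
    intro X Y
    refine Prod.ext rfl (Prod.ext rfl ?_)
    funext p e
    obtain ⟨p, i⟩ := p
    show (X.1.1 (some p.1) * Y.2 (some p.1) none p.2 + X.2 (some p.1) none p.2 * Y.1.1 none) i e =
      (qρ n m c z (isoIn n m c z a X).1 * (isoIn n m c z a Y).2.2) ⟨p, i⟩ e +
        ((isoIn n m c z a X).2.2 * (isoIn n m c z a Y).2.1) ⟨p, i⟩ e
    rw [qρ_apply, bd_mul_apply]
    rfl
  exact ⟨exact_transfer (isoIn n m c z a).symm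
    (symm_hom (mul := qmul (sz a n) (inM m c) (some z)) (mul' := extMul (qμ n m z) (qρ n m c z) (Fin a))
      (isoIn n m c z a) h), exact_transfer (isoIn n m c z a) h⟩

lemma out_iff (a : ℕ) : Exact (qmul (sz a n) (outM m c) (some z)) ↔
    Exact (coextMul (qμ n m z) (qρ n m c z) (Fin a)) := by
  have h : ∀ X Y, isoOut n m c z a (qmul (sz a n) (outM m c) (some z) X Y) =
      coextMul (qμ n m z) (qρ n m c z) (Fin a) (isoOut n m c z a X) (isoOut n m c z a Y) := by
    intro X Y
    refine Prod.ext rfl (Prod.ext rfl ?_)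
    funext e p
    obtain ⟨p, i⟩ := p
    show (X.1.1 none * Y.2 none (some p.1) p.2 + X.2 none (some p.1) p.2 * Y.1.1 (some p.1)) e i =
      ((isoOut n m c z a X).2.1 * (isoOut n m c z a Y).2.2) e ⟨p, i⟩ +
        ((isoOut n m c z a X).2.2 * qρ n m c z (isoOut n m c z a Y).1) e ⟨p, i⟩
    rw [qρ_apply, mul_bd_apply]
    rfl
  exact ⟨exact_transfer (isoOut n m c z a).symm
    (symm_hom (mul := qmul (sz a n) (outM m c) (some z)) (mul' := coextMul (qμ n m z) (qρ n m c z) (Fin a))
      (isoOut n m c z a) h), exact_transfer (isoOut n m c z a) h⟩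

/-- a vertex of size zero can be removed -/
lemma in_zero : Exact (qmul (sz 0 n) (inM m c) (some z)) ↔ Exact (qmul n m z) := by
  rw [in_iff]
  let Φ : ((QS n z × QM n m) × Matrix (Fin 0) (Fin 0) ℂ × Matrix (Idx n c) (Fin 0) ℂ) ≃ₗ[ℂ] (QS n z × QM n m) :=
    { toFun := fun X => X.1
      map_add' := fun X Y => rfl
      map_smul' := fun r X => rfl
      invFun := fun X => (X, 0, 0)
      left_inv := fun X => Prod.ext rfl (Subsingleton.elim _ _)
      right_inv := fun X => rfl }
  exact ⟨exact_transfer Φ.symm (symm_hom (mul := extMul (qμ n m z) (qρ n m c z) (Fin 0)) (mul' := qmul n m z)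
    Φ (fun X Y => rfl)), exact_transfer Φ (fun X Y => rfl)⟩

lemma out_zero : Exact (qmul (sz 0 n) (outM m c) (some z)) ↔ Exact (qmul n m z) := by
  rw [out_iff]
  let Φ : ((QS n z × QM n m) × Matrix (Fin 0) (Fin 0) ℂ × Matrix (Fin 0) (Idx n c) ℂ) ≃ₗ[ℂ] (QS n z × QM n m) :=
    { toFun := fun X => X.1
      map_add' := fun X Y => rfl
      map_smul' := fun r X => rfl
      invFun := fun X => (X, 0, 0)
      left_inv := fun X => Prod.ext rfl (Subsingleton.elim _ _)
      right_inv := fun X => rfl }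
  exact ⟨exact_transfer Φ.symm (symm_hom (mul := coextMul (qμ n m z) (qρ n m c z) (Fin 0)) (mul' := qmul n m z)
    Φ (fun X Y => rfl)), exact_transfer Φ (fun X Y => rfl)⟩

theorem moves (a b : ℕ) :
    (a = (∑ w, c w * n w) + b →
      (QExact (sz a n) (inM m c) (some z) ↔ QExact (sz b n) (inM m c) (some z)) ∧
      (QExact (sz a n) (outM m c) (some z) ↔ QExact (sz b n) (outM m c) (some z))) ∧
    (a + b = ∑ w, c w * n w →
      (QExact (sz a n) (inM m c) (some z) ↔ QExact (sz b n) (outM m c) (some z))) ∧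
    (QExact (sz 0 n) (inM m c) (some z) ↔ QExact n m z) ∧
    (QExact (sz 0 n) (outM m c) (some z) ↔ QExact n m z) := by
  simp only [QExact_iff]
  refine ⟨fun h => ⟨?_, ?_⟩, fun h => ?_, in_zero n m c z, out_zero n m c z⟩
  · rw [in_iff, in_iff]
    exact reduction _ _ (qρ_mul n m c z) (by rw [Fintype.card_fin, Fintype.card_fin, card_Idx, h])
  · rw [out_iff, out_iff]
    exact coreduction _ _ (qρ_mul n m c z) (by rw [Fintype.card_fin, Fintype.card_fin, card_Idx, h])
  · rw [in_iff, out_iff]
    exact castling _ _ (qρ_mul n m c z) (by rw [Fintype.card_fin, Fintype.card_fin, card_Idx, h])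

end H

end Pool.Agent.H215.SM
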